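import Pool.Agent.Lib.MP_8d4425_gt.PN.Iface
import Pool.Agent.Lib.MP_8d4425_gt.PB.Cod

set_option autoImplicit false

/-!
# Row BAS: first facts on the parallel unit normal field `N`
-/

namespace PBN

open MP8d4425
open scoped ContDiff

/-- Row BAS. -/
theorem bas_proof (h0 : Bas0Statement) : BasStatement := by
  intro m n U φ N P h
  have hNN : ∀ x ∈ U, ∀ v, inner ℝ (N x) (fderiv ℝ N x v) = (0 : ℝ) := by
    intro x hx v
    have h1 := (Cod.hasF h.imm.op h.sN hx).inner ℝ (Cod.hasF h.imm.op h.sN hx)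
    have h2 : HasFDerivAt (fun _ : X m => (1 : ℝ)) (0 : X m →L[ℝ] ℝ) x := hasFDerivAt_const _ _
    have h3 := Cod.eq_of_eqOn h.imm.op hx (fun y hy => by
      rw [real_inner_self_eq_norm_sq, h.unit y hy, one_pow]) h1 h2
    have h4 := congrArg (fun L : X m →L[ℝ] ℝ => L v) h3
    simp only [ContinuousLinearMap.comp_apply, ContinuousLinearMap.prod_apply,
      fderivInnerCLM_apply, ContinuousLinearMap.zero_apply] at h4
    rw [real_inner_comm (N x)] at h4
    have h5 : (inner ℝ (N x) (fderiv ℝ N x v) : ℝ) = inner ℝ (fderiv ℝ N x v) (N x) :=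
      real_inner_comm _ _
    linarith
  have hNP : ∀ x ∈ U, ∀ v w, inner ℝ (fderiv ℝ N x v) (fderiv ℝ φ x w) =
      -(inner ℝ (N x) (D2 φ x v w) : ℝ) := by
    intro x hx v w
    have h1 := (Cod.hasF h.imm.op h.sN hx).inner ℝ (Cod.hasFv h.imm.op h.imm.sφ hx w)
    have h2 : HasFDerivAt (fun _ : X m => (0 : ℝ)) (0 : X m →L[ℝ] ℝ) x := hasFDerivAt_const _ _
    have h3 := Cod.eq_of_eqOn h.imm.op hx (fun y hy => h.perp y hy w) h1 h2
    have h4 := congrArg (fun L : X m →L[ℝ] ℝ => L v) h3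
    simp only [ContinuousLinearMap.comp_apply, ContinuousLinearMap.prod_apply,
      fderivInnerCLM_apply, ContinuousLinearMap.zero_apply,
      ContinuousLinearMap.apply_apply] at h4
    unfold D2
    linarith
  have hNNd : ∀ x ∈ U, ∀ v w, inner ℝ (N x) (D2 N x v w) =
      -(inner ℝ (fderiv ℝ N x v) (fderiv ℝ N x w) : ℝ) := by
    intro x hx v w
    have h1 := (Cod.hasF h.imm.op h.sN hx).inner ℝ (Cod.hasFv h.imm.op h.sN hx w)
    have h2 : HasFDerivAt (fun _ : X m => (0 : ℝ)) (0 : X m →L[ℝ] ℝ) x := hasFDerivAt_const _ _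
    have h3 := Cod.eq_of_eqOn h.imm.op hx (fun y hy => hNN y hy w) h1 h2
    have h4 := congrArg (fun L : X m →L[ℝ] ℝ => L v) h3
    simp only [ContinuousLinearMap.comp_apply, ContinuousLinearMap.prod_apply,
      fderivInnerCLM_apply, ContinuousLinearMap.zero_apply,
      ContinuousLinearMap.apply_apply] at h4
    unfold D2
    linarith
  have hDs : ∀ x ∈ U, ∀ v w, D2 N x v w = D2 N x w v := by
    intro x hx v w
    have h1 : ContDiffAt ℝ ∞ N x := h.sN.contDiffAt (h.imm.op.mem_nhds hx)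
    exact (h1.isSymmSndFDerivAt (by simp; exact WithTop.coe_le_coe.mpr le_top)).eq v w
  intro x hx
  obtain ⟨b1, b2, b3, b4, b5, b6, b7, b8⟩ := h0 m n U φ P h.imm x hx
  -- `P N = 0`
  have hPN : P x (N x) = 0 := by
    have e1 : (inner ℝ (fderiv ℝ φ x (P x (N x))) (fderiv ℝ φ x (P x (N x))) : ℝ) = 0 := by
      rw [b7 (N x) (P x (N x)), h.perp x hx]
    have e2 : fderiv ℝ φ x (P x (N x)) = 0 := inner_self_eq_zero.mp e1
    have e3 := h.imm.left x hx (P x (N x))
    rw [e2, map_zero] at e3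
    exact e3.symm
  -- `<N, nor w> = <N, w>`
  have hNn : ∀ w, (inner ℝ (N x) (nor φ P x w) : ℝ) = inner ℝ (N x) w := by
    intro w
    rw [nor, inner_sub_right, h.perp x hx, sub_zero]
  -- `B(v, P (DN w)) = nor (D²N (v, w))`
  have hR : ∀ v w, bf φ P x v (P x (fderiv ℝ N x w)) = nor φ P x (D2 N x v w) := by
    intro v w
    have hPx : HasFDerivAt P (fderiv ℝ P x) x := Cod.hasF h.imm.op h.imm.sP hx
    -- `DP(v) (Dφ z) = - P (D²φ(v, z))`
    have hDP : ∀ z, fderiv ℝ P x v (fderiv ℝ φ x z) = -(P x (D2 φ x v z)) := by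
      intro z
      have h1 : HasFDerivAt (fun y => P y (fderiv ℝ φ y z))
          ((P x).comp ((ContinuousLinearMap.apply ℝ (X n) z).comp
            (fderiv ℝ (fderiv ℝ φ) x)) + (fderiv ℝ P x).flip (fderiv ℝ φ x z)) x :=
        hPx.clm_apply (Cod.hasFv h.imm.op h.imm.sφ hx z)
      have h2 := Cod.eq_of_eqOn h.imm.op hx (fun y hy => h.imm.left y hy z) h1
        (hasFDerivAt_const z x)
      have h3 := congrArg (fun L : X m →L[ℝ] X m => L v) h2
      have h4 : P x (D2 φ x v z) + fderiv ℝ P x v (fderiv ℝ φ x z) = 0 := by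
        unfold D2
        simpa using h3
      exact eq_neg_of_add_eq_zero_right h4
    -- differentiate `Dφ (P (DN w)) = DN w` along `v`
    have g1 : HasFDerivAt (fun y => P y (fderiv ℝ N y w))
        ((P x).comp ((ContinuousLinearMap.apply ℝ (X n) w).comp
          (fderiv ℝ (fderiv ℝ N) x)) + (fderiv ℝ P x).flip (fderiv ℝ N x w)) x :=
      hPx.clm_apply (Cod.hasFv h.imm.op h.sN hx w)
    have g2 := (Cod.hasF2 h.imm.op h.imm.sφ hx).clm_apply g1
    have g3 := Cod.eq_of_eqOn h.imm.op hx (fun y hy => h.par y hy w) g2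
      (Cod.hasFv h.imm.op h.sN hx w)
    have g4 := congrArg (fun L : X m →L[ℝ] X n => L v) g3
    have g5 : fderiv ℝ φ x (P x (D2 N x v w) + fderiv ℝ P x v (fderiv ℝ N x w)) +
        D2 φ x v (P x (fderiv ℝ N x w)) = D2 N x v w := by
      unfold D2
      simpa using g4
    have g6 : fderiv ℝ P x v (fderiv ℝ N x w) =
        -(P x (D2 φ x v (P x (fderiv ℝ N x w)))) := by
      rw [← hDP, h.par x hx w]
    rw [g6, map_add, map_neg] at g5
    rw [bf, nor, nor, ← sub_eq_zero]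
    rw [← sub_eq_zero] at g5
    rw [← g5]
    abel
  refine ⟨hNN x hx, hNP x hx, ?_, hDs x hx, ?_, hPN, ?_, hNNd x hx, ?_⟩
  · intro v w
    rw [hNP x hx v w, bf, hNn]
  · intro v w
    rw [hNP x hx v w, hNP x hx w v, b1 v w]
  · rw [nor, hPN, map_zero, sub_zero]
  · intro v w
    rw [hR v w, hR w v, hDs x hx v w]

end PBN
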