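import Mathlib
import Pool.Agent.Lib.MP_8d4425_gt.PB.Iface
import Pool.Agent.Lib.MP_8d4425_gt.H48.Ode2

set_option autoImplicit false

/-!
# p-biharmonic PNMC immersions of any codimension are minimal: interface

Paper: finding 4595 on MP_8d4425_gt (helper48), on top of 4568 (helper81).  The statements follow
`PB/Iface.lean`, with `X n` instead of `X (m+1)`; `N` is the normalised mean curvature vector,
whose derivative is tangential (`Imm.par`).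
-/

namespace PBN

open MP8d4425
open scoped ContDiff

/-- The theorem: `H / |H|` is parallel in the normal bundle where `H ≠ 0`. -/
def MainStatement : Prop :=
  ∀ (m n : ℕ) (p : ℝ), 2 ≤ p → ∀ (U : Set (X m)) (φ : X m → X n), IsOpen U →
    ContDiffOn ℝ ∞ φ U → (∀ x ∈ U, Function.Injective (fderiv ℝ φ x)) →
    (∀ x ∈ U, biten p φ x = 0) →
    (∀ x ∈ U, tens p φ x ≠ 0 → ∀ v, ∃ u,
      fderiv ℝ (fun y => ‖tens p φ y‖⁻¹ • tens p φ y) x v = fderiv ℝ φ x u) →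
    ∀ x ∈ U, tens p φ x = 0

/-! ## Immersions -/

/-- An immersion with the orthogonal left inverse `P` of `Dφ`. -/
structure Imm0 (m n : ℕ) (U : Set (X m)) (φ : X m → X n) (P : X m → (X n →L[ℝ] X m)) :
    Prop where
  op : IsOpen U
  sφ : ContDiffOn ℝ ∞ φ U
  sP : ContDiffOn ℝ ∞ P U
  left : ∀ x ∈ U, ∀ v, P x (fderiv ℝ φ x v) = v
  orth : ∀ x ∈ U, ∀ w v, inner ℝ (w - fderiv ℝ φ x (P x w)) (fderiv ℝ φ x v) = (0 : ℝ)

/-- An immersion with a unit normal field `N` which is parallel in the normal bundle. -/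
structure Imm (m n : ℕ) (U : Set (X m)) (φ N : X m → X n) (P : X m → (X n →L[ℝ] X m)) :
    Prop where
  imm : Imm0 m n U φ P
  sN : ContDiffOn ℝ ∞ N U
  unit : ∀ x ∈ U, ‖N x‖ = 1
  perp : ∀ x ∈ U, ∀ v, inner ℝ (N x) (fderiv ℝ φ x v) = (0 : ℝ)
  par : ∀ x ∈ U, ∀ v, fderiv ℝ φ x (P x (fderiv ℝ N x v)) = fderiv ℝ N x v

/-- `ε` is an orthonormal frame at `x` for the induced metric. -/
def OF {m n : ℕ} (φ : X m → X n) (x : X m) (ε : Fin m → X m) : Prop :=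
  ∀ i j, inner ℝ (fderiv ℝ φ x (ε i)) (fderiv ℝ φ x (ε j)) = if i = j then (1 : ℝ) else 0

/-- The normal part. -/
noncomputable def nor {m n : ℕ} (φ : X m → X n) (P : X m → (X n →L[ℝ] X m)) (x : X m)
    (w : X n) : X n := w - fderiv ℝ φ x (P x w)

/-- The second fundamental form. -/
noncomputable def bf {m n : ℕ} (φ : X m → X n) (P : X m → (X n →L[ℝ] X m)) (x v w : X m) :
    X n := nor φ P x (D2 φ x v w)

/-- The frame trace of the Hessian of `u` with respect to the induced metric. -/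
noncomputable def lap {m n : ℕ} {F : Type} [NormedAddCommGroup F] [NormedSpace ℝ F]
    (φ : X m → X n) (P : X m → (X n →L[ℝ] X m)) (u : X m → F) (x : X m)
    (ε : Fin m → X m) : F :=
  ∑ a, (D2 u x (ε a) (ε a) - fderiv ℝ u x (P x (D2 φ x (ε a) (ε a))))

/-- An immersion with `H = f N`, `N` parallel, which satisfies the two equations. -/
structure Hyp (m n : ℕ) (p : ℝ) (U : Set (X m)) (φ N : X m → X n)
    (P : X m → (X n →L[ℝ] X m)) (f : X m → ℝ) : Prop where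
  imm : Imm m n U φ N P
  sf : ContDiffOn ℝ ∞ f U
  fpos : ∀ x ∈ U, 0 < f x
  mean : ∀ x ∈ U, ∀ ε, OF φ x ε → ∑ a, bf φ P x (ε a) (ε a) = ((m : ℝ) * f x) • N x
  tang : ∀ x ∈ U, ∀ G, (∀ v, inner ℝ (fderiv ℝ φ x G) (fderiv ℝ φ x v) = fderiv ℝ f x v) →
    fderiv ℝ N x G = ((p - 2 + m / 2) * f x) • fderiv ℝ φ x G
  norm : ∀ x ∈ U, ∀ ε, OF φ x ε →
    lap φ P f x ε = f x * ((∑ i, ‖fderiv ℝ N x (ε i)‖ ^ 2) + m * (p - 2) * (f x) ^ 2)

/-! ### Rows V: from the vector equation to `Hyp` -/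

/-- Row BAS0: first facts on immersions. -/
def Bas0Statement : Prop :=
  ∀ (m n : ℕ) (U : Set (X m)) (φ : X m → X n) (P : X m → (X n →L[ℝ] X m)),
    Imm0 m n U φ P → ∀ x ∈ U,
      (∀ v w, D2 φ x v w = D2 φ x w v) ∧
      (∀ v w, bf φ P x v w = bf φ P x w v) ∧
      (∀ w v, inner ℝ (nor φ P x w) (fderiv ℝ φ x v) = (0 : ℝ)) ∧
      (∀ w v, inner ℝ (fderiv ℝ φ x v) (nor φ P x w) = (0 : ℝ)) ∧
      (∀ v, nor φ P x (fderiv ℝ φ x v) = 0) ∧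
      (∀ w, P x (nor φ P x w) = 0) ∧
      (∀ w v, inner ℝ (fderiv ℝ φ x (P x w)) (fderiv ℝ φ x v) =
        (inner ℝ w (fderiv ℝ φ x v) : ℝ)) ∧
      (∀ v w, fderiv ℝ (fun y => fderiv ℝ φ y (P y (fderiv ℝ φ x w))) x v = bf φ P x v w)

/-- Row BAS: first facts on `N` (from BAS0). -/
def BasStatement : Prop :=
  ∀ (m n : ℕ) (U : Set (X m)) (φ N : X m → X n) (P : X m → (X n →L[ℝ] X m)),
    Imm m n U φ N P → ∀ x ∈ U,
      (∀ v, inner ℝ (N x) (fderiv ℝ N x v) = (0 : ℝ)) ∧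
      (∀ v w, inner ℝ (fderiv ℝ N x v) (fderiv ℝ φ x w) = -(inner ℝ (N x) (D2 φ x v w) : ℝ)) ∧
      (∀ v w, inner ℝ (fderiv ℝ N x v) (fderiv ℝ φ x w) = -(inner ℝ (N x) (bf φ P x v w) : ℝ)) ∧
      (∀ v w, D2 N x v w = D2 N x w v) ∧
      (∀ v w, inner ℝ (fderiv ℝ N x v) (fderiv ℝ φ x w) =
        inner ℝ (fderiv ℝ N x w) (fderiv ℝ φ x v)) ∧
      P x (N x) = 0 ∧ nor φ P x (N x) = N x ∧
      (∀ v w, inner ℝ (N x) (D2 N x v w) =
        -(inner ℝ (fderiv ℝ N x v) (fderiv ℝ N x w) : ℝ)) ∧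
      (∀ v w, bf φ P x v (P x (fderiv ℝ N x w)) = bf φ P x w (P x (fderiv ℝ N x v)))

/-- Row OFR: orthonormal frames. -/
def OfrStatement : Prop :=
  ∀ (m n : ℕ) (U : Set (X m)) (φ : X m → X n) (P : X m → (X n →L[ℝ] X m)),
    Imm0 m n U φ P → ∀ x ∈ U, (∃ ε, OF φ x ε) ∧ ∀ ε, OF φ x ε →
      (∀ v, v = ∑ a, (inner ℝ (fderiv ℝ φ x (ε a)) (fderiv ℝ φ x v) : ℝ) • ε a) ∧
      (∀ w, fderiv ℝ φ x (P x w) =
        ∑ a, (inner ℝ (fderiv ℝ φ x (ε a)) w : ℝ) • fderiv ℝ φ x (ε a))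

/-- Row TRC (from OFR): the trace with the inverse Gram matrix is the frame trace, and the Gram
determinant is positive. -/
def TrcStatement : Prop :=
  ∀ (m n : ℕ) (U : Set (X m)) (φ : X m → X n) (P : X m → (X n →L[ℝ] X m)),
    Imm0 m n U φ P → ∀ x ∈ U, 0 < (gram φ x).det ∧ ∀ ε, OF φ x ε →
      ∀ (F : Type) [NormedAddCommGroup F] [NormedSpace ℝ F] (b : X m →L[ℝ] X m →L[ℝ] F),
        ∑ k, ∑ l, (gram φ x)⁻¹ k l • b (cv k) (cv l) = ∑ a, b (ε a) (ε a)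

/-- Row JAC (Jacobi formula). -/
def JacStatement : Prop :=
  ∀ (m n : ℕ) (U : Set (X m)) (φ : X m → X n) (P : X m → (X n →L[ℝ] X m)),
    Imm0 m n U φ P → ∀ x ∈ U, ∀ j,
      ∑ i, fderiv ℝ (fun y => Real.sqrt (gram φ y).det * (gram φ y)⁻¹ i j) x (cv i) =
        - (Real.sqrt (gram φ x).det * ∑ k, ∑ l, ∑ r, (gram φ x)⁻¹ k l * (gram φ x)⁻¹ j r *
          inner ℝ (D2 φ x (cv k) (cv l)) (fderiv ℝ φ x (cv r)))

/-- Row DVG (from OFR, TRC, JAC): the divergence with frames. -/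
def DvgStatement : Prop :=
  ∀ (m n : ℕ) (U : Set (X m)) (φ : X m → X n) (P : X m → (X n →L[ℝ] X m)),
    Imm0 m n U φ P → ∀ (F : Type) [NormedAddCommGroup F] [NormedSpace ℝ F]
      (θ : X m → (X m →L[ℝ] F)), ∀ x ∈ U, DifferentiableAt ℝ θ x → ∀ ε, OF φ x ε →
      dvg φ (fun y j => θ y (cv j)) x =
        ∑ a, (fderiv ℝ θ x (ε a) (ε a) - θ x (P x (D2 φ x (ε a) (ε a))))

/-- Row TEN (from BAS0, OFR, TRC, DVG): the p-tension field. -/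
def TenStatement : Prop :=
  ∀ (m n : ℕ) (U : Set (X m)) (φ : X m → X n) (P : X m → (X n →L[ℝ] X m)), 0 < m →
    Imm0 m n U φ P → (∀ x ∈ U, prd φ φ x = m) ∧
      ∀ (p : ℝ), ContDiffOn ℝ ∞ (tens p φ) U ∧ ∀ x ∈ U, ∀ ε, OF φ x ε →
        tens p φ x = ((m : ℝ) ^ ((p - 2) / 2)) • ∑ a, bf φ P x (ε a) (ε a)

/-- Row SPL (from PINV of PB, BAS0, OFR, TEN): `H = f N` near a point with `H ≠ 0`. -/
def SplStatement : Prop :=
  ∀ (m n : ℕ) (p : ℝ) (U : Set (X m)) (φ : X m → X n), 0 < m → IsOpen U →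
    ContDiffOn ℝ ∞ φ U → (∀ x ∈ U, Function.Injective (fderiv ℝ φ x)) →
    (∀ x ∈ U, tens p φ x ≠ 0 → ∀ v, ∃ u,
      fderiv ℝ (fun y => ‖tens p φ y‖⁻¹ • tens p φ y) x v = fderiv ℝ φ x u) →
    ∀ x₀ ∈ U, tens p φ x₀ ≠ 0 →
    ∃ (U' : Set (X m)) (N : X m → X n) (P : X m → (X n →L[ℝ] X m)) (f : X m → ℝ),
      U' ⊆ U ∧ x₀ ∈ U' ∧ Imm m n U' φ N P ∧ ContDiffOn ℝ ∞ f U' ∧ (∀ x ∈ U', 0 < f x) ∧
      (∀ x ∈ U', prd φ φ x = m) ∧
      (∀ x ∈ U', tens p φ x = ((m : ℝ) ^ ((p - 2) / 2) * (m * f x)) • N x) ∧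
      (∀ x ∈ U', ∀ ε, OF φ x ε → ∑ a, bf φ P x (ε a) (ε a) = ((m : ℝ) * f x) • N x)

/-- Row EQV (from BAS0, BAS, OFR, TRC, DVG): the vector equation for `Y = f N`. -/
def EqvStatement : Prop :=
  ∀ (m n : ℕ) (p : ℝ) (U : Set (X m)) (φ N : X m → X n)
    (P : X m → (X n →L[ℝ] X m)) (f : X m → ℝ), 0 < m → Imm m n U φ N P →
    ContDiffOn ℝ ∞ f U →
    (∀ x ∈ U, ∀ ε, OF φ x ε → ∑ a, bf φ P x (ε a) (ε a) = ((m : ℝ) * f x) • N x) →
    (∀ x ∈ U, prd φ φ x = m) →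
    (∀ x ∈ U, tens p φ x = ((m : ℝ) ^ ((p - 2) / 2) * (m * f x)) • N x) →
    (∀ x ∈ U, biten p φ x = 0) → ∀ x ∈ U, ∀ ε, OF φ x ε →
      lap φ P (fun y => f y • N y) x ε =
        (p - 2) • (∑ a, (2 * f x * fderiv ℝ f x (ε a)) • fderiv ℝ φ x (ε a) +
          (m * (f x) ^ 3) • N x)

/-- Row COD (from BAS0, BAS, OFR): the traced Codazzi equation. -/
def CodStatement : Prop :=
  ∀ (m n : ℕ) (U : Set (X m)) (φ N : X m → X n) (P : X m → (X n →L[ℝ] X m))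
    (f : X m → ℝ), Imm m n U φ N P → ContDiffOn ℝ ∞ f U →
    (∀ x ∈ U, ∀ ε, OF φ x ε →
      (m : ℝ) * f x = - ∑ i, inner ℝ (fderiv ℝ N x (ε i)) (fderiv ℝ φ x (ε i))) →
    ∀ x ∈ U, ∀ ε, OF φ x ε → ∀ u,
      inner ℝ (lap φ P N x ε) (fderiv ℝ φ x u) = -(m * fderiv ℝ f x u)

/-- Row HYP (from BAS0, BAS, OFR, COD): split the vector equation. -/
def HypStatement : Prop :=
  ∀ (m n : ℕ) (p : ℝ) (U : Set (X m)) (φ N : X m → X n)
    (P : X m → (X n →L[ℝ] X m)) (f : X m → ℝ), 0 < m → Imm m n U φ N P →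
    ContDiffOn ℝ ∞ f U → (∀ x ∈ U, 0 < f x) →
    (∀ x ∈ U, ∀ ε, OF φ x ε → ∑ a, bf φ P x (ε a) (ε a) = ((m : ℝ) * f x) • N x) →
    (∀ x ∈ U, ∀ ε, OF φ x ε → lap φ P (fun y => f y • N y) x ε =
        (p - 2) • (∑ a, (2 * f x * fderiv ℝ f x (ε a)) • fderiv ℝ φ x (ε a) +
          (m * (f x) ^ 3) • N x)) →
    Hyp m n p U φ N P f

/-! ### Rows G: from `Hyp` to the ODE along one curve -/

/-- Row NONV (from BAS, OFR): a nonempty open set where `Df ≠ 0`. -/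
def NonvStatement : Prop :=
  ∀ (m n : ℕ) (p : ℝ) (U : Set (X m)) (φ N : X m → X n)
    (P : X m → (X n →L[ℝ] X m)) (f : X m → ℝ), 2 ≤ p → 0 < m → Hyp m n p U φ N P f →
    U.Nonempty → ∃ U' ⊆ U, U'.Nonempty ∧ Hyp m n p U' φ N P f ∧ ∀ x ∈ U', fderiv ℝ f x ≠ 0

/-- The unit field `e = grad f / |grad f|` and `lam = |grad f|`. -/
structure Frm (m n : ℕ) (p : ℝ) (U : Set (X m)) (φ N : X m → X n) (f : X m → ℝ)
    (e : X m → X m) (lam : X m → ℝ) : Prop where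
  se : ContDiffOn ℝ ∞ e U
  sl : ContDiffOn ℝ ∞ lam U
  lpos : ∀ x ∈ U, 0 < lam x
  one : ∀ x ∈ U, ‖fderiv ℝ φ x (e x)‖ = 1
  df : ∀ x ∈ U, ∀ v, fderiv ℝ f x v = lam x * inner ℝ (fderiv ℝ φ x (e x)) (fderiv ℝ φ x v)
  dN : ∀ x ∈ U, fderiv ℝ N x (e x) = ((p - 2 + m / 2) * f x) • fderiv ℝ φ x (e x)

/-- The unit tangent field `T = Dφ(e)`. -/
noncomputable def tf {m n : ℕ} (φ : X m → X n) (e : X m → X m) (x : X m) : X n :=
  fderiv ℝ φ x (e x)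

/-- `β = DT(e)`. -/
noncomputable def be {m n : ℕ} (φ : X m → X n) (e : X m → X m) (x : X m) : X n :=
  fderiv ℝ (tf φ e) x (e x)

/-- Row FRM (from BAS0): `e = G / ‖Dφ G‖`. -/
def FrmStatement : Prop :=
  ∀ (m n : ℕ) (p : ℝ) (U : Set (X m)) (φ N : X m → X n)
    (P : X m → (X n →L[ℝ] X m)) (f : X m → ℝ), Hyp m n p U φ N P f →
    (∀ x ∈ U, fderiv ℝ f x ≠ 0) → ∃ (e : X m → X m) (lam : X m → ℝ), Frm m n p U φ N f e lam

/-- Row KER (from BAS0, BAS): an eigenfield of `DN` for the eigenvalue of `e`, orthogonal to `T`,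
vanishes. -/
def KerStatement : Prop :=
  ∀ (m n : ℕ) (p : ℝ) (U : Set (X m)) (φ N : X m → X n)
    (P : X m → (X n →L[ℝ] X m)) (f : X m → ℝ) (e : X m → X m) (lam : X m → ℝ),
    2 ≤ p → 0 < m → Hyp m n p U φ N P f → Frm m n p U φ N f e lam →
    ∀ W : X m → X m, ContDiffOn ℝ ∞ W U →
    (∀ x ∈ U, fderiv ℝ N x (W x) = ((p - 2 + m / 2) * f x) • fderiv ℝ φ x (W x)) →
    (∀ x ∈ U, inner ℝ (tf φ e x) (fderiv ℝ φ x (W x)) = (0 : ℝ)) → ∀ x ∈ U, W x = 0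

/-- Row BET1 (from BAS0, BAS, KER): `DT(e)` is normal. -/
def Bet1Statement : Prop :=
  ∀ (m n : ℕ) (p : ℝ) (U : Set (X m)) (φ N : X m → X n)
    (P : X m → (X n →L[ℝ] X m)) (f : X m → ℝ) (e : X m → X m) (lam : X m → ℝ),
    2 ≤ p → 0 < m → Hyp m n p U φ N P f → Frm m n p U φ N f e lam →
    ∀ x ∈ U, P x (be φ e x) = 0 ∧ be φ e x = bf φ P x (e x) (e x) ∧
      inner ℝ (N x) (be φ e x) = -((p - 2 + m / 2) * f x)

/-- Row BET2 (from BAS0, BAS, KER): `B(e,v)` is a multiple of `B(e,e)`. -/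
def Bet2Statement : Prop :=
  ∀ (m n : ℕ) (p : ℝ) (U : Set (X m)) (φ N : X m → X n)
    (P : X m → (X n →L[ℝ] X m)) (f : X m → ℝ) (e : X m → X m) (lam : X m → ℝ),
    2 ≤ p → 0 < m → Hyp m n p U φ N P f → Frm m n p U φ N f e lam →
    ∀ x ∈ U, ∀ v, bf φ P x (e x) v =
      (inner ℝ (tf φ e x) (fderiv ℝ φ x v) : ℝ) • bf φ P x (e x) (e x)

/-- Row PRJ (from BAS0, BET1, BET2): the derivative of the tangential projection along `e`. -/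
def PrjStatement : Prop :=
  ∀ (m n : ℕ) (p : ℝ) (U : Set (X m)) (φ N : X m → X n)
    (P : X m → (X n →L[ℝ] X m)) (f : X m → ℝ) (e : X m → X m) (lam : X m → ℝ),
    2 ≤ p → 0 < m → Hyp m n p U φ N P f → Frm m n p U φ N f e lam →
    ∀ x ∈ U, ∀ w : X n, fderiv ℝ (fun y => fderiv ℝ φ y (P y w)) x (e x) =
      (inner ℝ (tf φ e x) w : ℝ) • be φ e x + (inner ℝ (be φ e x) w : ℝ) • tf φ e x

/-- An integral curve of `e` together with an orthonormal basis `w` of the orthogonal complement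
of `T` in the tangent space at the start (`k = m - 1` vectors), and the identities of rows BET1,
BET2, PRJ. -/
structure Crv (m n : ℕ) (p : ℝ) (U : Set (X m)) (φ N : X m → X n)
    (P : X m → (X n →L[ℝ] X m)) (f : X m → ℝ) (e : X m → X m) (lam : X m → ℝ)
    (k : ℕ) (δ : ℝ) (c : ℝ → X m) (w : Fin k → X n) : Prop where
  hyp : Hyp m n p U φ N P f
  frm : Frm m n p U φ N f e lam
  bet1 : ∀ x ∈ U, P x (be φ e x) = 0 ∧ be φ e x = bf φ P x (e x) (e x) ∧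
      inner ℝ (N x) (be φ e x) = -((p - 2 + m / 2) * f x)
  bet2 : ∀ x ∈ U, ∀ v, bf φ P x (e x) v =
      (inner ℝ (tf φ e x) (fderiv ℝ φ x v) : ℝ) • bf φ P x (e x) (e x)
  prj : ∀ x ∈ U, ∀ w : X n, fderiv ℝ (fun y => fderiv ℝ φ y (P y w)) x (e x) =
      (inner ℝ (tf φ e x) w : ℝ) • be φ e x + (inner ℝ (be φ e x) w : ℝ) • tf φ e x
  dim : k + 1 = m
  δpos : 0 < δ
  cur : ∀ s ∈ Set.Ioo (-δ) δ, c s ∈ U ∧ HasDerivAt c (e (c s)) s
  orth : Orthonormal ℝ w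
  wF : ∀ i, fderiv ℝ φ (c 0) (P (c 0) (w i)) = w i
  wT : ∀ i, inner ℝ (tf φ e (c 0)) (w i) = (0 : ℝ)

/-- `κ` along the curve. -/
noncomputable def kc (m : ℕ) (p : ℝ) (f : X m → ℝ) (c : ℝ → X m) (s : ℝ) : ℝ :=
  -((p - 2 + m / 2) * f (c s))

/-- The derivative of `T` on the orthogonal complement of `T`. -/
noncomputable def mS {m n k : ℕ} (φ : X m → X n) (P : X m → (X n →L[ℝ] X m))
    (e : X m → X m) (c : ℝ → X m) (w : Fin k → X n) (s : ℝ) : Matrix (Fin k) (Fin k) ℝ :=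
  Matrix.of fun i j => (inner ℝ (fderiv ℝ (tf φ e) (c s) (P (c s) (w i))) (w j) : ℝ)

/-- The second fundamental form on the orthogonal complement of `T`. -/
noncomputable def mB {m n k : ℕ} (φ : X m → X n) (P : X m → (X n →L[ℝ] X m))
    (c : ℝ → X m) (w : Fin k → X n) (s : ℝ) (i j : Fin k) : X n :=
  bf φ P (c s) (P (c s) (w i)) (P (c s) (w j))

/-- `M = S T - B`. -/
noncomputable def mM {m n k : ℕ} (φ : X m → X n) (P : X m → (X n →L[ℝ] X m))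
    (e : X m → X m) (c : ℝ → X m) (w : Fin k → X n) (s : ℝ) (i j : Fin k) : X n :=
  mS φ P e c w s i j • tf φ e (c s) - mB φ P c w s i j

/-- Row PRP (from BAS0, BAS): `w` stays tangential and orthogonal to `T`. [The operator
`w ↦ Dφ(P w) - <T,w> T` is constant along the curve, by `prj`.]  Also `T' = β`, `N' = -κ T`. -/
def PrpStatement : Prop :=
  ∀ (m n : ℕ) (p : ℝ) (U : Set (X m)) (φ N : X m → X n)
    (P : X m → (X n →L[ℝ] X m)) (f : X m → ℝ) (e : X m → X m) (lam : X m → ℝ)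
    (k : ℕ) (δ : ℝ) (c : ℝ → X m) (w : Fin k → X n), Crv m n p U φ N P f e lam k δ c w →
    ∀ s ∈ Set.Ioo (-δ) δ,
      HasDerivAt (fun s => tf φ e (c s)) (be φ e (c s)) s ∧
      HasDerivAt (fun s => N (c s)) ((-(kc m p f c s)) • tf φ e (c s)) s ∧
      (∀ i, fderiv ℝ φ (c s) (P (c s) (w i)) = w i) ∧
      (∀ i, inner ℝ (tf φ e (c s)) (w i) = (0 : ℝ)) ∧
      (∀ i, inner ℝ (N (c s)) (w i) = (0 : ℝ)) ∧
      (∀ i, inner ℝ (be φ e (c s)) (w i) = (0 : ℝ)) ∧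
      (inner ℝ (N (c s)) (tf φ e (c s)) = (0 : ℝ)) ∧
      (∀ v : X m, inner ℝ (tf φ e (c s)) (fderiv ℝ φ (c s) v) = (0 : ℝ) →
        fderiv ℝ φ (c s) v = ∑ j, (inner ℝ (fderiv ℝ φ (c s) v) (w j) : ℝ) • w j) ∧
      (∀ v, inner ℝ (tf φ e (c s)) (fderiv ℝ (tf φ e) (c s) v) = (0 : ℝ)) ∧
      ∃ ε : Fin m → X m, OF φ (c s) ε ∧
        ∀ (F : Type) [AddCommMonoid F] (g : X m → F),
          ∑ a, g (ε a) = g (e (c s)) + ∑ i, g (P (c s) (w i))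

/-- Row WEX (from BAS0): an orthonormal basis of the orthogonal complement of `T` in the tangent
space. -/
def WexStatement : Prop :=
  ∀ (m n k : ℕ) (U : Set (X m)) (φ : X m → X n) (P : X m → (X n →L[ℝ] X m)),
    Imm0 m n U φ P → k + 1 = m → ∀ x ∈ U, ∀ v, ‖fderiv ℝ φ x v‖ = 1 →
    ∃ w : Fin k → X n, Orthonormal ℝ w ∧ (∀ i, fderiv ℝ φ x (P x (w i)) = w i) ∧
      ∀ i, inner ℝ (fderiv ℝ φ x v) (w i) = (0 : ℝ)

/-- Row VDT (from BAS0, BAS, PRP): `DT(P w i) = ∑ S i j w j`, `DN(P w i)`, the derivative of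
`P w i` along the curve. -/
def VdtStatement : Prop :=
  ∀ (m n : ℕ) (p : ℝ) (U : Set (X m)) (φ N : X m → X n)
    (P : X m → (X n →L[ℝ] X m)) (f : X m → ℝ) (e : X m → X m) (lam : X m → ℝ)
    (k : ℕ) (δ : ℝ) (c : ℝ → X m) (w : Fin k → X n), Crv m n p U φ N P f e lam k δ c w →
    ∀ s ∈ Set.Ioo (-δ) δ, ∀ i,
      fderiv ℝ (tf φ e) (c s) (P (c s) (w i)) = ∑ j, mS φ P e c w s i j • w j ∧
      fderiv ℝ N (c s) (P (c s) (w i)) =
        -∑ j, (inner ℝ (N (c s)) (mB φ P c w s i j) : ℝ) • w j ∧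
      HasDerivAt (fun s => P (c s) (w i)) (fderiv ℝ e (c s) (P (c s) (w i)) -
        ∑ j, mS φ P e c w s i j • P (c s) (w j)) s

/-- Row SYA (from BAS0, PRP): symmetry. -/
def SyaStatement : Prop :=
  ∀ (m n : ℕ) (p : ℝ) (U : Set (X m)) (φ N : X m → X n)
    (P : X m → (X n →L[ℝ] X m)) (f : X m → ℝ) (e : X m → X m) (lam : X m → ℝ)
    (k : ℕ) (δ : ℝ) (c : ℝ → X m) (w : Fin k → X n), Crv m n p U φ N P f e lam k δ c w →
    ∀ s ∈ Set.Ioo (-δ) δ, ∀ i j, mS φ P e c w s i j = mS φ P e c w s j i ∧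
      mB φ P c w s i j = mB φ P c w s j i

/-- Row DB (from BAS0, PRP, VDT): `B' = S β - <β,B> T - S B`. -/
def DbStatement : Prop :=
  ∀ (m n : ℕ) (p : ℝ) (U : Set (X m)) (φ N : X m → X n)
    (P : X m → (X n →L[ℝ] X m)) (f : X m → ℝ) (e : X m → X m) (lam : X m → ℝ)
    (k : ℕ) (δ : ℝ) (c : ℝ → X m) (w : Fin k → X n), Crv m n p U φ N P f e lam k δ c w →
    ∀ s ∈ Set.Ioo (-δ) δ, ∀ i j, HasDerivAt (fun s => mB φ P c w s i j)
      (mS φ P e c w s i j • be φ e (c s) -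
        (inner ℝ (be φ e (c s)) (mB φ P c w s i j) : ℝ) • tf φ e (c s) -
        ∑ l, mS φ P e c w s i l • mB φ P c w s l j) s

/-- Row DS (from BAS0, PRP, VDT): `S' = -<β,B> - S S`. -/
def DsStatement : Prop :=
  ∀ (m n : ℕ) (p : ℝ) (U : Set (X m)) (φ N : X m → X n)
    (P : X m → (X n →L[ℝ] X m)) (f : X m → ℝ) (e : X m → X m) (lam : X m → ℝ)
    (k : ℕ) (δ : ℝ) (c : ℝ → X m) (w : Fin k → X n), Crv m n p U φ N P f e lam k δ c w →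
    ∀ s ∈ Set.Ioo (-δ) δ, ∀ i j, HasDerivAt (fun s => mS φ P e c w s i j)
      (-(inner ℝ (be φ e (c s)) (mB φ P c w s i j) : ℝ) -
        ∑ l, mS φ P e c w s i l * mS φ P e c w s l j) s

/-- Row DM (from PRP, SYA, DB, DS): `M' = -S M`, `M` symmetric, `S = <M,T>`. -/
def DmStatement : Prop :=
  ∀ (m n : ℕ) (p : ℝ) (U : Set (X m)) (φ N : X m → X n)
    (P : X m → (X n →L[ℝ] X m)) (f : X m → ℝ) (e : X m → X m) (lam : X m → ℝ)
    (k : ℕ) (δ : ℝ) (c : ℝ → X m) (w : Fin k → X n), Crv m n p U φ N P f e lam k δ c w →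
    ∀ s ∈ Set.Ioo (-δ) δ, ∀ i j, mM φ P e c w s i j = mM φ P e c w s j i ∧
      (inner ℝ (mM φ P e c w s i j) (tf φ e (c s)) : ℝ) = mS φ P e c w s i j ∧
      (inner ℝ (mM φ P e c w s i j) (N (c s)) : ℝ) =
        -(inner ℝ (N (c s)) (mB φ P c w s i j) : ℝ) ∧
      HasDerivAt (fun s => mM φ P e c w s i j)
        (-∑ l, (inner ℝ (mM φ P e c w s i l) (tf φ e (c s)) : ℝ) • mM φ P e c w s l j) s

/-- Row TRA (from PRP, VDT): traces. -/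
def TraStatement : Prop :=
  ∀ (m n : ℕ) (p : ℝ) (U : Set (X m)) (φ N : X m → X n)
    (P : X m → (X n →L[ℝ] X m)) (f : X m → ℝ) (e : X m → X m) (lam : X m → ℝ)
    (k : ℕ) (δ : ℝ) (c : ℝ → X m) (w : Fin k → X n), Crv m n p U φ N P f e lam k δ c w →
    ∀ s ∈ Set.Ioo (-δ) δ,
      be φ e (c s) + ∑ i, mB φ P c w s i i = ((m : ℝ) * f (c s)) • N (c s) ∧
      ∀ ε : Fin m → X m, OF φ (c s) ε →
        (∀ g : X m → ℝ, ∑ a, g (ε a) = g (e (c s)) + ∑ i, g (P (c s) (w i))) →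
        (∑ a, ‖fderiv ℝ N (c s) (ε a)‖ ^ 2) = (kc m p f c s) ^ 2 +
          ∑ i, ∑ j, (inner ℝ (N (c s)) (mB φ P c w s i j) : ℝ) ^ 2

/-- Row NRM (from BAS0, BAS, OFR, PRP, TRA): the derivatives of `f` and `lam`. -/
def NrmStatement : Prop :=
  ∀ (m n : ℕ) (p : ℝ) (U : Set (X m)) (φ N : X m → X n)
    (P : X m → (X n →L[ℝ] X m)) (f : X m → ℝ) (e : X m → X m) (lam : X m → ℝ)
    (k : ℕ) (δ : ℝ) (c : ℝ → X m) (w : Fin k → X n), Crv m n p U φ N P f e lam k δ c w →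
    ∀ s ∈ Set.Ioo (-δ) δ, HasDerivAt (fun s => f (c s)) (lam (c s)) s ∧
      HasDerivAt (fun s => lam (c s))
        (f (c s) * ((kc m p f c s) ^ 2 +
          (∑ i, ∑ j, (inner ℝ (N (c s)) (mB φ P c w s i j) : ℝ) ^ 2) +
          m * (p - 2) * (f (c s)) ^ 2) - (∑ i, mS φ P e c w s i i) * lam (c s)) s

/-- Row DIAG: diagonalisation of the matrix system (pure linear algebra and ODE). -/
def DiagStatement : Prop :=
  ∀ (k n : ℕ) (δ : ℝ) (M : ℝ → Fin k → Fin k → X n) (T : ℝ → X n), 0 < δ →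
    ContinuousOn T (Set.Ioo (-δ) δ) →
    (∀ s ∈ Set.Ioo (-δ) δ, ∀ i j, M s i j = M s j i) →
    (∀ s ∈ Set.Ioo (-δ) δ, ∀ i j, HasDerivAt (fun s => M s i j)
      (-∑ l, (inner ℝ (M s i l) (T s) : ℝ) • M s l j) s) →
    ∃ ε : ℝ, 0 < ε ∧ ε ≤ δ ∧ ∃ (c : Fin k → Fin k → X n) (r : Fin k → ℝ → ℝ),
      (∀ i, r i 0 = 1) ∧
      (∀ s ∈ Set.Ioo (-ε) ε, ∀ i,
        HasDerivAt (r i) (-(r i s ^ 2 * inner ℝ (c i i) (T s))) s) ∧
      ∀ s ∈ Set.Ioo (-ε) ε, ∑ i, M s i i = ∑ i, r i s • c i i ∧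
        ∀ u : X n, ∑ i, ∑ j, (inner ℝ (M s i j) u : ℝ) ^ 2 =
          ∑ i, ∑ j, (inner ℝ (c i j) u : ℝ) ^ 2 * (r i s * r j s)

/-- Row LOC (from PRP, DM, TRA, NRM, DIAG). -/
def LocStatement : Prop :=
  ∀ (m n : ℕ) (p : ℝ) (U : Set (X m)) (φ N : X m → X n)
    (P : X m → (X n →L[ℝ] X m)) (f : X m → ℝ) (e : X m → X m) (lam : X m → ℝ)
    (k : ℕ) (δ : ℝ) (c : ℝ → X m) (w : Fin k → X n), 2 ≤ p →
    Crv m n p U φ N P f e lam k δ c w →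
    ∃ (μ ν ε : ℝ) (cc : Fin k → Fin k → X n) (r : Fin k → ℝ → ℝ), 0 < μ ∧ μ ≤ 1 ∧ 0 ≤ ν ∧
      PBH48.Loc2 k n μ ν ε cc (fun s => tf φ e (c s)) (fun s => N (c s)) r

end PBN
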