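import Mathlib
import Pool.Agent.Lib.MP_8d4425_gt.PN.Iface
import Pool.Agent.Lib.MP_8d4425_gt.PB.Tnk

set_option autoImplicit false

/-!
# Row BAS0
-/

namespace PBN

open MP8d4425 MP8d4425.Tnk
open scoped ContDiff

theorem Bas0.symm2 {F : Type} [NormedAddCommGroup F] [NormedSpace ℝ F] {m : ℕ} {U : Set (X m)}
    (hU : IsOpen U) {u : X m → F} (hu : ContDiffOn ℝ ∞ u U) {x : X m} (hx : x ∈ U) (v w : X m) :
    D2 u x v w = D2 u x w v := by
  have h1 : ContDiffAt ℝ ∞ u x := hu.contDiffAt (hU.mem_nhds hx)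
  have h2 : IsSymmSndFDerivAt ℝ u x :=
    h1.isSymmSndFDerivAt (by simp; exact WithTop.coe_le_coe.mpr le_top)
  exact h2 v w

theorem bas0_proof : Bas0Statement := by
  intro m n U φ P hI x hx
  have hU := hI.op
  have sDφ := cd_fderiv hU hI.sφ
  have hleft := hI.left x hx
  have horth := hI.orth x hx
  have c3 : ∀ w v, inner ℝ (nor φ P x w) (fderiv ℝ φ x v) = (0 : ℝ) := horth
  have c4 : ∀ w v, inner ℝ (fderiv ℝ φ x v) (nor φ P x w) = (0 : ℝ) := by
    intro w v
    rw [real_inner_comm]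
    exact c3 w v
  refine ⟨Bas0.symm2 hU hI.sφ hx, ?_, c3, c4, ?_, ?_, ?_, ?_⟩
  · intro v w
    rw [bf, bf, Bas0.symm2 hU hI.sφ hx]
  · intro v
    rw [nor, hleft, sub_self]
  · intro w
    rw [nor, map_sub, hleft, sub_self]
  · intro w v
    have := c3 w v
    rw [nor, inner_sub_left] at this
    linarith
  · intro v w
    have sa : ContDiffOn ℝ ∞ (fun _ : X m => fderiv ℝ φ x w) U := contDiffOn_const
    have sPa : ContDiffOn ℝ ∞ (fun y => P y (fderiv ℝ φ x w)) U := hI.sP.clm_apply sa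
    have h1 := fderiv_app hU sDφ sPa hx v
    have h2 : fderiv ℝ (fun y => P y (fderiv ℝ φ x w)) x v = fderiv ℝ P x v (fderiv ℝ φ x w) := by
      rw [fderiv_app hU hI.sP sa hx v]
      simp
    have sw : ContDiffOn ℝ ∞ (fun _ : X m => w) U := contDiffOn_const
    have sφw : ContDiffOn ℝ ∞ (fun y => fderiv ℝ φ y w) U := sDφ.clm_apply sw
    have h3 := fderiv_app hU hI.sP sφw hx v
    have h4 : fderiv ℝ (fun y => fderiv ℝ φ y w) x v = D2 φ x v w := by
      rw [fderiv_app hU sDφ sw hx v]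
      simp [D2]
    have h5 : fderiv ℝ (fun y => P y (fderiv ℝ φ y w)) x = 0 := by
      rw [fderiv_congr hU (v := fun _ => w) (fun y hy => hI.left y hy w) hx]
      exact fderiv_const_apply _
    rw [h5, h4] at h3
    simp only [_root_.zero_apply] at h3
    rw [h1, h2, hleft w, eq_neg_of_add_eq_zero_left h3.symm, map_neg]
    rw [bf, nor]
    change fderiv ℝ (fderiv ℝ φ) x v w + _ = fderiv ℝ (fderiv ℝ φ) x v w - _
    rw [sub_eq_add_neg]

end PBN
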