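import Mathlib
import Pool.Agent.Lib.MP_8d4425_gt.PN.Iface
import Pool.Agent.Lib.MP_8d4425_gt.PB.Tnk

set_option autoImplicit false

/-!
# Row KER
-/

namespace PBN

open MP8d4425 MP8d4425.Tnk
open scoped ContDiff

theorem Ker.dfe {m n : ℕ} {p : ℝ} {U : Set (X m)} {φ N : X m → X n} {f : X m → ℝ}
    {e : X m → X m} {lam : X m → ℝ} (hF : Frm m n p U φ N f e lam) {y : X m} (hy : y ∈ U) :
    fderiv ℝ f y (e y) = lam y := by
  rw [hF.df y hy, real_inner_self_eq_norm_sq, hF.one y hy]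
  ring

theorem Ker.TT {m n : ℕ} {p : ℝ} {U : Set (X m)} {φ N : X m → X n} {f : X m → ℝ}
    {e : X m → X m} {lam : X m → ℝ} (hF : Frm m n p U φ N f e lam) {y : X m} (hy : y ∈ U) :
    (inner ℝ (tf φ e y) (tf φ e y) : ℝ) = 1 := by
  have := hF.one y hy
  rw [real_inner_self_eq_norm_sq, tf, this]
  norm_num

/-- the derivative of `DN(e) = αf T` -/
theorem Ker.ii {m n : ℕ} {p : ℝ} {U : Set (X m)} {φ N : X m → X n}
    {P : X m → (X n →L[ℝ] X m)} {f : X m → ℝ} {e : X m → X m} {lam : X m → ℝ}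
    (hH : Hyp m n p U φ N P f) (hF : Frm m n p U φ N f e lam) {y : X m} (hy : y ∈ U)
    (v : X m) : D2 N y v (e y) + fderiv ℝ N y (fderiv ℝ e y v) =
      ((p - 2 + m / 2) * fderiv ℝ f y v) • tf φ e y +
        ((p - 2 + m / 2) * f y) • fderiv ℝ (tf φ e) y v := by
  have hU := hH.imm.imm.op
  have sDφ := cd_fderiv hU hH.imm.imm.sφ
  have sDN := cd_fderiv hU hH.imm.sN
  have sT : ContDiffOn ℝ ∞ (tf φ e) U := sDφ.clm_apply hF.se
  have sκ : ContDiffOn ℝ ∞ (fun y => (p - 2 + m / 2) * f y) U := contDiffOn_const.mul hH.sf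
  have dκ : fderiv ℝ (fun y => (p - 2 + m / 2) * f y) y v = (p - 2 + m / 2) * fderiv ℝ f y v := by
    have h := ((cd_diff hU hH.sf hy).hasFDerivAt.const_mul (p - 2 + m / 2)).fderiv
    have h2 : fderiv ℝ (fun y => (p - 2 + m / 2) * f y) y = _ := h
    rw [h2]
    simp
  have dNe : ∀ y ∈ U, fderiv ℝ N y (e y) = ((p - 2 + m / 2) * f y) • tf φ e y :=
    fun y hy => hF.dN y hy
  have h1 := fderiv_app hU sDN hF.se hy v
  have h2 := fderiv_sm hU sκ sT hy v
  rw [fderiv_congr hU dNe hy, h2, dκ] at h1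
  exact h1.symm

theorem ker_proof (h0 : Bas0Statement) (hB : BasStatement) : KerStatement := by
  intro m n p U φ N P f e lam hp hm hH hF Z sZ s3 hZT x hx
  have hI := hH.imm
  have hU := hI.imm.op
  set α : ℝ := p - 2 + m / 2 with hα
  have hαpos : 0 < α := by
    have : (0 : ℝ) < m := by exact_mod_cast hm
    rw [hα]
    linarith [half_pos this]
  have sDφ := cd_fderiv hU hI.imm.sφ
  have sDN := cd_fderiv hU hI.sN
  have sT : ContDiffOn ℝ ∞ (tf φ e) U := sDφ.clm_apply hF.se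
  have sκ : ContDiffOn ℝ ∞ (fun y => α * f y) U := contDiffOn_const.mul hH.sf
  have dκ : ∀ y ∈ U, ∀ v, fderiv ℝ (fun y => α * f y) y v = α * fderiv ℝ f y v := by
    intro y hy v
    have h := ((cd_diff hU hH.sf hy).hasFDerivAt.const_mul α).fderiv
    have h2 : fderiv ℝ (fun y => α * f y) y = _ := h
    rw [h2]
    simp
  have dT : ∀ y ∈ U, ∀ v, fderiv ℝ (tf φ e) y v =
      D2 φ y v (e y) + fderiv ℝ φ y (fderiv ℝ e y v) := by
    intro y hy v
    exact fderiv_app hU sDφ hF.se hy v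
  obtain ⟨b1, b2, b3, b4, b5, b6, b7, b8, b9⟩ := hB m n U φ N P hI x hx
  have c1 := (h0 m n U φ P hI.imm x hx).1
  have sφZ : ContDiffOn ℝ ∞ (fun y => fderiv ℝ φ y (Z y)) U := sDφ.clm_apply sZ
  have h1 := fderiv_app hU sDN sZ hx (e x)
  rw [fderiv_congr hU s3 hx, fderiv_sm hU sκ sφZ hx (e x), dκ x hx,
    fderiv_app hU sDφ sZ hx (e x)] at h1
  have h2 := Ker.ii hH hF hx (Z x)
  rw [← hα] at h2
  have dfZ : fderiv ℝ f x (Z x) = 0 := by
    have := hZT x hx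
    rw [tf] at this
    rw [hF.df x hx, this, mul_zero]
  rw [dfZ, dT x hx (Z x)] at h2
  have h3 : fderiv ℝ N x (fderiv ℝ Z x (e x) - fderiv ℝ e x (Z x)) =
      (α * lam x) • fderiv ℝ φ x (Z x) +
        (α * f x) • fderiv ℝ φ x (fderiv ℝ Z x (e x) - fderiv ℝ e x (Z x)) := by
    rw [map_sub, map_sub]
    have h4 : fderiv ℝ (fderiv ℝ N) x (e x) (Z x) = D2 N x (Z x) (e x) := b4 (e x) (Z x)
    have h5 : fderiv ℝ (fderiv ℝ φ) x (e x) (Z x) = D2 φ x (Z x) (e x) := c1 (e x) (Z x)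
    rw [h4, h5, Ker.dfe hF hx] at h1
    have h6 : fderiv ℝ N x (fderiv ℝ Z x (e x)) =
        (α * lam x) • fderiv ℝ φ x (Z x) +
          (α * f x) • (D2 φ x (Z x) (e x) + fderiv ℝ φ x (fderiv ℝ Z x (e x)))
          - D2 N x (Z x) (e x) := by
      rw [h1]
      abel
    have h7 : fderiv ℝ N x (fderiv ℝ e x (Z x)) =
        (α * f x) • (D2 φ x (Z x) (e x) + fderiv ℝ φ x (fderiv ℝ e x (Z x)))
          - D2 N x (Z x) (e x) := by
      rw [mul_zero, zero_smul, zero_add] at h2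
      exact eq_sub_of_add_eq' h2
    rw [h6, h7]
    simp only [smul_add, smul_sub]
    abel
  have h8 := b5 (fderiv ℝ Z x (e x) - fderiv ℝ e x (Z x)) (Z x)
  rw [h3, s3 x hx, inner_add_left, inner_smul_left, inner_smul_left, inner_smul_left] at h8
  simp only [conj_trivial] at h8
  have hcm : (inner ℝ (fderiv ℝ φ x (fderiv ℝ Z x (e x) - fderiv ℝ e x (Z x)))
      (fderiv ℝ φ x (Z x)) : ℝ) = inner ℝ (fderiv ℝ φ x (Z x))
      (fderiv ℝ φ x (fderiv ℝ Z x (e x) - fderiv ℝ e x (Z x))) := real_inner_comm _ _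
  have h9 : α * lam x * inner ℝ (fderiv ℝ φ x (Z x)) (fderiv ℝ φ x (Z x)) = 0 := by
    rw [hcm] at h8
    linarith
  have h10 : (inner ℝ (fderiv ℝ φ x (Z x)) (fderiv ℝ φ x (Z x)) : ℝ) = 0 := by
    rcases mul_eq_zero.mp h9 with h | h
    · exact absurd h (mul_pos hαpos (hF.lpos x hx)).ne'
    · exact h
  have h11 : fderiv ℝ φ x (Z x) = 0 := inner_self_eq_zero.mp h10
  have h12 := hI.imm.left x hx (Z x)
  rw [h11, map_zero] at h12
  exact h12.symm

end PBN
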