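import Mathlib
import Pool.Agent.Lib.MP_8d4425_gt.PN.Iface
import Pool.Agent.Lib.MP_8d4425_gt.PB.Tnk
import Pool.Agent.Lib.MP_8d4425_gt.PN.Ker

set_option autoImplicit false

/-!
# Row BET1
-/

namespace PBN

open MP8d4425 MP8d4425.Tnk
open scoped ContDiff

theorem bet1_proof (h0 : Bas0Statement) (hB : BasStatement) (hK : KerStatement) :
    Bet1Statement := by
  intro m n p U φ N P f e lam hp hm hH hF
  have hI := hH.imm
  have hU := hI.imm.op
  set α : ℝ := p - 2 + m / 2 with hα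
  have sDφ := cd_fderiv hU hI.imm.sφ
  have sDN := cd_fderiv hU hI.sN
  have sT : ContDiffOn ℝ ∞ (tf φ e) U := sDφ.clm_apply hF.se
  have sDT := cd_fderiv hU sT
  have sκ : ContDiffOn ℝ ∞ (fun y => α * f y) U := contDiffOn_const.mul hH.sf
  have sβ : ContDiffOn ℝ ∞ (be φ e) U := sDT.clm_apply hF.se
  have dT : ∀ y ∈ U, ∀ v, fderiv ℝ (tf φ e) y v =
      D2 φ y v (e y) + fderiv ℝ φ y (fderiv ℝ e y v) := by
    intro y hy v
    exact fderiv_app hU sDφ hF.se hy v
  have dκ : ∀ y ∈ U, ∀ v, fderiv ℝ (fun y => α * f y) y v = α * fderiv ℝ f y v := by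
    intro y hy v
    have h := ((cd_diff hU hH.sf hy).hasFDerivAt.const_mul α).fderiv
    have h2 : fderiv ℝ (fun y => α * f y) y = _ := h
    rw [h2]
    simp
  have dNe : ∀ y ∈ U, fderiv ℝ N y (e y) = (α * f y) • tf φ e y := fun y hy => hF.dN y hy
  have TT : ∀ y ∈ U, (inner ℝ (tf φ e y) (tf φ e y) : ℝ) = 1 := fun y hy => Ker.TT hF hy
  have TdT : ∀ y ∈ U, ∀ v, (inner ℝ (tf φ e y) (fderiv ℝ (tf φ e) y v) : ℝ) = 0 := by
    intro y hy v
    have h1 := fderiv_inn hU sT sT hy v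
    have h2 : fderiv ℝ (fun y => (inner ℝ (tf φ e y) (tf φ e y) : ℝ)) y = 0 := by
      rw [fderiv_congr hU (v := fun _ => (1 : ℝ)) TT hy]
      exact fderiv_const_apply _
    rw [h2] at h1
    have h3 := real_inner_comm (tf φ e y) (fderiv ℝ (tf φ e) y v)
    simp only [_root_.zero_apply] at h1
    linarith
  have NT : ∀ y ∈ U, (inner ℝ (N y) (tf φ e y) : ℝ) = 0 := fun y hy => hI.perp y hy (e y)
  have NdT : ∀ y ∈ U, ∀ v, (inner ℝ (N y) (fderiv ℝ (tf φ e) y v) : ℝ) =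
      -(inner ℝ (fderiv ℝ N y v) (tf φ e y) : ℝ) := by
    intro y hy v
    have h1 := fderiv_inn hU hI.sN sT hy v
    have h2 : fderiv ℝ (fun y => (inner ℝ (N y) (tf φ e y) : ℝ)) y = 0 := by
      rw [fderiv_congr hU (v := fun _ => (0 : ℝ)) NT hy]
      exact fderiv_const_apply _
    rw [h2] at h1
    simp only [_root_.zero_apply] at h1
    linarith
  have dfe : ∀ y ∈ U, fderiv ℝ f y (e y) = lam y := fun y hy => Ker.dfe hF hy
  have dfv : ∀ y ∈ U, ∀ v, fderiv ℝ f y v = lam y * inner ℝ (tf φ e y) (fderiv ℝ φ y v) :=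
    fun y hy v => hF.df y hy v
  have ii : ∀ y ∈ U, ∀ v, D2 N y v (e y) + fderiv ℝ N y (fderiv ℝ e y v) =
      (α * fderiv ℝ f y v) • tf φ e y + (α * f y) • fderiv ℝ (tf φ e) y v :=
    fun y hy v => Ker.ii hH hF hy v
  -- step 2
  have s2 : ∀ y ∈ U, ∀ v, (inner ℝ (fderiv ℝ N y v) (be φ e y) : ℝ) =
      (α * f y) * inner ℝ (fderiv ℝ φ y v) (be φ e y) := by
    intro y hy v
    obtain ⟨b1, b2, b3, b4, b5, b6, b7, b8, b9⟩ := hB m n U φ N P hI y hy
    have c1 := (h0 m n U φ P hI.imm y hy).1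
    have hi : (inner ℝ (D2 N y (e y) v) (tf φ e y) : ℝ) +
        inner ℝ (fderiv ℝ N y v) (fderiv ℝ (tf φ e) y (e y)) =
        (α * fderiv ℝ f y (e y)) * inner ℝ (tf φ e y) (fderiv ℝ φ y v) +
        (α * f y) * (inner ℝ (fderiv ℝ (tf φ e) y (e y)) (fderiv ℝ φ y v) +
          inner ℝ (tf φ e y) (D2 φ y (e y) v)) := by
      have sv : ContDiffOn ℝ ∞ (fun _ : X m => v) U := contDiffOn_const
      have sNv : ContDiffOn ℝ ∞ (fun z => fderiv ℝ N z v) U := sDN.clm_apply sv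
      have sφv : ContDiffOn ℝ ∞ (fun z => fderiv ℝ φ z v) U := sDφ.clm_apply sv
      have e1 : ∀ z ∈ U, (inner ℝ (fderiv ℝ N z v) (tf φ e z) : ℝ) =
          (α * f z) • inner ℝ (tf φ e z) (fderiv ℝ φ z v) := by
        intro z hz
        have := (hB m n U φ N P hI z hz).2.2.2.2.1 v (e z)
        rw [tf, this, dNe z hz, inner_smul_left]
        rfl
      have e2 := fderiv_inn hU sNv sT hy (e y)
      have e3 := fderiv_sm hU sκ (sT.inner ℝ sφv) hy (e y)
      have e4 := fderiv_inn hU sT sφv hy (e y)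
      rw [fderiv_congr hU e1 hy, e3, e4, dκ y hy] at e2
      have e5 : fderiv ℝ (fun z => fderiv ℝ N z v) y (e y) = D2 N y (e y) v := by
        have := fderiv_app hU sDN sv hy (e y)
        rw [this]
        simp [D2]
      have e6 : fderiv ℝ (fun z => fderiv ℝ φ z v) y (e y) = D2 φ y (e y) v := by
        have := fderiv_app hU sDφ sv hy (e y)
        rw [this]
        simp [D2]
      rw [e5, e6] at e2
      simp only [smul_eq_mul] at e2
      exact e2.symm
    have h2 := congrArg (fun u => (inner ℝ u (tf φ e y) : ℝ)) (ii y hy v)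
    simp only [inner_add_left, inner_smul_left] at h2
    have h3 : (inner ℝ (fderiv ℝ N y (fderiv ℝ e y v)) (tf φ e y) : ℝ) =
        (α * f y) * inner ℝ (tf φ e y) (fderiv ℝ φ y (fderiv ℝ e y v)) := by
      rw [tf, b5, dNe y hy, inner_smul_left]
      rfl
    have h4 := TdT y hy v
    rw [dT y hy v, inner_add_right] at h4
    have h5 : (inner ℝ (fderiv ℝ (tf φ e) y v) (tf φ e y) : ℝ) = 0 := by
      rw [real_inner_comm]
      exact TdT y hy v
    rw [h3, h5, TT y hy] at h2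
    simp only [conj_trivial] at h2
    rw [b4 (e y) v, c1 (e y) v, dfe y hy] at hi
    have h6 := dfv y hy v
    have h9 : α * fderiv ℝ f y v = α * lam y * inner ℝ (tf φ e y) (fderiv ℝ φ y v) := by
      rw [h6]
      ring
    have h10 : (inner ℝ (tf φ e y) (fderiv ℝ φ y (fderiv ℝ e y v)) : ℝ) =
        -(inner ℝ (tf φ e y) (D2 φ y v (e y)) : ℝ) := by linarith
    rw [h10] at h2
    have h8 : (inner ℝ (fderiv ℝ φ y v) (be φ e y) : ℝ) =
        inner ℝ (fderiv ℝ (tf φ e) y (e y)) (fderiv ℝ φ y v) := real_inner_comm _ _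
    rw [h8]
    change (inner ℝ (fderiv ℝ N y v) (fderiv ℝ (tf φ e) y (e y)) : ℝ) = _
    linear_combination hi - h2 - h9
  -- the field W = P β
  have sW : ContDiffOn ℝ ∞ (fun y => P y (be φ e y)) U := hI.imm.sP.clm_apply sβ
  have hW1 : ∀ y ∈ U, fderiv ℝ N y (P y (be φ e y)) =
      ((p - 2 + m / 2) * f y) • fderiv ℝ φ y (P y (be φ e y)) := by
    intro y hy
    obtain ⟨b1, b2, b3, b4, b5, b6, b7, b8, b9⟩ := hB m n U φ N P hI y hy
    obtain ⟨c1, c2, c3, c4, c5, c6, c7, c8⟩ := h0 m n U φ P hI.imm y hy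
    have u1 : ∀ v, (inner ℝ (fderiv ℝ N y (P y (be φ e y)) -
        (α * f y) • fderiv ℝ φ y (P y (be φ e y))) (fderiv ℝ φ y v) : ℝ) = 0 := by
      intro v
      have e1 : (inner ℝ (fderiv ℝ N y (P y (be φ e y))) (fderiv ℝ φ y v) : ℝ) =
          (α * f y) * inner ℝ (fderiv ℝ φ y v) (be φ e y) := by
        rw [b5, ← s2 y hy v, real_inner_comm, ← hI.par y hy v, c7, real_inner_comm]
      rw [inner_sub_left, inner_smul_left, e1, c7, real_inner_comm (fderiv ℝ φ y v)]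
      simp
    have u2 := u1 (P y (fderiv ℝ N y (P y (be φ e y))) - (α * f y) • P y (be φ e y))
    have u3 : fderiv ℝ φ y (P y (fderiv ℝ N y (P y (be φ e y))) - (α * f y) • P y (be φ e y)) =
        fderiv ℝ N y (P y (be φ e y)) - (α * f y) • fderiv ℝ φ y (P y (be φ e y)) := by
      rw [map_sub, map_smul, hI.par y hy]
    rw [u3] at u2
    have u4 := inner_self_eq_zero.mp u2
    exact sub_eq_zero.mp u4
  have hW2 : ∀ y ∈ U, (inner ℝ (tf φ e y) (fderiv ℝ φ y (P y (be φ e y))) : ℝ) = 0 := by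
    intro y hy
    obtain ⟨c1, c2, c3, c4, c5, c6, c7, c8⟩ := h0 m n U φ P hI.imm y hy
    rw [real_inner_comm, tf, c7, real_inner_comm]
    exact TdT y hy (e y)
  have hW := hK m n p U φ N P f e lam hp hm hH hF (fun y => P y (be φ e y)) sW hW1 hW2
  intro x hx
  obtain ⟨c1, c2, c3, c4, c5, c6, c7, c8⟩ := h0 m n U φ P hI.imm x hx
  have hPβ : P x (be φ e x) = 0 := hW x hx
  refine ⟨hPβ, ?_, ?_⟩
  · have h1 : be φ e x = nor φ P x (be φ e x) := by
      rw [nor, hPβ, map_zero, sub_zero]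
    have h2 : be φ e x = D2 φ x (e x) (e x) + fderiv ℝ φ x (fderiv ℝ e x (e x)) :=
      dT x hx (e x)
    have h3 : nor φ P x (be φ e x) = nor φ P x (D2 φ x (e x) (e x)) := by
      have h4 := c5 (fderiv ℝ e x (e x))
      rw [h2]
      unfold nor at h4 ⊢
      rw [map_add, map_add, add_sub_add_comm, h4, add_zero]
    rw [bf, ← h3]
    exact h1
  · have h1 := NdT x hx (e x)
    rw [dNe x hx, inner_smul_left, TT x hx] at h1
    have h2 : (inner ℝ (N x) (be φ e x) : ℝ) = -((α * f x) * 1) := h1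
    rw [h2, mul_one]

end PBN
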