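import Mathlib
import Pool.Agent.Lib.MP_8d4425_gt.PN.Iface

set_option autoImplicit false

/-!
# Row BET2: `B(e, v)` is a multiple of `B(e, e)`
-/

namespace PBN

open MP8d4425
open scoped ContDiff

namespace Bet2

/-- The vector which represents a functional. -/
noncomputable def rv {k : ℕ} (a : X k →L[ℝ] ℝ) : X k := ∑ j, a (cv j) • cv j

theorem rv_inner {k : ℕ} (a : X k →L[ℝ] ℝ) (w : X k) : inner ℝ (rv a) w = a w := by
  have hw : w = ∑ j, w j • cv j := by
    have h := (EuclideanSpace.basisFun (Fin k) ℝ).sum_repr w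
    simp only [EuclideanSpace.basisFun_apply, EuclideanSpace.basisFun_repr] at h
    exact h.symm
  have h1 : inner ℝ (rv a) w = ∑ j, a (cv j) * w j := by
    rw [rv, sum_inner]
    refine Finset.sum_congr rfl fun j _ => ?_
    rw [inner_smul_left, cv, EuclideanSpace.inner_single_left]
    simp
  have h2 : a w = ∑ j, a (cv j) * w j := by
    conv_lhs => rw [hw]
    rw [map_sum]
    refine Finset.sum_congr rfl fun j _ => ?_
    rw [map_smul, smul_eq_mul, mul_comm]
  rw [h1, h2]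

/-- The functional `v ↦ <a, B(e,v)>`. -/
noncomputable def gg {m n : ℕ} (φ : X m → X n) (P : X m → (X n →L[ℝ] X m)) (e : X m → X m)
    (a : X n) (y : X m) : X m →L[ℝ] ℝ :=
  (innerSL ℝ a).comp ((ContinuousLinearMap.id ℝ (X n) - (fderiv ℝ φ y).comp (P y)).comp
    (fderiv ℝ (fderiv ℝ φ) y (e y)))

theorem gg_apply {m n : ℕ} (φ : X m → X n) (P : X m → (X n →L[ℝ] X m)) (e : X m → X m)
    (a : X n) (y v : X m) : gg φ P e a y v = inner ℝ a (bf φ P y (e y) v) := by
  simp [gg, bf, nor, D2, inner_sub_right]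

end Bet2

open Bet2

theorem bet2_proof (h0 : Bas0Statement) (hB : BasStatement) (hK : KerStatement) :
    Bet2Statement := by
  intro m n p U φ N P f e lam hp hm hH hF
  have hI := hH.imm
  have hI0 := hI.imm
  have hU := hI0.op
  have sDφ : ContDiffOn ℝ ∞ (fderiv ℝ φ) U := hI0.sφ.fderiv_of_isOpen hU (by simp)
  have sD2 : ContDiffOn ℝ ∞ (fderiv ℝ (fderiv ℝ φ)) U := sDφ.fderiv_of_isOpen hU (by simp)
  have TT : ∀ y ∈ U, (inner ℝ (fderiv ℝ φ y (e y)) (fderiv ℝ φ y (e y)) : ℝ) = 1 := by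
    intro y hy
    rw [real_inner_self_eq_norm_sq, hF.one y hy]
    norm_num
  -- reduction to a fixed vector `a`
  intro x hx v
  refine ext_inner_left ℝ fun a => ?_
  rw [inner_smul_right]
  -- the field Z
  set r : X m → X n := fun y => rv ((gg φ P e a y).comp (P y)) with hr
  have sr : ContDiffOn ℝ ∞ r U := by
    rw [hr]
    unfold rv
    refine ContDiffOn.sum fun j _ => ?_
    have sPj : ContDiffOn ℝ ∞ (fun y => P y (cv j)) U := hI0.sP.clm_apply contDiffOn_const
    have s1 : ContDiffOn ℝ ∞ (fun y => fderiv ℝ (fderiv ℝ φ) y (e y) (P y (cv j))) U :=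
      (sD2.clm_apply hF.se).clm_apply sPj
    have s2 : ContDiffOn ℝ ∞ (fun y => fderiv ℝ φ y (P y (fderiv ℝ (fderiv ℝ φ) y (e y)
        (P y (cv j))))) U := sDφ.clm_apply (hI0.sP.clm_apply s1)
    have s3 : ContDiffOn ℝ ∞ (fun y => (inner ℝ a (bf φ P y (e y) (P y (cv j))) : ℝ)) U :=
      contDiffOn_const.inner ℝ (s1.sub s2)
    have s4 : ContDiffOn ℝ ∞ (fun y => ((gg φ P e a y).comp (P y)) (cv j)) U := by
      refine s3.congr fun y _ => ?_
      rw [ContinuousLinearMap.comp_apply, gg_apply]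
    exact s4.smul (contDiffOn_const (c := (cv j : X n)))
  set Z : X m → X m := fun y => P y (r y) with hZ
  have sZ : ContDiffOn ℝ ∞ Z U := hI0.sP.clm_apply sr
  have Zv : ∀ y ∈ U, ∀ v, (inner ℝ (fderiv ℝ φ y (Z y)) (fderiv ℝ φ y v) : ℝ) =
      inner ℝ a (bf φ P y (e y) v) := by
    intro y hy v
    obtain ⟨-, -, -, -, -, -, b7, -⟩ := h0 m n U φ P hI0 y hy
    rw [hZ, b7, hr, rv_inner, ContinuousLinearMap.comp_apply, gg_apply, hI0.left y hy]
  -- `Z` is an eigenfield
  have ZN : ∀ y ∈ U, fderiv ℝ N y (Z y) = ((p - 2 + m / 2) * f y) • fderiv ℝ φ y (Z y) := by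
    intro y hy
    obtain ⟨-, c2, -, -, -, -, -, -⟩ := h0 m n U φ P hI0 y hy
    obtain ⟨-, -, -, -, b5, -, -, -, b9⟩ := hB m n U φ N P hI y hy
    have hPe : P y (fderiv ℝ N y (e y)) = ((p - 2 + m / 2) * f y) • e y := by
      rw [hF.dN y hy, map_smul, hI0.left y hy]
    have hbs : ∀ (c : ℝ) (u w : X m), bf φ P y u (c • w) = c • bf φ P y u w := by
      intro c u w
      simp only [bf, nor, D2, map_smul, smul_sub]
    set u := fderiv ℝ N y (Z y) - ((p - 2 + m / 2) * f y) • fderiv ℝ φ y (Z y) with hu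
    have u1 : ∀ v, (inner ℝ u (fderiv ℝ φ y v) : ℝ) = 0 := by
      intro v
      rw [hu, inner_sub_left, inner_smul_left, b5, real_inner_comm, ← hI.par y hy v, Zv y hy,
        Zv y hy, b9, hPe, hbs, c2 v (e y), inner_smul_right]
      simp
    have u2 : u = fderiv ℝ φ y (P y (fderiv ℝ N y (Z y)) - ((p - 2 + m / 2) * f y) • Z y) := by
      rw [map_sub, map_smul, hI.par y hy]
    have u3 : (inner ℝ u u : ℝ) = 0 := by
      conv_lhs => rw [u2]
      rw [← u2]
      have := u1 (P y (fderiv ℝ N y (Z y)) - ((p - 2 + m / 2) * f y) • Z y)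
      rw [← u2] at this
      exact this
    exact sub_eq_zero.mp (inner_self_eq_zero.mp u3)
  -- the field W
  set c : X m → ℝ := fun y => inner ℝ (fderiv ℝ φ y (e y)) (fderiv ℝ φ y (Z y)) with hc
  have sc : ContDiffOn ℝ ∞ c U := (sDφ.clm_apply hF.se).inner ℝ (sDφ.clm_apply sZ)
  have hW := hK m n p U φ N P f e lam hp hm hH hF (fun y => Z y - c y • e y)
    (sZ.sub (sc.smul hF.se))
    (by
      intro y hy
      rw [map_sub, map_smul, map_sub, map_smul, ZN y hy, hF.dN y hy, smul_sub, smul_comm])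
    (by
      intro y hy
      rw [tf, map_sub, map_smul, inner_sub_right, inner_smul_right, TT y hy, mul_one]
      exact sub_self _)
  have hW' : Z x = c x • e x := sub_eq_zero.mp (hW x hx)
  have hv : ∀ v, (inner ℝ a (bf φ P x (e x) v) : ℝ) =
      c x * inner ℝ (fderiv ℝ φ x (e x)) (fderiv ℝ φ x v) := by
    intro v
    rw [← Zv x hx v, hW', map_smul, inner_smul_left]
    rfl
  rw [hv v, hv (e x), TT x hx, tf, mul_one, mul_comm]

end PBN
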