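import Mathlib
import Pool.Agent.Lib.MP_8d4425_gt.PN.Iface
import Pool.Agent.Lib.MP_8d4425_gt.PB.Cur

set_option autoImplicit false

/-!
# Row CUR: an integral curve (the general statement of PB)
-/

namespace PBN

theorem cur_proof : MP8d4425.CurStatement := MP8d4425.cur_proof

end PBN
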