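import Pool.Agent.Lib.MP_8d4425_gt.PN.Iface

set_option autoImplicit false

/-!
# Row DB: `B' = S β - <β,B> T - S B`
-/

namespace PBN

open MP8d4425
open scoped ContDiff

section Tools

variable {m n : ℕ} {F : Type} [NormedAddCommGroup F] [NormedSpace ℝ F] {U : Set (X m)}

theorem db_d {u : X m → F} (hU : IsOpen U) (hu : ContDiffOn ℝ ∞ u U) {x : X m} (hx : x ∈ U) :
    HasFDerivAt u (fderiv ℝ u x) x :=
  ((hu.contDiffAt (hU.mem_nhds hx)).differentiableAt (by simp)).hasFDerivAt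

theorem db_s {u : X m → F} (hU : IsOpen U) (hu : ContDiffOn ℝ ∞ u U) :
    ContDiffOn ℝ ∞ (fderiv ℝ u) U := hu.fderiv_of_isOpen hU (by simp)

theorem db_sym {u : X m → F} (hU : IsOpen U) (hu : ContDiffOn ℝ ∞ u U) {x : X m} (hx : x ∈ U)
    (v w : X m) : fderiv ℝ (fderiv ℝ u) x v w = fderiv ℝ (fderiv ℝ u) x w v :=
  ((hu.contDiffAt (hU.mem_nhds hx)).isSymmSndFDerivAt (by
    rw [minSmoothness_of_isRCLikeNormedField]
    exact (show ((2 : ℕ∞) : WithTop ℕ∞) ≤ ((⊤ : ℕ∞) : WithTop ℕ∞) from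
      WithTop.coe_le_coe.2 le_top))).eq v w

end Tools

section Data

variable {m n : ℕ} {p : ℝ} {U : Set (X m)} {φ N : X m → X n}
  {P : X m → (X n →L[ℝ] X m)} {f : X m → ℝ} {e : X m → X m} {lam : X m → ℝ}
  {k : ℕ} {δ : ℝ} {c : ℝ → X m} {w : Fin k → X n}

theorem db_sT (h : Crv m n p U φ N P f e lam k δ c w) : ContDiffOn ℝ ∞ (tf φ e) U :=
  (db_s h.hyp.imm.imm.op h.hyp.imm.imm.sφ).clm_apply h.frm.se

theorem db_sβ (h : Crv m n p U φ N P f e lam k δ c w) : ContDiffOn ℝ ∞ (be φ e) U :=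
  (db_s h.hyp.imm.imm.op (db_sT h)).clm_apply h.frm.se

/-- `β` is normal. -/
theorem db_normal (h0 : Bas0Statement) (h : Crv m n p U φ N P f e lam k δ c w) {x : X m}
    (hx : x ∈ U) (v : X m) : inner ℝ (be φ e x) (fderiv ℝ φ x v) = (0 : ℝ) := by
  obtain ⟨-, -, b3, -⟩ := h0 m n U φ P h.hyp.imm.imm x hx
  rw [(h.bet1 x hx).2.1]
  exact b3 _ v

/-- `<Dβ(v),Dφ u> = - <β,B(v,u)>`. -/
theorem db_dbe (h0 : Bas0Statement) (h : Crv m n p U φ N P f e lam k δ c w) {x : X m}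
    (hx : x ∈ U) (v u : X m) : inner ℝ (fderiv ℝ (be φ e) x v) (fderiv ℝ φ x u) =
      -(inner ℝ (be φ e x) (bf φ P x v u) : ℝ) := by
  have hU := h.hyp.imm.imm.op
  have hφ := h.hyp.imm.imm.sφ
  have d1 := db_d hU (db_sβ h) hx
  have d2 : HasFDerivAt (fun y => fderiv ℝ φ y u) _ x :=
    (db_d hU (db_s hU hφ) hx).clm_apply (hasFDerivAt_const u x)
  have d3 : HasFDerivAt (fun y => inner ℝ (be φ e y) (fderiv ℝ φ y u)) _ x := d1.inner ℝ d2
  have heq : (fun y => (inner ℝ (be φ e y) (fderiv ℝ φ y u) : ℝ)) =ᶠ[nhds x] fun _ => (0 : ℝ) := by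
    filter_upwards [hU.mem_nhds hx] with y hy using db_normal h0 h hy u
  have d4 := ((hasFDerivAt_const (0 : ℝ) x).congr_of_eventuallyEq heq).unique d3
  have d5 := congrArg (fun L => L v) d4
  simp only [ContinuousLinearMap.comp_apply, ContinuousLinearMap.prod_apply,
    fderivInnerCLM_apply, ContinuousLinearMap.flip_apply,
    ContinuousLinearMap.comp_zero, zero_apply, zero_add] at d5
  have d6 : inner ℝ (be φ e x) (bf φ P x v u) =
      (inner ℝ (be φ e x) (fderiv ℝ (fderiv ℝ φ) x v u) : ℝ) := by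
    unfold bf nor
    rw [inner_sub_right, db_normal h0 h hx, sub_zero]
    rfl
  rw [d6]
  linarith

end Data

theorem db_proof (h0 : Bas0Statement) (hP : PrpStatement) (hV : VdtStatement) : DbStatement := by
  intro m n p U φ N P f e lam k δ c w h s hs i j
  have hI := h.hyp.imm.imm
  have hU := hI.op
  obtain ⟨hx, hc⟩ := h.cur s hs
  obtain ⟨-, -, pw, pT, -, pβ, -⟩ := hP m n p U φ N P f e lam k δ c w h s hs
  have hv := (hV m n p U φ N P f e lam k δ c w h s hs i).2.2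
  -- the field `Q w_j`
  obtain ⟨G, hG⟩ : ∃ G : X m → X n, G = fun y => fderiv ℝ φ y (P y (w j)) := ⟨_, rfl⟩
  have sG : ContDiffOn ℝ ∞ G U := by
    rw [hG]
    exact (db_s hU hI.sφ).clm_apply (hI.sP.clm_apply contDiffOn_const)
  have hB : ∀ t ∈ Set.Ioo (-δ) δ, ∀ l, mB φ P c w t l j = fderiv ℝ G (c t) (P (c t) (w l)) := by
    intro t ht l
    have hy := (h.cur t ht).1
    obtain ⟨-, -, pw', -⟩ := hP m n p U φ N P f e lam k δ c w h t ht
    obtain ⟨-, -, -, -, -, -, -, b8⟩ := h0 m n U φ P hI (c t) hy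
    have h1 := b8 (P (c t) (w l)) (P (c t) (w j))
    rw [pw' j] at h1
    unfold mB
    rw [← h1, hG]
  have dG : HasDerivAt (fun t => fderiv ℝ G (c t)) (fderiv ℝ (fderiv ℝ G) (c s) (e (c s))) s :=
    (db_d hU (db_s hU sG) hx).comp_hasDerivAt s hc
  have h1 : HasDerivAt (fun t => fderiv ℝ G (c t) (P (c t) (w i))) _ s := dG.clm_apply hv
  have heq : (fun t => mB φ P c w t i j) =ᶠ[nhds s]
      fun t => fderiv ℝ G (c t) (P (c t) (w i)) := by
    filter_upwards [isOpen_Ioo.mem_nhds hs] with t ht using hB t ht i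
  refine (h1.congr_of_eventuallyEq heq).congr_deriv ?_
  -- the derivative of `DG(e)`
  have g1 : HasFDerivAt (fun y => fderiv ℝ G y (e y)) _ (c s) :=
    (db_d hU (db_s hU sG) hx).clm_apply (db_d hU h.frm.se hx)
  have dT := db_d hU (db_sT h) hx
  have dβ := db_d hU (db_sβ h) hx
  have g2 : HasFDerivAt (fun y => (inner ℝ (tf φ e y) (w j) : ℝ) • be φ e y +
      (inner ℝ (be φ e y) (w j) : ℝ) • tf φ e y) _ (c s) :=
    ((dT.inner ℝ (hasFDerivAt_const (w j) (c s))).smul dβ).add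
      ((dβ.inner ℝ (hasFDerivAt_const (w j) (c s))).smul dT)
  have g3 : (fun y => fderiv ℝ G y (e y)) =ᶠ[nhds (c s)]
      (fun y => (inner ℝ (tf φ e y) (w j) : ℝ) • be φ e y +
      (inner ℝ (be φ e y) (w j) : ℝ) • tf φ e y) := by
    filter_upwards [hU.mem_nhds hx] with y hy
    rw [hG]
    exact h.prj y hy (w j)
  have g4 := (g2.congr_of_eventuallyEq g3).unique g1
  have g5 := congrArg (fun L => L (P (c s) (w i))) g4
  simp only [add_apply, ContinuousLinearMap.smulRight_apply,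
    ContinuousLinearMap.comp_apply, ContinuousLinearMap.prod_apply, fderivInnerCLM_apply,
    ContinuousLinearMap.flip_apply, zero_apply, inner_zero_right, zero_add,
    pT j, pβ j, zero_smul] at g5
  have e1 : (inner ℝ (fderiv ℝ (be φ e) (c s) (P (c s) (w i))) (w j) : ℝ) =
      -(inner ℝ (be φ e (c s)) (mB φ P c w s i j) : ℝ) := by
    have h2 := db_dbe h0 h hx (P (c s) (w i)) (P (c s) (w j))
    rw [pw j] at h2
    exact h2
  have e2 : (inner ℝ (fderiv ℝ (tf φ e) (c s) (P (c s) (w i))) (w j) : ℝ) =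
      mS φ P e c w s i j := rfl
  rw [e1, e2] at g5
  rw [db_sym hU sG hx (e (c s)) (P (c s) (w i)), map_sub, map_sum]
  simp only [map_smul]
  have e3 : ∀ l, fderiv ℝ G (c s) (P (c s) (w l)) = mB φ P c w s l j := fun l => (hB s hs l).symm
  simp only [e3]
  have e4 : ∀ a b d : X n, a + (b - d) = (b + a) - d := fun a b d => by abel
  rw [e4, ← g5, neg_smul, ← sub_eq_add_neg]

end PBN
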