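import Pool.Agent.Lib.MP_8d4425_gt.PN.Iface

set_option autoImplicit false

/-!
# Row DIAG of the board pbn_modules: simultaneous diagonalisation of the matrix system
-/

namespace PBN

open MP8d4425

namespace Dg

open Module.End in
/-- A joint orthonormal eigenbasis of a commuting family of symmetric matrices. -/
theorem joint {k : ℕ} {ι : Type} (A : ι → Matrix (Fin k) (Fin k) ℝ)
    (hA : ∀ a i j, A a i j = A a j i) (hc : ∀ a b, A a * A b = A b * A a) :
    ∃ O : Matrix (Fin k) (Fin k) ℝ, O.transpose * O = 1 ∧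
      ∀ a l m, l ≠ m → (O.transpose * A a * O) l m = 0 := by
  classical
  have hAs : ∀ a, (Matrix.toEuclideanLin (A a)).IsSymmetric := by
    intro a
    rw [Matrix.isSymmetric_toEuclideanLin_iff]
    ext i j
    simp [Matrix.conjTranspose_apply, hA a i j]
  have hcc : ∀ a b, Commute (Matrix.toEuclideanLin (A a)) (Matrix.toEuclideanLin (A b)) := by
    intro a b
    have h : ∀ (B C : Matrix (Fin k) (Fin k) ℝ) (v : EuclideanSpace ℝ (Fin k)),
        Matrix.toEuclideanLin B (Matrix.toEuclideanLin C v) =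
          Matrix.toEuclideanLin (B * C) v := by
      intro B C v
      simp [Matrix.toLpLin_apply, Matrix.mulVec_mulVec]
    refine LinearMap.ext fun v => ?_
    change Matrix.toEuclideanLin (A a) (Matrix.toEuclideanLin (A b) v) =
      Matrix.toEuclideanLin (A b) (Matrix.toEuclideanLin (A a) v)
    rw [h, h, hc]
  set V : (ι → ℝ) → Submodule ℝ (EuclideanSpace ℝ (Fin k)) := fun χ =>
    ⨅ a, eigenspace (Matrix.toEuclideanLin (A a)) (χ a) with hVdef
  have hV : DirectSum.IsInternal V :=
    LinearMap.IsSymmetric.directSum_isInternal_of_pairwise_commute hAs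
      (fun a b _ => hcc a b)
  have hO : OrthogonalFamily ℝ (fun i => V i) fun i => (V i).subtypeₗᵢ :=
    LinearMap.IsSymmetric.orthogonalFamily_iInf_eigenspaces hAs
  have hV' : DirectSum.IsInternal (fun i : {i // V i ≠ ⊥} => V i) :=
    DirectSum.isInternal_ne_bot_iff.2 hV
  have hfin : Set.Finite {i | V i ≠ ⊥} :=
    WellFoundedGT.finite_ne_bot_of_iSupIndep hV.submodule_iSupIndep
  have : Fintype {i // V i ≠ ⊥} := hfin.fintype
  have hO' : OrthogonalFamily ℝ (fun i : {i // V i ≠ ⊥} => V i) fun i => (V i).subtypeₗᵢ :=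
    hO.comp Subtype.val_injective
  have hn : Module.finrank ℝ (EuclideanSpace ℝ (Fin k)) = k := by simp
  set e : OrthonormalBasis (Fin k) ℝ (EuclideanSpace ℝ (Fin k)) :=
    hV'.subordinateOrthonormalBasis hn hO' with he
  have hmem : ∀ l, ∃ i : ι → ℝ, e l ∈ V i := fun l =>
    ⟨_, hV'.subordinateOrthonormalBasis_subordinate hn l hO'⟩
  choose c hcm using hmem
  have hAe : ∀ a l, Matrix.toEuclideanLin (A a) (e l) = (c l a) • e l := fun a l =>
    mem_eigenspace_iff.1 ((Submodule.mem_iInf _).1 (hcm l) a)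
  have hon : ∀ l m, ∑ i, e l i * e m i = if l = m then (1 : ℝ) else 0 := by
    intro l m
    have h := orthonormal_iff_ite.1 e.orthonormal l m
    rw [← h]
    simp [PiLp.inner_apply, mul_comm]
  refine ⟨Matrix.of fun i l => e l i, ?_, ?_⟩
  · ext l m
    rw [Matrix.mul_apply, Matrix.one_apply]
    simpa [Matrix.transpose_apply] using hon l m
  · intro a l m hlm
    rw [Matrix.mul_assoc, Matrix.mul_apply]
    have h1 : ∀ i, (A a * Matrix.of fun i l => e l i) i m = c m a * e m i := by
      intro i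
      have h2 := congrArg (fun v => v i) (hAe a m)
      simp only [PiLp.smul_apply, smul_eq_mul] at h2
      rw [← h2]
      simp [Matrix.toLpLin_apply, Matrix.mul_apply, Matrix.mulVec, dotProduct]
    simp only [h1, Matrix.transpose_apply, Matrix.of_apply]
    have h3 := hon l m
    rw [if_neg hlm] at h3
    calc ∑ i, e l i * (c m a * e m i) = c m a * ∑ i, e l i * e m i := by
          rw [Finset.mul_sum]
          exact Finset.sum_congr rfl fun i _ => by ring
      _ = 0 := by rw [h3, mul_zero]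

/-- The real matrix of a vector valued matrix. -/
noncomputable def rm {k n : ℕ} (C : Fin k → Fin k → X n) (u : X n) : Matrix (Fin k) (Fin k) ℝ :=
  Matrix.of fun i j => (inner ℝ (C i j) u : ℝ)

/-- The linear vector field of the uniqueness argument. -/
noncomputable def vf {k n : ℕ} (M : ℝ → Fin k → Fin k → X n) (T : ℝ → X n) (s : ℝ)
    (Y : Fin k → Fin k → X n) : Fin k → Fin k → X n := fun i j =>
  -∑ p, (inner ℝ (Y i p) (T s) : ℝ) • M s p j

theorem vf_lip {k n : ℕ} (M : ℝ → Fin k → Fin k → X n) (T : ℝ → X n) (s : ℝ) (KM KT : NNReal)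
    (hM : ∀ i j, ‖M s i j‖ ≤ KM) (hT : ‖T s‖ ≤ KT) :
    LipschitzWith (k * (KT * KM)) (vf M T s) := by
  refine LipschitzWith.of_dist_le_mul fun Y Z => ?_
  rw [dist_eq_norm, dist_eq_norm]
  refine (pi_norm_le_iff_of_nonneg (by positivity)).2 fun i => ?_
  refine (pi_norm_le_iff_of_nonneg (by positivity)).2 fun j => ?_
  have h1 : (vf M T s Y - vf M T s Z) i j =
      -∑ p, (inner ℝ ((Y - Z) i p) (T s) : ℝ) • M s p j := by
    simp only [Pi.sub_apply, vf, inner_sub_left, sub_smul, Finset.sum_sub_distrib]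
    abel
  rw [h1, norm_neg]
  refine (norm_sum_le _ _).trans ?_
  have h2 : ∀ p ∈ Finset.univ, ‖(inner ℝ ((Y - Z) i p) (T s) : ℝ) • M s p j‖ ≤
      (KT * KM) * ‖Y - Z‖ := by
    intro p _
    rw [norm_smul]
    have h3 : ‖(inner ℝ ((Y - Z) i p) (T s) : ℝ)‖ ≤ ‖Y - Z‖ * KT := by
      refine (norm_inner_le_norm _ _).trans ?_
      refine mul_le_mul ?_ hT (norm_nonneg _) (norm_nonneg _)
      exact (norm_le_pi_norm ((Y - Z) i) p).trans (norm_le_pi_norm (Y - Z) i)
    calc ‖(inner ℝ ((Y - Z) i p) (T s) : ℝ)‖ * ‖M s p j‖ ≤ (‖Y - Z‖ * KT) * KM :=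
          mul_le_mul h3 (hM p j) (norm_nonneg _) (by positivity)
      _ = (KT * KM) * ‖Y - Z‖ := by ring
  refine (Finset.sum_le_sum h2).trans ?_
  simp only [Finset.sum_const, Finset.card_univ, Fintype.card_fin, nsmul_eq_mul]
  push_cast
  exact le_of_eq (by ring)

end Dg

namespace Dg

theorem rm_apply {k n : ℕ} (C : Fin k → Fin k → X n) (u : X n) (i j : Fin k) :
    rm C u i j = (inner ℝ (C i j) u : ℝ) := rfl

/-- The algebra at one point of the interval. -/
theorem alg {k : ℕ} {A : Type} (Mu Cu : A → Matrix (Fin k) (Fin k) ℝ)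
    (Xm : Matrix (Fin k) (Fin k) ℝ) (t : A)
    (hM : ∀ u, (Mu u).transpose = Mu u) (hC : ∀ u, (Cu u).transpose = Cu u)
    (hX : Xm.transpose = Xm) (hXM : ∀ u, Cu u = Xm * Mu u)
    (hS : ∀ u, (Mu t * Mu u).transpose = Mu t * Mu u) (u : A) :
    Cu t * Cu u = Cu u * Cu t := by
  have c2 : ∀ u, Commute Xm (Mu u) := by
    intro u
    have h1 : (Xm * Mu u).transpose = Xm * Mu u := by rw [← hXM, hC]
    rw [Matrix.transpose_mul, hM, hX] at h1
    exact h1.symm
  have c3 : ∀ u, Commute (Mu t) (Mu u) := by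
    intro u
    have h1 := hS u
    rw [Matrix.transpose_mul, hM, hM] at h1
    exact h1.symm
  rw [hXM t, hXM u]
  exact Commute.mul_left (Commute.mul_right (Commute.refl Xm) (c2 u))
    (Commute.mul_right (c2 t).symm (c3 u))

end Dg

open Dg in
theorem diag_proof : DiagStatement := by
  intro k n δ M T hδ hT hsym hM
  classical
  set δ' : ℝ := δ / 2 with hδ'
  have hδ'0 : 0 < δ' := by positivity
  have hsub : Set.Icc (-δ') δ' ⊆ Set.Ioo (-δ) δ := fun s hs =>
    ⟨by linarith [hs.1], by linarith [hs.2]⟩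
  have hJ : Set.Ioo (-δ') δ' ⊆ Set.Ioo (-δ) δ := Set.Ioo_subset_Icc_self.trans hsub
  have h0 : (0 : ℝ) ∈ Set.Ioo (-δ) δ := ⟨by linarith, hδ⟩
  have h0' : (0 : ℝ) ∈ Set.Ioo (-δ') δ' := ⟨by linarith, hδ'0⟩
  -- bounds
  obtain ⟨KT0, hKT0⟩ := isCompact_Icc.exists_bound_of_continuousOn (hT.mono hsub)
  have hMc : ContinuousOn M (Set.Ioo (-δ) δ) := by
    refine continuousOn_pi.2 fun i => continuousOn_pi.2 fun j => ?_
    exact fun s hs => (hM s hs i j).continuousAt.continuousWithinAt
  obtain ⟨KM0, hKM0⟩ := isCompact_Icc.exists_bound_of_continuousOn (hMc.mono hsub)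
  -- the primitive of `T`
  set σ : ℝ → X n := fun s => ∫ t in (0 : ℝ)..s, T t with hσdef
  have hσ0 : σ 0 = 0 := by simp [hσdef]
  have hσ : ∀ s ∈ Set.Ioo (-δ) δ, HasDerivAt σ (T s) s := by
    intro s hs
    refine intervalIntegral.integral_hasDerivAt_right ?_ ?_ ?_
    · exact (hT.mono (Set.ordConnected_Ioo.uIcc_subset h0 hs)).intervalIntegrable
    · exact ContinuousOn.stronglyMeasurableAtFilter isOpen_Ioo hT s hs
    · exact hT.continuousAt (isOpen_Ioo.mem_nhds hs)
  have hσi : ∀ (w : X n), ∀ s ∈ Set.Ioo (-δ) δ,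
      HasDerivAt (fun s => (inner ℝ w (σ s) : ℝ)) (inner ℝ w (T s)) s := by
    intro w s hs
    exact (innerSL ℝ w).hasFDerivAt.comp_hasDerivAt s (hσ s hs)
  set C : Fin k → Fin k → X n := M 0 with hCdef
  set Y : ℝ → Fin k → Fin k → X n := fun s i j =>
    M s i j + ∑ l, (inner ℝ (C i l) (σ s) : ℝ) • M s l j - C i j with hY
  have hYd : ∀ s ∈ Set.Ioo (-δ) δ, HasDerivAt Y (vf M T s (Y s)) s := by
    intro s hs
    refine hasDerivAt_pi.2 fun i => hasDerivAt_pi.2 fun j => ?_
    have h1 : HasDerivAt (fun s => ∑ l, (inner ℝ (C i l) (σ s) : ℝ) • M s l j)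
        (∑ l, ((inner ℝ (C i l) (σ s) : ℝ) • (-∑ p, (inner ℝ (M s l p) (T s) : ℝ) • M s p j) +
          (inner ℝ (C i l) (T s) : ℝ) • M s l j)) s := by
      refine HasDerivAt.fun_sum fun l _ => ?_
      exact (hσi (C i l) s hs).smul (hM s hs l j)
    have h2 := ((hM s hs i j).add h1).sub_const (C i j)
    have h3 : (-∑ l, (inner ℝ (M s i l) (T s) : ℝ) • M s l j) +
        (∑ l, ((inner ℝ (C i l) (σ s) : ℝ) • (-∑ p, (inner ℝ (M s l p) (T s) : ℝ) • M s p j) +
          (inner ℝ (C i l) (T s) : ℝ) • M s l j)) = vf M T s (Y s) i j := by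
      simp only [vf, hY, inner_sub_left, inner_add_left, sum_inner, real_inner_smul_left, sub_smul,
        add_smul, Finset.sum_smul, Finset.sum_sub_distrib, Finset.sum_add_distrib, smul_neg,
        Finset.smul_sum, smul_smul, Finset.sum_neg_distrib]
      rw [Finset.sum_comm]
      abel
    rw [h3] at h2
    exact h2
  have hY0 : ∀ s ∈ Set.Ioo (-δ') δ', Y s = 0 := by
    have huniq : Set.EqOn Y (fun _ => 0) (Set.Ioo (-δ') δ') := by
      refine ODE_solution_unique_of_mem_Ioo (v := vf M T) (s := fun _ => Set.univ)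
        (K := k * (KT0.toNNReal * KM0.toNNReal)) ?_ h0' ?_ ?_ ?_
      · intro t ht
        have ht' := Set.Ioo_subset_Icc_self ht
        refine (vf_lip M T t _ _ ?_ ?_).lipschitzOnWith
        · intro i j
          refine le_trans ?_ (Real.le_coe_toNNReal _)
          exact ((norm_le_pi_norm (M t i) j).trans (norm_le_pi_norm (M t) i)).trans (hKM0 t ht')
        · exact (hKT0 t ht').trans (Real.le_coe_toNNReal _)
      · intro t ht
        exact ⟨hYd t (hJ ht), Set.mem_univ _⟩
      · intro t ht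
        refine ⟨?_, Set.mem_univ _⟩
        have h1 : vf M T t (0 : Fin k → Fin k → X n) = 0 := by
          funext i j
          simp [vf]
        rw [h1]
        exact hasDerivAt_const _ _
      · funext i j
        simp [hY, hσ0, hCdef]
    exact fun s hs => huniq hs
  have hCs : ∀ i j, C i j = C j i := hsym 0 h0
  have hCt : ∀ u, (rm C u).transpose = rm C u := by
    intro u
    ext i j
    rw [Matrix.transpose_apply, rm_apply, rm_apply, hCs]
  have hMt : ∀ s ∈ Set.Ioo (-δ) δ, ∀ u, (rm (M s) u).transpose = rm (M s) u := by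
    intro s hs u
    ext i j
    rw [Matrix.transpose_apply, rm_apply, rm_apply, hsym s hs]
  have hXM : ∀ s ∈ Set.Ioo (-δ') δ', ∀ u, rm C u = (1 + rm C (σ s)) * rm (M s) u := by
    intro s hs u
    have h1 := hY0 s hs
    ext i j
    have h2 : M s i j + ∑ l, (inner ℝ (C i l) (σ s) : ℝ) • M s l j - C i j = 0 :=
      congrFun (congrFun h1 i) j
    have h3 : C i j = M s i j + ∑ l, (inner ℝ (C i l) (σ s) : ℝ) • M s l j :=
      (sub_eq_zero.1 h2).symm
    rw [rm_apply, h3, inner_add_left, sum_inner, Matrix.add_mul, Matrix.one_mul, Matrix.add_apply,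
      Matrix.mul_apply]
    simp only [real_inner_smul_left, rm_apply]
  have hcomm : ∀ s ∈ Set.Ioo (-δ') δ', ∀ u, rm C (T s) * rm C u = rm C u * rm C (T s) := by
    intro s hs u
    refine alg (rm (M s)) (rm C) (1 + rm C (σ s)) (T s) (hMt s (hJ hs)) hCt ?_ (hXM s hs) ?_ u
    · rw [Matrix.transpose_add, Matrix.transpose_one, hCt]
    · intro v
      ext i j
      rw [Matrix.transpose_apply, Matrix.mul_apply, Matrix.mul_apply]
      have h1 := hM s (hJ hs) i j
      have h2 := hM s (hJ hs) j i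
      have h3 : (fun s => M s i j) =ᶠ[nhds s] fun s => M s j i := by
        filter_upwards [isOpen_Ioo.mem_nhds (hJ hs)] with t ht
        exact hsym t ht i j
      have h4 := h1.unique (h2.congr_of_eventuallyEq h3)
      have h5 := congrArg (fun w => (inner ℝ w v : ℝ)) (neg_injective h4)
      simp only [sum_inner, real_inner_smul_left] at h5
      simp only [rm_apply]
      exact h5.symm
  obtain ⟨O, hO, hOd⟩ := joint (fun s : {s : ℝ // s ∈ Set.Ioo (-δ') δ'} => rm C (T s.1))
    (fun s i j => by rw [rm_apply, rm_apply, hCs]) (fun s t => hcomm s.1 s.2 (T t.1))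
  have hO' : O * O.transpose = 1 := _root_.mul_eq_one_comm.1 hO
  set c : Fin k → Fin k → X n := fun i j => ∑ p, ∑ q, (O p i * O q j) • C p q with hc
  have hrm : ∀ u, rm c u = O.transpose * rm C u * O := by
    intro u
    ext i j
    rw [rm_apply, Matrix.mul_apply]
    simp only [hc, sum_inner, real_inner_smul_left, Matrix.mul_apply, Matrix.transpose_apply,
      rm_apply, Finset.sum_mul]
    rw [Finset.sum_comm]
    refine Finset.sum_congr rfl fun q _ => Finset.sum_congr rfl fun p _ => by ring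
  have hct : ∀ u, (rm c u).transpose = rm c u := by
    intro u
    rw [hrm, Matrix.transpose_mul, Matrix.transpose_mul, Matrix.transpose_transpose, hCt,
      Matrix.mul_assoc]
  have hoff : ∀ i j, i ≠ j → ∀ s ∈ Set.Ioo (-δ') δ', (inner ℝ (c i j) (σ s) : ℝ) = 0 := by
    intro i j hij s hs
    have h1 : ∀ t ∈ Set.Ioo (-δ') δ', HasDerivAt (fun s => (inner ℝ (c i j) (σ s) : ℝ)) 0 t := by
      intro t ht
      have h2 := hσi (c i j) t (hJ ht)
      have h3 : (inner ℝ (c i j) (T t) : ℝ) = 0 := by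
        rw [← rm_apply, hrm]
        exact hOd ⟨t, ht⟩ i j hij
      rw [h3] at h2
      exact h2
    have h4 := isOpen_Ioo.is_const_of_deriv_eq_zero isPreconnected_Ioo
      (fun t ht => (h1 t ht).differentiableAt.differentiableWithinAt)
      (fun t ht => (h1 t ht).deriv) hs h0'
    rw [h4, hσ0, inner_zero_right]
  -- nonvanishing
  have hev : ∀ᶠ s in nhds (0 : ℝ), ∀ i, 1 + (inner ℝ (c i i) (σ s) : ℝ) ≠ 0 := by
    refine Filter.eventually_all.2 fun i => ?_
    have h1 : ContinuousAt (fun s => 1 + (inner ℝ (c i i) (σ s) : ℝ)) 0 :=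
      continuousAt_const.add (hσi (c i i) 0 h0).continuousAt
    refine h1.eventually_ne ?_
    rw [hσ0, inner_zero_right]
    norm_num
  obtain ⟨ε1, hε1, hball⟩ := Metric.eventually_nhds_iff_ball.1 hev
  have hε : ∀ s ∈ Set.Ioo (-(min δ' ε1)) (min δ' ε1), s ∈ Set.Ioo (-δ') δ' ∧
      ∀ i, 1 + (inner ℝ (c i i) (σ s) : ℝ) ≠ 0 := by
    intro s hs
    have h1 : min δ' ε1 ≤ δ' := min_le_left _ _
    have h2 : min δ' ε1 ≤ ε1 := min_le_right _ _
    refine ⟨⟨by linarith [hs.1], by linarith [hs.2]⟩, hball s ?_⟩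
    rw [Real.ball_eq_Ioo]
    exact ⟨by linarith [hs.1], by linarith [hs.2]⟩
  refine ⟨min δ' ε1, lt_min hδ'0 hε1, (min_le_left _ _).trans (by linarith), c,
    fun i s => (1 + (inner ℝ (c i i) (σ s) : ℝ))⁻¹, ?_, ?_, ?_⟩
  · intro i
    simp [hσ0]
  · intro s hs i
    obtain ⟨hs1, hs2⟩ := hε s hs
    have h1 : HasDerivAt (fun s => 1 + (inner ℝ (c i i) (σ s) : ℝ)) (inner ℝ (c i i) (T s)) s :=
      (hσi (c i i) s (hJ hs1)).const_add 1
    have h2 := h1.fun_inv (hs2 i)
    have h3 : -(inner ℝ (c i i) (T s) : ℝ) / (1 + (inner ℝ (c i i) (σ s) : ℝ)) ^ 2 =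
        -((1 + (inner ℝ (c i i) (σ s) : ℝ))⁻¹ ^ 2 * inner ℝ (c i i) (T s)) := by
      rw [inv_pow, div_eq_mul_inv]
      ring
    rw [h3] at h2
    exact h2
  · intro s hs
    obtain ⟨hs1, hs2⟩ := hε s hs
    have hD : O.transpose * (1 + rm C (σ s)) * O =
        Matrix.diagonal fun i => 1 + (inner ℝ (c i i) (σ s) : ℝ) := by
      rw [Matrix.mul_add, Matrix.mul_one, Matrix.add_mul, hO, ← hrm]
      ext i j
      by_cases hij : i = j
      · subst hij
        simp [rm_apply]
      · rw [Matrix.add_apply, Matrix.one_apply_ne hij, Matrix.diagonal_apply_ne _ hij, rm_apply,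
          hoff i j hij s hs1, zero_add]
    have hN : ∀ u i j, (O.transpose * rm (M s) u * O) i j =
        (1 + (inner ℝ (c i i) (σ s) : ℝ))⁻¹ * (inner ℝ (c i j) u : ℝ) := by
      intro u i j
      have h1 : rm c u = (Matrix.diagonal fun i => 1 + (inner ℝ (c i i) (σ s) : ℝ)) *
          (O.transpose * rm (M s) u * O) := by
        rw [hrm, hXM s hs1 u, ← hD]
        calc O.transpose * ((1 + rm C (σ s)) * rm (M s) u) * O
            = O.transpose * (1 + rm C (σ s)) * 1 * rm (M s) u * O := by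
              rw [Matrix.mul_one]
              simp only [Matrix.mul_assoc]
          _ = O.transpose * (1 + rm C (σ s)) * O * (O.transpose * rm (M s) u * O) := by
              rw [← hO']
              simp only [Matrix.mul_assoc]
      have h2 := congrFun (congrFun h1 i) j
      rw [Matrix.diagonal_mul, rm_apply] at h2
      rw [h2, inv_mul_cancel_left₀ (hs2 i)]
    refine ⟨?_, ?_⟩
    · refine ext_inner_right ℝ fun u => ?_
      have h1 : (inner ℝ (∑ i, M s i i) u : ℝ) = (rm (M s) u).trace := by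
        rw [sum_inner, Matrix.trace]
        rfl
      have h2 : (O.transpose * rm (M s) u * O).trace = (rm (M s) u).trace := by
        rw [Matrix.mul_assoc, Matrix.trace_mul_comm, Matrix.mul_assoc, hO', Matrix.mul_one]
      rw [h1, ← h2, Matrix.trace, sum_inner]
      refine Finset.sum_congr rfl fun i _ => ?_
      rw [Matrix.diag_apply, hN, real_inner_smul_left]
    · intro u
      have h1 : ∑ i, ∑ j, (inner ℝ (M s i j) u : ℝ) ^ 2 = (rm (M s) u * rm (M s) u).trace := by
        rw [Matrix.trace]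
        refine Finset.sum_congr rfl fun i _ => ?_
        rw [Matrix.diag_apply, Matrix.mul_apply]
        refine Finset.sum_congr rfl fun j _ => ?_
        rw [rm_apply, rm_apply, hsym s (hJ hs1) j i]
        ring
      have h2 : ((O.transpose * rm (M s) u * O) * (O.transpose * rm (M s) u * O)).trace =
          (rm (M s) u * rm (M s) u).trace := by
        have h3 : (O.transpose * rm (M s) u * O) * (O.transpose * rm (M s) u * O) =
            O.transpose * (rm (M s) u * (O * O.transpose) * rm (M s) u) * O := by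
          simp only [Matrix.mul_assoc]
        rw [h3, hO', Matrix.mul_one, Matrix.mul_assoc, Matrix.trace_mul_comm, Matrix.mul_assoc,
          hO', Matrix.mul_one]
      rw [h1, ← h2, Matrix.trace]
      refine Finset.sum_congr rfl fun i _ => ?_
      rw [Matrix.diag_apply, Matrix.mul_apply]
      refine Finset.sum_congr rfl fun j _ => ?_
      rw [hN, hN]
      have h4 : (inner ℝ (c j i) u : ℝ) = inner ℝ (c i j) u := by
        have h5 := congrFun (congrFun (hct u) i) j
        rw [Matrix.transpose_apply, rm_apply, rm_apply] at h5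
        exact h5
      rw [h4]
      ring

end PBN
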