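import Pool.Agent.Lib.MP_8d4425_gt.PN.Iface

set_option autoImplicit false

/-!
# Row DM: `M' = -S M`, `M` symmetric, `S = <M,T>`
-/

namespace PBN

open MP8d4425
open scoped ContDiff

theorem dm_proof (h0 : Bas0Statement) (hP : PrpStatement) (hS : SyaStatement)
    (hB : DbStatement) (hD : DsStatement) : DmStatement := by
  intro m n p U φ N P f e lam k δ c w h s hs
  obtain ⟨hx, hc⟩ := h.cur s hs
  obtain ⟨dT, -, -, -, -, -, NT, -⟩ := hP m n p U φ N P f e lam k δ c w h s hs
  obtain ⟨-, -, b3, -⟩ := h0 m n U φ P h.hyp.imm.imm (c s) hx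
  have hTT : inner ℝ (tf φ e (c s)) (tf φ e (c s)) = (1 : ℝ) := by
    rw [real_inner_self_eq_norm_sq]
    have := h.frm.one (c s) hx
    unfold tf
    rw [this]
    norm_num
  have hBT : ∀ i j, inner ℝ (mB φ P c w s i j) (tf φ e (c s)) = (0 : ℝ) := fun i j => b3 _ _
  have hM : ∀ i j, (inner ℝ (mM φ P e c w s i j) (tf φ e (c s)) : ℝ) = mS φ P e c w s i j := by
    intro i j
    unfold mM
    rw [inner_sub_left, real_inner_smul_left, hTT, hBT]
    ring
  intro i j
  obtain ⟨s1, s2⟩ := hS m n p U φ N P f e lam k δ c w h s hs i j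
  refine ⟨?_, hM i j, ?_, ?_⟩
  · unfold mM
    rw [s1, s2]
  · unfold mM
    rw [inner_sub_left, real_inner_smul_left, real_inner_comm (N (c s)) (tf φ e (c s)), NT,
      real_inner_comm (N (c s)) (mB φ P c w s i j)]
    ring
  · have h1 := ((hD m n p U φ N P f e lam k δ c w h s hs i j).smul dT).sub
      (hB m n p U φ N P f e lam k δ c w h s hs i j)
    refine h1.congr_deriv ?_
    have e1 : ∑ l, (inner ℝ (mM φ P e c w s i l) (tf φ e (c s)) : ℝ) • mM φ P e c w s l j =
        (∑ l, mS φ P e c w s i l * mS φ P e c w s l j) • tf φ e (c s) -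
          ∑ l, mS φ P e c w s i l • mB φ P c w s l j := by
      rw [Finset.sum_smul, ← Finset.sum_sub_distrib]
      refine Finset.sum_congr rfl fun l _ => ?_
      rw [hM]
      unfold mM
      rw [smul_sub, smul_smul]
    rw [e1]
    module

end PBN
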