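import Pool.Agent.Lib.MP_8d4425_gt.PN.Db

set_option autoImplicit false

/-!
# Row DS: `S' = -<β,B> - S S`
-/

namespace PBN

open MP8d4425
open scoped ContDiff

theorem ds_proof (h0 : Bas0Statement) (hP : PrpStatement) (hV : VdtStatement) :
    DsStatement := by
  intro m n p U φ N P f e lam k δ c w h s hs i j
  have hI := h.hyp.imm.imm
  have hU := hI.op
  obtain ⟨hx, hc⟩ := h.cur s hs
  obtain ⟨-, -, pw, -⟩ := hP m n p U φ N P f e lam k δ c w h s hs
  have hv := (hV m n p U φ N P f e lam k δ c w h s hs i).2.2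
  have sT := db_sT h
  have dT1 := db_d hU (db_s hU sT) hx
  have de := db_d hU h.frm.se hx
  have h1 : HasDerivAt (fun s => fderiv ℝ (tf φ e) (c s))
      (fderiv ℝ (fderiv ℝ (tf φ e)) (c s) (e (c s))) s := dT1.comp_hasDerivAt s hc
  have h2 := h1.clm_apply hv
  -- the derivative of `β = DT(e)`
  have g1 : HasFDerivAt (fun y => fderiv ℝ (tf φ e) y (e y)) _ (c s) := dT1.clm_apply de
  have dβ : HasFDerivAt (fun y => fderiv ℝ (tf φ e) y (e y)) (fderiv ℝ (be φ e) (c s)) (c s) :=
    db_d hU (db_sβ h) hx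
  have g5 := congrArg (fun L => L (P (c s) (w i))) (dβ.unique g1)
  simp only [add_apply, ContinuousLinearMap.comp_apply, ContinuousLinearMap.flip_apply] at g5
  have h3 := h2.inner ℝ (hasDerivAt_const s (w j))
  rw [inner_zero_right, zero_add] at h3
  refine h3.congr_deriv ?_
  have e1 : fderiv ℝ (fderiv ℝ (tf φ e)) (c s) (P (c s) (w i)) (e (c s)) =
      fderiv ℝ (be φ e) (c s) (P (c s) (w i)) -
        fderiv ℝ (tf φ e) (c s) (fderiv ℝ e (c s) (P (c s) (w i))) := by
    rw [eq_sub_iff_add_eq]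
    exact (add_comm _ _).trans g5.symm
  have e3 : (inner ℝ (fderiv ℝ (be φ e) (c s) (P (c s) (w i))) (w j) : ℝ) =
      -(inner ℝ (be φ e (c s)) (mB φ P c w s i j) : ℝ) := by
    have h4 := db_dbe h0 h hx (P (c s) (w i)) (P (c s) (w j))
    rw [pw j] at h4
    exact h4
  rw [db_sym hU sT hx (e (c s)) (P (c s) (w i)), e1, map_sub, map_sum]
  simp only [map_smul]
  have e2 : ∀ a b d : X n, a - b + (b - d) = a - d := fun a b d => by abel
  rw [e2, inner_sub_left, e3, sum_inner]
  simp only [inner_smul_left, mS, Matrix.of_apply, conj_trivial]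

end PBN
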