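import Pool.Agent.Lib.MP_8d4425_gt.PN.Iface
import Pool.Agent.Lib.MP_8d4425_gt.PB.Dvg

set_option autoImplicit false

/-!
# Row DVG: the divergence with frames (port of `PB/Dvg.lean`)
-/

namespace PBN

open MP8d4425
open Matrix
open scoped ContDiff

theorem fd_diff0 {m n : ℕ} {U : Set (X m)} {φ : X m → X n}
    {P : X m → (X n →L[ℝ] X m)} (hI : Imm0 m n U φ P) {x : X m} (hx : x ∈ U) :
    DifferentiableAt ℝ (fderiv ℝ φ) x := by
  have h1 : ContDiffAt ℝ ∞ φ x := hI.sφ.contDiffAt (hI.op.mem_nhds hx)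
  have h2 : ContDiffAt ℝ 1 (fderiv ℝ φ) x := h1.fderiv_right (m := 1) (by norm_cast)
  exact h2.differentiableAt (by norm_num)

theorem gram_diff0 {m n : ℕ} {U : Set (X m)} {φ : X m → X n}
    {P : X m → (X n →L[ℝ] X m)} (hI : Imm0 m n U φ P) {x : X m} (hx : x ∈ U) (i j : Fin m) :
    DifferentiableAt ℝ (fun y => gram φ y i j) x := by
  have h1 := fd_diff0 hI hx
  have h2 : ∀ i : Fin m, DifferentiableAt ℝ (fun y => fderiv ℝ φ y (cv i)) x :=
    fun i => h1.clm_apply (differentiableAt_const _)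
  exact (h2 i).inner ℝ (h2 j)

/-- The left inverse through the inverse Gram matrix. -/
theorem P_gram0 (h1 : OfrStatement) {m n : ℕ} {U : Set (X m)} {φ : X m → X n}
    {P : X m → (X n →L[ℝ] X m)} (hI : Imm0 m n U φ P) {x : X m} (hx : x ∈ U)
    (w : X n) :
    P x w = ∑ k, ∑ l, ((gram φ x)⁻¹ k l * inner ℝ w (fderiv ℝ φ x (cv l))) • cv k := by
  obtain ⟨⟨ε, hε⟩, h2⟩ := h1 m n U φ P hI x hx
  have h3 := (h2 ε hε).1 (P x w)
  have h4 : ∀ a, inner ℝ (fderiv ℝ φ x (ε a)) (fderiv ℝ φ x (P x w)) =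
      inner ℝ w (fderiv ℝ φ x (ε a)) := by
    intro a
    have h5 := hI.orth x hx w (ε a)
    rw [inner_sub_left, sub_eq_zero] at h5
    rw [h5, real_inner_comm]
  set c : X m →L[ℝ] ℝ := (innerSL ℝ w).comp (fderiv ℝ φ x) with hc
  have h6 := trc_sum φ x ε hε (c.smulRight (ContinuousLinearMap.id ℝ (X m))).flip
  simp only [ContinuousLinearMap.flip_apply, ContinuousLinearMap.smulRight_apply,
    _root_.smul_apply, ContinuousLinearMap.id_apply, smul_smul] at h6
  rw [h3]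
  simp only [h4]
  exact h6.symm

theorem dvg_proof (h1 : OfrStatement) (h2 : TrcStatement) (h3 : JacStatement) :
    DvgStatement := by
  intro m n U φ P hI F _ _ θ x hx hθ ε hε
  have hdet : 0 < (gram φ x).det := (h2 m n U φ P hI x hx).1
  have hjac := h3 m n U φ P hI x hx
  have hg := gram_diff0 hI hx
  have hsq : 0 < Real.sqrt (gram φ x).det := Real.sqrt_pos.mpr hdet
  set s : Fin m → Fin m → X m → ℝ := fun i j y => Real.sqrt (gram φ y).det * (gram φ y)⁻¹ i j
    with hs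
  have hsd : ∀ i j, DifferentiableAt ℝ (s i j) x := by
    intro i j
    exact ((det_diff hg).sqrt hdet.ne').fun_mul (inv_diff hg hdet.ne' i j)
  have hθ' : HasFDerivAt θ (fderiv ℝ θ x) x := hθ.hasFDerivAt
  have hθj : ∀ j, HasFDerivAt (fun y => θ y (cv j)) ((fderiv ℝ θ x).flip (cv j)) x := by
    intro j
    have := hθ'.clm_apply (hasFDerivAt_const (cv j) x)
    simpa using this
  have hterm : ∀ i, fderiv ℝ (fun y => Real.sqrt (gram φ y).det •
      ∑ j, (gram φ y)⁻¹ i j • θ y (cv j)) x (cv i) =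
      ∑ j, (s i j x • fderiv ℝ θ x (cv i) (cv j) + fderiv ℝ (s i j) x (cv i) • θ x (cv j)) := by
    intro i
    have e1 : (fun y => Real.sqrt (gram φ y).det • ∑ j, (gram φ y)⁻¹ i j • θ y (cv j)) =
        fun y => ∑ j, s i j y • θ y (cv j) := by
      funext y
      rw [Finset.smul_sum]
      refine Finset.sum_congr rfl fun j _ => ?_
      rw [smul_smul]
    have e2 := HasFDerivAt.fun_sum (u := Finset.univ)
      (fun j (_ : j ∈ Finset.univ) => (hsd i j).hasFDerivAt.fun_smul (hθj j))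
    rw [e1, e2.fderiv]
    simp only [_root_.sum_apply, _root_.add_apply, _root_.smul_apply,
      ContinuousLinearMap.flip_apply, ContinuousLinearMap.smulRight_apply]
  have hA : dvg φ (fun y j => θ y (cv j)) x =
      ∑ i, ∑ j, (gram φ x)⁻¹ i j • fderiv ℝ θ x (cv i) (cv j) +
      (Real.sqrt (gram φ x).det)⁻¹ • ∑ j, (∑ i, fderiv ℝ (s i j) x (cv i)) • θ x (cv j) := by
    have e0 : dvg φ (fun y j => θ y (cv j)) x = (Real.sqrt (gram φ x).det)⁻¹ •
        ∑ i, fderiv ℝ (fun y => Real.sqrt (gram φ y).det •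
          ∑ j, (gram φ y)⁻¹ i j • θ y (cv j)) x (cv i) := rfl
    rw [e0, Finset.sum_congr rfl (fun i _ => hterm i)]
    simp only [Finset.sum_add_distrib, smul_add, Finset.smul_sum]
    congr 1
    · refine Finset.sum_congr rfl fun i _ => Finset.sum_congr rfl fun j _ => ?_
      rw [smul_smul, hs]
      dsimp only
      rw [← mul_assoc, inv_mul_cancel₀ hsq.ne', one_mul]
    · rw [Finset.sum_comm]
      refine Finset.sum_congr rfl fun j _ => ?_
      rw [Finset.sum_smul, Finset.smul_sum]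
  have hB : (Real.sqrt (gram φ x).det)⁻¹ • ∑ j, (∑ i, fderiv ℝ (s i j) x (cv i)) • θ x (cv j) =
      - ∑ k, ∑ l, (gram φ x)⁻¹ k l • θ x (P x (D2 φ x (cv k) (cv l))) := by
    have e1 : ∀ j, ∑ i, fderiv ℝ (s i j) x (cv i) =
        - (Real.sqrt (gram φ x).det * ∑ k, ∑ l, ∑ r, (gram φ x)⁻¹ k l * (gram φ x)⁻¹ j r *
          inner ℝ (D2 φ x (cv k) (cv l)) (fderiv ℝ φ x (cv r))) := hjac
    have e2 : ∀ k l, θ x (P x (D2 φ x (cv k) (cv l))) = ∑ j, ∑ r, ((gram φ x)⁻¹ j r *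
        inner ℝ (D2 φ x (cv k) (cv l)) (fderiv ℝ φ x (cv r))) • θ x (cv j) := by
      intro k l
      rw [P_gram0 h1 hI hx]
      simp only [map_sum, map_smul]
    simp only [e1, e2, neg_smul, Finset.sum_neg_distrib, smul_neg, neg_inj, Finset.smul_sum,
      smul_smul, Finset.sum_smul, Finset.mul_sum, ← mul_assoc, inv_mul_cancel₀ hsq.ne', one_mul]
    rw [Finset.sum_comm]
    refine Finset.sum_congr rfl fun k _ => ?_
    rw [Finset.sum_comm]
  have hC := trc_sum φ x ε hε (fderiv ℝ θ x)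
  have hD := trc_sum φ x ε hε
    ((ContinuousLinearMap.compL ℝ (X m) (X n) F ((θ x).comp (P x))).comp
      (fderiv ℝ (fderiv ℝ φ) x))
  simp only [ContinuousLinearMap.comp_apply, ContinuousLinearMap.compL_apply] at hD
  rw [hA, hB, hC]
  have hE : ∑ k, ∑ l, (gram φ x)⁻¹ k l • θ x (P x (D2 φ x (cv k) (cv l))) =
      ∑ a, θ x (P x (D2 φ x (ε a) (ε a))) := hD
  rw [hE, ← sub_eq_add_neg, Finset.sum_sub_distrib]

end PBN
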