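import Mathlib
import Pool.Agent.Lib.MP_8d4425_gt.PN.Iface
import Pool.Agent.Lib.MP_8d4425_gt.PB.Ten

set_option autoImplicit false

/-! Row EQV: the vector equation for `f N`. -/

namespace PBN

open MP8d4425 hiding Imm OF lap Hyp Frm tf Crv kc mS BasStatement OfrStatement TrcStatement DvgStatement EqvStatement
open scoped ContDiff

theorem eqv_proof (hb : BasStatement) (ho : OfrStatement) (ht : TrcStatement)
    (hd : DvgStatement) : EqvStatement := by
  intro m n p U φ N P f hm I hsf hmean hprd hten hbi x hx ε hε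
  have I0 := I.imm
  have hU := I0.op
  have hm0 : (0 : ℝ) < m := by exact_mod_cast hm
  have hnh : U ∈ nhds x := hU.mem_nhds hx
  set C : ℝ := (m : ℝ) ^ ((p - 2) / 2) with hC
  have hCpos : 0 < C := Real.rpow_pos_of_pos hm0 _
  have hC4 : (m : ℝ) ^ ((p - 4) / 2) * m = C := by
    rw [hC, show (p - 2) / 2 = (p - 4) / 2 + 1 by ring, Real.rpow_add hm0, Real.rpow_one]
  have hsY : ContDiffOn ℝ ∞ (fun y => f y • N y) U := hsf.smul I.sN
  have hsφ : ContDiffOn ℝ ∞ (fderiv ℝ φ) U := I0.sφ.fderiv_of_isOpen hU (by simp)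
  have hsDY : ContDiffOn ℝ ∞ (fderiv ℝ (fun y => f y • N y)) U :=
    hsY.fderiv_of_isOpen hU (by simp)
  -- derivative of the tension field on U
  have hdt : ∀ y ∈ U, fderiv ℝ (tens p φ) y = (C * m) • fderiv ℝ (fun y => f y • N y) y := by
    intro y hy
    have h1 : tens p φ =ᶠ[nhds y] fun z => (C * m) • (f z • N z) := by
      filter_upwards [hU.mem_nhds hy] with z hz
      rw [hten z hz, smul_smul]
      congr 1
      ring
    rw [h1.fderiv_eq]
    exact fderiv_const_smul ((hsY.contDiffAt (hU.mem_nhds hy)).differentiableAt (by simp))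
      (C * (m : ℝ))
  have hDY : ∀ y ∈ U, ∀ v, fderiv ℝ (fun y => f y • N y) y v =
      f y • fderiv ℝ N y v + (fderiv ℝ f y v) • N y := by
    intro y hy v
    have hf' : DifferentiableAt ℝ f y :=
      (hsf.contDiffAt (hU.mem_nhds hy)).differentiableAt (by simp)
    have hN' : DifferentiableAt ℝ N y :=
      (I.sN.contDiffAt (hU.mem_nhds hy)).differentiableAt (by simp)
    rw [fderiv_fun_smul hf' hN']
    simp
  -- the inner product of d tens and d φ
  have hpt : ∀ y ∈ U, prd φ (tens p φ) y = -(C * m ^ 2 * f y ^ 2) := by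
    intro y hy
    obtain ⟨⟨η, hη⟩, -⟩ := ho m n U φ P I0 y hy
    obtain ⟨-, h2⟩ := ht m n U φ P I0 y hy
    obtain ⟨-, -, c3, -, -, -, -, -, -⟩ := hb m n U φ N P I y hy
    have h3 := h2 η hη ℝ (((innerSL ℝ).bilinearComp (fderiv ℝ (tens p φ) y) (fderiv ℝ φ y)))
    simp only [ContinuousLinearMap.bilinearComp_apply, smul_eq_mul] at h3
    have h4 : ∀ v w, (innerSL ℝ (fderiv ℝ (tens p φ) y v)) (fderiv ℝ φ y w) =
        (inner ℝ (fderiv ℝ (tens p φ) y v) (fderiv ℝ φ y w) : ℝ) := fun v w => rfl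
    simp only [h4] at h3
    unfold prd
    rw [h3]
    have h5 : ∀ a, (inner ℝ (fderiv ℝ (tens p φ) y (η a)) (fderiv ℝ φ y (η a)) : ℝ) =
        (C * m * f y) * (inner ℝ (fderiv ℝ N y (η a)) (fderiv ℝ φ y (η a)) : ℝ) := by
      intro a
      rw [hdt y hy, _root_.smul_apply, hDY y hy, real_inner_smul_left, inner_add_left,
        real_inner_smul_left, real_inner_smul_left, I.perp y hy]
      ring
    rw [Finset.sum_congr rfl fun a _ => h5 a, ← Finset.mul_sum]
    have h6 := hmean y hy η hη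
    have h7 : ∑ i, (inner ℝ (fderiv ℝ N y (η i)) (fderiv ℝ φ y (η i)) : ℝ) = -(m * f y) := by
      rw [Finset.sum_congr rfl fun a _ => c3 (η a) (η a), Finset.sum_neg_distrib, ← inner_sum, h6,
        real_inner_smul_right, real_inner_self_eq_norm_sq, I.unit y hy]
      ring
    rw [h7]
    ring
  have hdφ : DifferentiableAt ℝ (fderiv ℝ φ) x :=
    (hsφ.contDiffAt hnh).differentiableAt (by simp)
  have hdDY : DifferentiableAt ℝ (fderiv ℝ (fun y => f y • N y)) x :=
    (hsDY.contDiffAt hnh).differentiableAt (by simp)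
  have hdf : DifferentiableAt ℝ f x := (hsf.contDiffAt hnh).differentiableAt (by simp)
  -- the 1-form
  have h1 : biten p φ x = dvg φ (fun y j => ((C ^ 2 * m) •
      (fderiv ℝ (fun y => f y • N y) y - ((p - 2) * f y ^ 2) • fderiv ℝ φ y)) (cv j)) x := by
    unfold biten
    refine dvg_congr φ _ _ x ?_
    filter_upwards [hnh] with y hy
    funext j
    rw [hprd y hy, hpt y hy, hdt y hy]
    simp only [_root_.smul_apply, _root_.sub_apply]
    rw [← hC, ← hC4]
    module
  have h2 : DifferentiableAt ℝ (fun y => ((p - 2) * f y ^ 2) • fderiv ℝ φ y) x :=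
    ((hdf.pow 2).const_mul (p - 2)).smul hdφ
  have h3 : DifferentiableAt ℝ (fun y => (C ^ 2 * m) •
      (fderiv ℝ (fun y => f y • N y) y - ((p - 2) * f y ^ 2) • fderiv ℝ φ y)) x :=
    (hdDY.fun_sub h2).fun_const_smul (C ^ 2 * (m : ℝ))
  rw [hbi x hx] at h1
  have h4 := hd m n U φ P I0 (X n) _ x hx h3 ε hε
  rw [← h1] at h4
  have h5 : ∀ a, fderiv ℝ (fun y => (C ^ 2 * (m : ℝ)) •
      (fderiv ℝ (fun y => f y • N y) y - ((p - 2) * f y ^ 2) • fderiv ℝ φ y)) x (ε a) (ε a) =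
      (C ^ 2 * (m : ℝ)) • (D2 (fun y => f y • N y) x (ε a) (ε a) -
        (((p - 2) * f x ^ 2) • D2 φ x (ε a) (ε a) +
          ((p - 2) * (2 * f x * fderiv ℝ f x (ε a))) • fderiv ℝ φ x (ε a))) := by
    intro a
    have e1 : HasFDerivAt (fun y => (p - 2) * f y ^ 2)
        ((p - 2) • ((2 * f x) • fderiv ℝ f x)) x := by
      have := (hdf.hasFDerivAt.pow 2).const_mul (p - 2)
      simpa using this
    have e2 := (e1.smul hdφ.hasFDerivAt)
    have e3 := (hdDY.hasFDerivAt.sub e2).const_smul (C ^ 2 * (m : ℝ))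
    have e4 : fderiv ℝ (fun y => (C ^ 2 * (m : ℝ)) •
      (fderiv ℝ (fun y => f y • N y) y - ((p - 2) * f y ^ 2) • fderiv ℝ φ y)) x = _ := e3.fderiv
    rw [e4]
    unfold D2
    simp only [_root_.smul_apply, _root_.sub_apply, _root_.add_apply,
      ContinuousLinearMap.smulRight_apply, smul_eq_mul]
  have h6 : ∀ a, ((C ^ 2 * (m : ℝ)) •
      (fderiv ℝ (fun y => f y • N y) x - ((p - 2) * f x ^ 2) • fderiv ℝ φ x))
        (P x (D2 φ x (ε a) (ε a))) = (C ^ 2 * (m : ℝ)) •
      (fderiv ℝ (fun y => f y • N y) x (P x (D2 φ x (ε a) (ε a))) -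
        ((p - 2) * f x ^ 2) • (D2 φ x (ε a) (ε a) - bf φ P x (ε a) (ε a))) := by
    intro a
    have e1 : fderiv ℝ φ x (P x (D2 φ x (ε a) (ε a))) =
        D2 φ x (ε a) (ε a) - bf φ P x (ε a) (ε a) := by
      rw [bf, nor, sub_sub_cancel]
    simp only [_root_.smul_apply, _root_.sub_apply]
    rw [e1]
  have h7 : ∀ a, fderiv ℝ (fun y => (C ^ 2 * (m : ℝ)) •
      (fderiv ℝ (fun y => f y • N y) y - ((p - 2) * f y ^ 2) • fderiv ℝ φ y)) x (ε a) (ε a) -
      ((C ^ 2 * (m : ℝ)) •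
      (fderiv ℝ (fun y => f y • N y) x - ((p - 2) * f x ^ 2) • fderiv ℝ φ x))
        (P x (D2 φ x (ε a) (ε a))) = (C ^ 2 * (m : ℝ)) •
      ((D2 (fun y => f y • N y) x (ε a) (ε a) -
        fderiv ℝ (fun y => f y • N y) x (P x (D2 φ x (ε a) (ε a)))) -
        ((p - 2) • ((2 * f x * fderiv ℝ f x (ε a)) • fderiv ℝ φ x (ε a)) +
          ((p - 2) * f x ^ 2) • bf φ P x (ε a) (ε a))) := by
    intro a
    rw [h5 a, h6 a]
    module
  rw [Finset.sum_congr rfl fun a _ => h7 a, ← Finset.smul_sum, eq_comm,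
    smul_eq_zero] at h4
  have h8 : C ^ 2 * (m : ℝ) ≠ 0 := by positivity
  have h9 := h4.resolve_left h8
  rw [Finset.sum_sub_distrib, sub_eq_zero, Finset.sum_add_distrib, ← Finset.smul_sum,
    ← Finset.smul_sum, hmean x hx ε hε] at h9
  unfold lap
  rw [h9, smul_add, smul_smul, smul_smul]
  congr 2
  ring

end PBN
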