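import Mathlib
import Pool.Agent.Lib.MP_8d4425_gt.PN.Iface
import Pool.Agent.Lib.MP_8d4425_gt.PB.Var
import Pool.Agent.Lib.MP_8d4425_gt.PB.Tnk

set_option autoImplicit false

/-!
# Row FIN: assembly
-/

namespace PBN

open MP8d4425
open scoped ContDiff

theorem fin_proof (hSpl : SplStatement) (hEqv : EqvStatement) (hHyp : HypStatement)
    (hNonv : NonvStatement) (hFrm : FrmStatement) (hBet1 : Bet1Statement)
    (hBet2 : Bet2Statement) (hPrj : PrjStatement) (hCur : CurStatement) (hWex : WexStatement)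
    (hLoc : LocStatement) (hOde : PBH48.Ode2Statement) : MainStatement := by
  intro m n p hp U φ hU hφ hinj hbi hpar x hx
  by_contra hne
  have hm : 0 < m := by
    rcases Nat.eq_zero_or_pos m with h | h
    · subst h
      exfalso
      apply hne
      simp [tens, dvg]
    · exact h
  obtain ⟨U', N, P, f, hsub, hxU', himm, hf, hfpos, hprd, htens, hmean⟩ :=
    hSpl m n p U φ hm hU hφ hinj hpar x hx hne
  have heq := hEqv m n p U' φ N P f hm himm hf hmean hprd htens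
    (fun y hy => hbi y (hsub hy))
  have hyp := hHyp m n p U' φ N P f hm himm hf hfpos hmean heq
  obtain ⟨U₂, hU₂, ⟨x₀, hx₀⟩, hyp₂, hdf⟩ := hNonv m n p U' φ N P f hp hm hyp ⟨x, hxU'⟩
  obtain ⟨e, lam, hfrm⟩ := hFrm m n p U₂ φ N P f hyp₂ hdf
  have hb1 := hBet1 m n p U₂ φ N P f e lam hp hm hyp₂ hfrm
  have hb2 := hBet2 m n p U₂ φ N P f e lam hp hm hyp₂ hfrm
  have hpr := hPrj m n p U₂ φ N P f e lam hp hm hyp₂ hfrm
  obtain ⟨δ, c, hδ, hc0, hc⟩ := hCur m U₂ e hyp₂.imm.imm.op hfrm.se x₀ hx₀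
  obtain ⟨k, hk⟩ : ∃ k, k + 1 = m := ⟨m - 1, by omega⟩
  obtain ⟨w, hw, hwF, hwT⟩ := hWex m n k U₂ φ P hyp₂.imm.imm hk x₀ hx₀ (e x₀)
    (hfrm.one x₀ hx₀)
  have hcrv : Crv m n p U₂ φ N P f e lam k δ c w :=
    { hyp := hyp₂
      frm := hfrm
      bet1 := hb1
      bet2 := hb2
      prj := hpr
      dim := hk
      δpos := hδ
      cur := hc
      orth := hw
      wF := by rw [hc0]; exact hwF
      wT := by rw [hc0]; exact hwT }
  obtain ⟨μ, ν, ε, cc, r, hμ, hμ1, hν, hloc⟩ := hLoc m n p U₂ φ N P f e lam k δ c w hp hcrv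
  exact hOde k n μ ν ε cc _ _ r hμ hμ1 hν hloc

/-- The normalised mean curvature vector is parallel in the normal bundle where it is defined:
its derivative is tangential. -/
def Pnmc {m n : ℕ} (p : ℝ) (U : Set (X m)) (φ : X m → X n) : Prop :=
  ∀ x ∈ U, tens p φ x ≠ 0 → ∀ v, ∃ u,
    fderiv ℝ (fun y => ‖tens p φ y‖⁻¹ • tens p φ y) x v = fderiv ℝ φ x u

/-- The theorem with the definition of the problem file. -/
def FinalStatement : Prop :=
  ∀ (m n : ℕ) (p : ℝ), 2 ≤ p → ∀ (U : Set (X m)) (φ : X m → X n), Immn U φ →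
    PBiharmonic p U φ → (n = m + 1 ∨ Pnmc p U φ) → ∀ x ∈ U, tens p φ x = 0

/-- In codimension one the normalised mean curvature vector is always parallel. -/
def CodimStatement : Prop :=
  ∀ (m : ℕ) (p : ℝ) (U : Set (X m)) (φ : X m → X (m + 1)), 0 < m → Immn U φ → Pnmc p U φ

theorem final_of (h1 : MainStatement) (h2 : VelStatement) (h3 : CodimStatement) :
    FinalStatement := by
  intro m n p hp U φ hI hB hN x hx
  rcases Nat.eq_zero_or_pos m with h | h
  · subst h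
    simp [tens, dvg]
  · have h4 : Pnmc p U φ := by
      rcases hN with hN | hN
      · subst hN
        exact h3 m p U φ h hI
      · exact hN
    exact h1 m n p hp U φ hI.1 hI.2.1 hI.2.2 (h2 m n p U φ h hI hB) h4 x hx

/-- Codimension one, from rows PINV, BAS0, OFR, TEN. -/
theorem codim_proof (hPinv : PinvStatement) (h0 : Bas0Statement) (hOfr : OfrStatement)
    (hTen : TenStatement) : CodimStatement := by
  intro m p U φ hm hI x hx hne v
  obtain ⟨hU, hφ, hinj⟩ := hI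
  obtain ⟨P, sP, hPP⟩ := hPinv m (m + 1) U φ hU hφ hinj
  have hI0 : Imm0 m (m + 1) U φ P := ⟨hU, hφ, sP, fun y hy => (hPP y hy).1,
    fun y hy => (hPP y hy).2⟩
  obtain ⟨hprd, hT⟩ := hTen m (m + 1) U φ P hm hI0
  obtain ⟨sτ, hτ⟩ := hT p
  set τ : X m → X (m + 1) := tens p φ with hτd
  -- `τ` is normal
  have hnor : ∀ y ∈ U, ∀ w, (inner ℝ (τ y) (fderiv ℝ φ y w) : ℝ) = 0 := by
    intro y hy w
    obtain ⟨ε, hε⟩ := (hOfr m (m + 1) U φ P hI0 y hy).1
    rw [hτ y hy ε hε, inner_smul_left, sum_inner]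
    have : ∀ a, (inner ℝ (bf φ P y (ε a) (ε a)) (fderiv ℝ φ y w) : ℝ) = 0 := fun a =>
      (h0 m (m + 1) U φ P hI0 y hy).2.2.1 _ w
    simp [this]
  -- the unit field
  set V : Set (X m) := U ∩ τ ⁻¹' {0}ᶜ with hV
  have hVo : IsOpen V := sτ.continuousOn.isOpen_inter_preimage hU isOpen_compl_singleton
  have hxV : x ∈ V := ⟨hx, hne⟩
  set M : X m → X (m + 1) := fun y => ‖τ y‖⁻¹ • τ y with hM
  have sτ' : ContDiffOn ℝ ∞ τ V := sτ.mono Set.inter_subset_left
  have sM : ContDiffOn ℝ ∞ M V :=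
    ((sτ'.norm ℝ fun y hy => hy.2).inv fun y hy => norm_ne_zero_iff.2 hy.2).smul sτ'
  have hMM : ∀ y ∈ V, (inner ℝ (M y) (M y) : ℝ) = 1 := by
    intro y hy
    have h1 : ‖τ y‖ ≠ 0 := norm_ne_zero_iff.2 hy.2
    simp only [hM]
    rw [real_inner_smul_left, real_inner_smul_right, real_inner_self_eq_norm_sq]
    field_simp
  have hMd : (inner ℝ (M x) (fderiv ℝ M x v) : ℝ) = 0 := by
    have h1 := Tnk.fderiv_inn hVo sM sM hxV v
    have h2 : fderiv ℝ (fun y => (inner ℝ (M y) (M y) : ℝ)) x = 0 := by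
      rw [Tnk.fderiv_congr hVo (v := fun _ => (1 : ℝ)) hMM hxV]
      exact fderiv_const_apply _
    rw [h2] at h1
    have h3 := real_inner_comm (M x) (fderiv ℝ M x v)
    simp only [_root_.zero_apply] at h1
    linarith
  have hMp : ∀ w, (inner ℝ (M x) (fderiv ℝ φ x w) : ℝ) = 0 := by
    intro w
    simp only [hM]
    rw [real_inner_smul_left, hnor x hx w, mul_zero]
  set R := LinearMap.range (fderiv ℝ φ x).toLinearMap with hR
  have hfin : Module.finrank ℝ R = m := by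
    rw [LinearMap.finrank_range_of_inj (f := (fderiv ℝ φ x).toLinearMap) (hinj x hx)]
    simp
  have hRo : Module.finrank ℝ Rᗮ = 1 := by
    have h1 := Submodule.finrank_add_finrank_orthogonal R
    rw [hfin] at h1
    simp at h1
    exact h1
  have memR : ∀ u : X (m + 1), (∀ v, inner ℝ u (fderiv ℝ φ x v) = (0 : ℝ)) → u ∈ Rᗮ := by
    intro u hu
    rw [Submodule.mem_orthogonal']
    rintro _ ⟨v, rfl⟩
    exact hu v
  have hN0 : M x ≠ 0 := by
    intro h0
    have h1 := hMM x hxV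
    rw [h0, inner_zero_left] at h1
    exact zero_ne_one h1
  have hNm : M x ∈ Rᗮ := memR _ hMp
  have hN1 : (⟨M x, hNm⟩ : Rᗮ) ≠ 0 := fun h => hN0 (congrArg Subtype.val h)
  obtain ⟨c, hc⟩ := (finrank_eq_one_iff_of_nonzero' _ hN1).1 hRo
    ⟨fderiv ℝ M x v - fderiv ℝ φ x (P x (fderiv ℝ M x v)),
      memR _ ((hPP x hx).2 (fderiv ℝ M x v))⟩
  have hc' : c • M x = fderiv ℝ M x v - fderiv ℝ φ x (P x (fderiv ℝ M x v)) :=
    congrArg Subtype.val hc
  have hcv : c = 0 := by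
    have h1 : inner ℝ (M x) (c • M x) = c := by
      rw [real_inner_smul_right, hMM x hxV]
      ring
    rw [hc', inner_sub_right, hMp, hMd, sub_zero] at h1
    exact h1.symm
  refine ⟨P x (fderiv ℝ M x v), ?_⟩
  rw [hcv, zero_smul] at hc'
  exact sub_eq_zero.1 hc'.symm

end PBN
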