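import Mathlib
import Pool.Agent.Lib.MP_8d4425_gt.PN.Iface
import Pool.Agent.Lib.MP_8d4425_gt.PB.Frm

set_option autoImplicit false

/-!
# Row FRM: the unit field in the direction of the gradient of the mean curvature
-/

namespace PBN

open MP8d4425
open scoped ContDiff

theorem frm_proof (h : Bas0Statement) : FrmStatement := by
  intro m n p U φ N P f hH hne
  have hI := hH.imm.imm
  have hU := hI.op
  set r : X m → X n := fun x => frmVec ((fderiv ℝ f x).comp (P x)) with hr
  have hrw : ∀ x w, inner ℝ (r x) w = fderiv ℝ f x (P x w) := fun x w => by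
    rw [hr]
    exact frmVec_inner _ w
  have sdf : ContDiffOn ℝ ∞ (fderiv ℝ f) U := by
    refine hH.sf.fderiv_of_isOpen hU ?_
    simp
  have sr : ContDiffOn ℝ ∞ r U := by
    rw [hr]
    unfold frmVec
    refine ContDiffOn.sum fun j _ => ?_
    have hj : ContDiffOn ℝ ∞ (fun x => fderiv ℝ f x (P x (cv j))) U :=
      sdf.clm_apply (hI.sP.clm_apply contDiffOn_const)
    exact hj.smul (contDiffOn_const (c := (cv j : X n)))
  have hDG : ∀ x ∈ U, fderiv ℝ φ x (P x (r x)) = r x := by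
    intro x hx
    obtain ⟨-, -, ho, -, -, hPn, -⟩ := h m n U φ P hI x hx
    have h0 : nor φ P x (r x) = 0 := by
      have h1 : inner ℝ (nor φ P x (r x)) (nor φ P x (r x)) = (0 : ℝ) := by
        have h2 : inner ℝ (nor φ P x (r x)) (nor φ P x (r x)) =
            (inner ℝ (nor φ P x (r x)) (r x) : ℝ) -
              inner ℝ (nor φ P x (r x)) (fderiv ℝ φ x (P x (r x))) := by
          rw [← inner_sub_right]
          rfl
        rw [h2, ho, sub_zero, real_inner_comm, hrw, hPn, map_zero]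
      exact inner_self_eq_zero.mp h1
    have h2 : r x - fderiv ℝ φ x (P x (r x)) = 0 := h0
    exact (sub_eq_zero.mp h2).symm
  have hDf : ∀ x ∈ U, ∀ v, inner ℝ (r x) (fderiv ℝ φ x v) = fderiv ℝ f x v := by
    intro x hx v
    rw [hrw, hI.left x hx v]
  have hr0 : ∀ x ∈ U, r x ≠ 0 := by
    intro x hx h0
    refine hne x hx ?_
    ext v
    rw [← hDf x hx v, h0, inner_zero_left]
    rfl
  have hpos : ∀ x ∈ U, 0 < ‖r x‖ := fun x hx => norm_pos_iff.mpr (hr0 x hx)
  have sl : ContDiffOn ℝ ∞ (fun x => ‖r x‖) U := sr.norm ℝ hr0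
  have hDe : ∀ x ∈ U, fderiv ℝ φ x (‖r x‖⁻¹ • P x (r x)) = ‖r x‖⁻¹ • r x := by
    intro x hx
    rw [map_smul, hDG x hx]
  refine ⟨fun x => ‖r x‖⁻¹ • P x (r x), fun x => ‖r x‖, ?_, sl, hpos, ?_, ?_, ?_⟩
  · exact (sl.inv fun x hx => (hpos x hx).ne').smul (hI.sP.clm_apply sr)
  · intro x hx
    rw [hDe x hx, norm_smul, norm_inv, norm_norm, inv_mul_cancel₀ (hpos x hx).ne']
  · intro x hx v
    rw [hDe x hx, inner_smul_left, hDf x hx v]
    simp only [conj_trivial]
    rw [← mul_assoc, mul_inv_cancel₀ (hpos x hx).ne', one_mul]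
  · intro x hx
    have ht := hH.tang x hx (P x (r x)) (fun v => by rw [hDG x hx]; exact hDf x hx v)
    rw [hDe x hx, map_smul, ht, hDG x hx, smul_comm]

end PBN
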