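import Pool.Agent.Lib.MP_8d4425_gt.PN.Iface
import Pool.Agent.Lib.MP_8d4425_gt.PB.Cod

set_option autoImplicit false

/-!
# p-biharmonic PNMC immersions, row HYP: splitting the vector equation
-/

namespace PBN

open MP8d4425
open scoped ContDiff

namespace Hypr

variable {m : ℕ} {F : Type} [NormedAddCommGroup F] [NormedSpace ℝ F]

/-- first derivative of `f N` -/
theorem dfN {U : Set (X m)} {N : X m → F} {f : X m → ℝ} (hU : IsOpen U)
    (hN : ContDiffOn ℝ ∞ N U) (hf : ContDiffOn ℝ ∞ f U) {x : X m} (hx : x ∈ U) (v : X m) :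
    fderiv ℝ (fun y => f y • N y) x v = f x • fderiv ℝ N x v + fderiv ℝ f x v • N x := by
  have h1 := (MP8d4425.Cod.hasF hU hf hx).fun_smul (MP8d4425.Cod.hasF hU hN hx)
  rw [h1.fderiv]
  simp

/-- second derivative of `f N` -/
theorem ddfN {U : Set (X m)} {N : X m → F} {f : X m → ℝ} (hU : IsOpen U)
    (hN : ContDiffOn ℝ ∞ N U) (hf : ContDiffOn ℝ ∞ f U) {x : X m} (hx : x ∈ U) (v : X m) :
    D2 (fun y => f y • N y) x v v = f x • D2 N x v v + D2 f x v v • N x +
      (2 * fderiv ℝ f x v) • fderiv ℝ N x v := by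
  have hY : ContDiffOn ℝ ∞ (fun y => f y • N y) U := hf.smul hN
  have h1 := MP8d4425.Cod.hasFv hU hY hx v
  have h2 := ((MP8d4425.Cod.hasF hU hf hx).fun_smul (MP8d4425.Cod.hasFv hU hN hx v)).fun_add
    ((MP8d4425.Cod.hasFv hU hf hx v).fun_smul (MP8d4425.Cod.hasF hU hN hx))
  have h3 := MP8d4425.Cod.eq_of_eqOn hU hx (fun y hy => dfN hU hN hf hy v) h1 h2
  have h4 := congrArg (fun L : X m →L[ℝ] F => L v) h3
  have h5 : D2 (fun y => f y • N y) x v v = f x • D2 N x v v + fderiv ℝ f x v • fderiv ℝ N x v +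
      (fderiv ℝ f x v • fderiv ℝ N x v + D2 f x v v • N x) := by
    unfold D2
    simpa using h4
  rw [h5, two_mul, add_smul]
  abel

/-- the Laplacian of `f N` -/
theorem lapfN {n : ℕ} {U : Set (X m)} {φ : X m → X n} {N : X m → F}
    {P : X m → (X n →L[ℝ] X m)} {f : X m → ℝ} (hU : IsOpen U) (hN : ContDiffOn ℝ ∞ N U)
    (hf : ContDiffOn ℝ ∞ f U) {x : X m} (hx : x ∈ U) (ε : Fin m → X m) :
    lap φ P (fun y => f y • N y) x ε = f x • lap φ P N x ε + lap φ P f x ε • N x +
      ∑ a, (2 * fderiv ℝ f x (ε a)) • fderiv ℝ N x (ε a) := by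
  unfold lap
  rw [Finset.smul_sum, Finset.sum_smul, ← Finset.sum_add_distrib, ← Finset.sum_add_distrib]
  refine Finset.sum_congr rfl fun a _ => ?_
  rw [ddfN hU hN hf hx, dfN hU hN hf hx, smul_sub, sub_smul]
  abel

end Hypr

theorem hyp_proof (hB : BasStatement) (hO : OfrStatement) (hC : CodStatement) :
    HypStatement := by
  intro m n p U φ N P f hm h sf fpos hmean hE
  have op := h.imm.op
  -- the scalar form of the mean curvature
  have hf : ∀ x ∈ U, ∀ ε, OF φ x ε →
      (m : ℝ) * f x = - ∑ i, inner ℝ (fderiv ℝ N x (ε i)) (fderiv ℝ φ x (ε i)) := by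
    intro x hx ε hε
    have hNN : (inner ℝ (N x) (N x) : ℝ) = 1 := by
      rw [real_inner_self_eq_norm_sq, h.unit x hx]; norm_num
    have e1 := congrArg (fun w : X n => (inner ℝ (N x) w : ℝ)) (hmean x hx ε hε)
    simp only [inner_sum, real_inner_smul_right, hNN, mul_one] at e1
    rw [← e1, ← Finset.sum_neg_distrib]
    refine Finset.sum_congr rfl fun a _ => ?_
    rw [(hB m n U φ N P h x hx).2.2.1 (ε a) (ε a), neg_neg]
  refine ⟨h, sf, fpos, hmean, ?_, ?_⟩
  · intro x hx G hG
    obtain ⟨hb1, hb2, hb3, hb4, hb5, hb6, hb7, hb8, hb9⟩ := hB m n U φ N P h x hx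
    obtain ⟨⟨ε, hε⟩, ho⟩ := hO m n U φ P h.imm x hx
    have ho := ho ε hε
    have hE := hE x hx ε hε
    rw [Hypr.lapfN op h.sN sf hx ε] at hE
    have hGe : G = ∑ a, (fderiv ℝ f x (ε a)) • ε a := by
      conv_lhs => rw [ho.1 G]
      refine Finset.sum_congr rfl fun a _ => ?_
      rw [real_inner_comm, hG]
    set W : X n := fderiv ℝ N x G - ((p - 2 + m / 2) * f x) • fderiv ℝ φ x G with hW
    have hWt : W = fderiv ℝ φ x (P x (fderiv ℝ N x G) - ((p - 2 + m / 2) * f x) • G) := by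
      rw [map_sub, map_smul, h.par x hx G]
    have hWu : ∀ u, (inner ℝ W (fderiv ℝ φ x u) : ℝ) = 0 := by
      intro u
      have e1 := congrArg (fun w : X n => (inner ℝ w (fderiv ℝ φ x u) : ℝ)) hE
      simp only [inner_add_left, real_inner_smul_left, sum_inner] at e1
      rw [hC m n U φ N P f h sf hf x hx ε hε u, h.perp x hx u] at e1
      have e2 : ∑ a, 2 * fderiv ℝ f x (ε a) * (inner ℝ (fderiv ℝ N x (ε a)) (fderiv ℝ φ x u) : ℝ) =
          2 * inner ℝ (fderiv ℝ N x G) (fderiv ℝ φ x u) := by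
        conv_rhs => rw [hGe]
        rw [map_sum, sum_inner, Finset.mul_sum]
        refine Finset.sum_congr rfl fun a _ => ?_
        rw [map_smul, real_inner_smul_left]
        ring
      have e3 : ∑ a, 2 * f x * fderiv ℝ f x (ε a) *
          (inner ℝ (fderiv ℝ φ x (ε a)) (fderiv ℝ φ x u) : ℝ) =
          2 * f x * inner ℝ (fderiv ℝ φ x G) (fderiv ℝ φ x u) := by
        conv_rhs => rw [hGe]
        rw [map_sum, sum_inner, Finset.mul_sum]
        refine Finset.sum_congr rfl fun a _ => ?_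
        rw [map_smul, real_inner_smul_left]
        ring
      rw [e2, e3] at e1
      rw [hW, inner_sub_left, real_inner_smul_left]
      have e4 := hG u
      rw [← e4] at e1
      linarith
    have hW0 : W = 0 := by
      have e1 := hWu (P x (fderiv ℝ N x G) - ((p - 2 + m / 2) * f x) • G)
      rw [← hWt] at e1
      exact inner_self_eq_zero.1 e1
    exact sub_eq_zero.1 hW0
  · intro x hx ε hε
    obtain ⟨hb1, hb2, hb3, hb4, hb5, hb6, hb7, hb8, hb9⟩ := hB m n U φ N P h x hx
    have hE := hE x hx ε hε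
    rw [Hypr.lapfN op h.sN sf hx ε] at hE
    have hNN : (inner ℝ (N x) (N x) : ℝ) = 1 := by
      rw [real_inner_self_eq_norm_sq, h.unit x hx]; norm_num
    have hlN : (inner ℝ (N x) (lap φ P N x ε) : ℝ) = -∑ a, ‖fderiv ℝ N x (ε a)‖ ^ 2 := by
      unfold lap
      rw [inner_sum, ← Finset.sum_neg_distrib]
      refine Finset.sum_congr rfl fun a _ => ?_
      rw [inner_sub_right, hb1, sub_zero, hb8, real_inner_self_eq_norm_sq]
    have e1 := congrArg (fun w : X n => (inner ℝ (N x) w : ℝ)) hE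
    simp only [inner_add_right, real_inner_smul_right, inner_sum] at e1
    rw [hlN, hNN] at e1
    simp only [hb1, h.perp x hx, mul_zero, Finset.sum_const_zero, mul_one, add_zero,
      zero_add] at e1
    linarith

end PBN
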