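import Mathlib
import Pool.Agent.Lib.MP_8d4425_gt.PN.Iface
import Pool.Agent.Lib.MP_8d4425_gt.PB.Jac

set_option autoImplicit false

/-!
# Row JAC: the Jacobi formula for the metric induced by an immersion
-/

namespace PBN

open MP8d4425
open scoped ContDiff

theorem jac_proof : JacStatement := by
  intro m n U φ P h x hx j
  have h1 : ContDiffAt ℝ ∞ φ x := h.sφ.contDiffAt (h.op.mem_nhds hx)
  have h2 : DifferentiableAt ℝ (fderiv ℝ φ) x :=
    (h1.fderiv_right (m := 1) (by norm_cast)).differentiableAt (by norm_num)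
  refine Jac.core h2 ?_ (Jac.det_pos_of_inj φ x ?_) j
  · intro v w
    have h3 : IsSymmSndFDerivAt ℝ φ x :=
      h1.isSymmSndFDerivAt (by simp; exact WithTop.coe_le_coe.mpr le_top)
    exact h3 v w
  · intro v w hvw
    have := congrArg (P x) hvw
    rwa [h.left x hx, h.left x hx] at this

end PBN
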