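import Mathlib
import Pool.Agent.Lib.MP_8d4425_gt.PN.Iface

set_option autoImplicit false

/-!
# Row LOC
-/

namespace PBN

open MP8d4425
open scoped ContDiff

theorem Loc.hasDerivAt_gg {k n : ℕ} (cc : Fin k → Fin k → X n) (r : Fin k → ℝ → ℝ)
    (T : X n) (s : ℝ)
    (hr : ∀ i, HasDerivAt (r i) (-(r i s ^ 2 * inner ℝ (cc i i) T)) s) :
    HasDerivAt (fun t => PBH48.gg cc (fun i => r i t)) (PBH48.gg1 cc T (fun i => r i s)) s := by
  unfold PBH48.gg PBH48.gg1
  exact HasDerivAt.fun_sum fun i _ => (hr i).smul_const (cc i i)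

theorem Loc.hasDerivAt_ka {k n : ℕ} (μ : ℝ) (cc : Fin k → Fin k → X n) (r : Fin k → ℝ → ℝ)
    (T : X n) (N : ℝ → X n) (s : ℝ)
    (hr : ∀ i, HasDerivAt (r i) (-(r i s ^ 2 * inner ℝ (cc i i) T)) s)
    (hN : HasDerivAt N ((-(PBH48.ka μ cc (N s) (fun i => r i s))) • T) s) :
    HasDerivAt (fun t => PBH48.ka μ cc (N t) (fun i => r i t))
      (PBH48.ka1 μ cc T (N s) (fun i => r i s)) s := by
  have h1 := (Loc.hasDerivAt_gg cc r T s hr).inner ℝ hN
  have h2 := h1.const_mul μ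
  unfold PBH48.ka1
  unfold PBH48.ka at h2 ⊢
  rw [add_comm] at h2
  exact h2

theorem loc_proof (hPrp : PrpStatement) (hDm : DmStatement) (hTra : TraStatement)
    (hNrm : NrmStatement) (hDiag : DiagStatement) : LocStatement := by
  intro m n p U φ N P f e lam k δ c w hp hC
  have hδ := hC.δpos
  have hmn : k + 1 = m := hC.dim
  have hm0 : (0 : ℝ) < m := by
    rw [← hmn]; push_cast; positivity
  set α : ℝ := p - 2 + m / 2 with hα
  have hαpos : 0 < α := by
    have h1 : (0 : ℝ) < (m : ℝ) / 2 := by positivity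
    have h2 : (0 : ℝ) ≤ p - 2 := by linarith
    rw [hα]; linarith
  set μ : ℝ := α / (m + α) with hμ
  have hsum : (0 : ℝ) < m + α := by linarith
  have hμpos : 0 < μ := div_pos hαpos hsum
  have hμ1 : μ ≤ 1 := by
    rw [hμ, div_le_one hsum]
    linarith
  set ν : ℝ := m * (p - 2) / α ^ 2 with hν
  have hν0 : 0 ≤ ν := by
    have h2 : (0 : ℝ) ≤ p - 2 := by linarith
    rw [hν]; positivity
  have hkc : ∀ s, kc m p f c s = -(α * f (c s)) := fun s => rfl
  have hprp := hPrp m n p U φ N P f e lam k δ c w hC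
  have hdm := hDm m n p U φ N P f e lam k δ c w hC
  have htra := hTra m n p U φ N P f e lam k δ c w hC
  have hnrm := hNrm m n p U φ N P f e lam k δ c w hC
  obtain ⟨ε, hε, hεδ, cc, r, hr0, hr, hMM⟩ := hDiag k n δ (mM φ P e c w)
    (fun s => tf φ e (c s)) hδ
    (fun s hs => (hprp s hs).1.continuousAt.continuousWithinAt)
    (fun s hs i j => (hdm s hs i j).1)
    (fun s hs i j => (hdm s hs i j).2.2.2)
  have hsub : ∀ s ∈ Set.Ioo (-ε) ε, s ∈ Set.Ioo (-δ) δ := fun s hs =>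
    ⟨by have := hs.1; linarith, by have := hs.2; linarith⟩
  have h0 : (0 : ℝ) ∈ Set.Ioo (-ε) ε := ⟨by linarith, hε⟩
  have hnhds : ∀ s ∈ Set.Ioo (-ε) ε, Set.Ioo (-ε) ε ∈ nhds s := fun s hs =>
    isOpen_Ioo.mem_nhds hs
  have hinU : ∀ s ∈ Set.Ioo (-ε) ε, c s ∈ U := fun s hs => (hC.cur s (hsub s hs)).1
  have hTT : ∀ s ∈ Set.Ioo (-ε) ε, (inner ℝ (tf φ e (c s)) (tf φ e (c s)) : ℝ) = 1 := by
    intro s hs
    have := hC.frm.one (c s) (hinU s hs)
    rw [real_inner_self_eq_norm_sq, tf, this]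
    norm_num
  have hNN : ∀ s ∈ Set.Ioo (-ε) ε, (inner ℝ (N (c s)) (N (c s)) : ℝ) = 1 := by
    intro s hs
    rw [real_inner_self_eq_norm_sq, hC.hyp.imm.unit (c s) (hinU s hs)]
    norm_num
  -- gg
  have hgg : ∀ s ∈ Set.Ioo (-ε) ε, PBH48.gg cc (fun i => r i s) = ∑ i, mM φ P e c w s i i :=
    fun s hs => ((hMM s hs).1).symm
  have hggB : ∀ s ∈ Set.Ioo (-ε) ε, PBH48.gg cc (fun i => r i s) =
      (∑ i, mS φ P e c w s i i) • tf φ e (c s) - ∑ i, mB φ P c w s i i := by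
    intro s hs
    rw [hgg s hs]
    simp only [mM]
    rw [Finset.sum_sub_distrib, Finset.sum_smul]
  have hggT : ∀ s ∈ Set.Ioo (-ε) ε,
      (inner ℝ (PBH48.gg cc (fun i => r i s)) (tf φ e (c s)) : ℝ) =
        ∑ i, mS φ P e c w s i i := by
    intro s hs
    rw [hgg s hs, sum_inner]
    exact Finset.sum_congr rfl fun i _ => (hdm s (hsub s hs) i i).2.1
  have hNB : ∀ s ∈ Set.Ioo (-ε) ε,
      (∑ i, (inner ℝ (N (c s)) (mB φ P c w s i i) : ℝ)) = (m + α) * f (c s) := by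
    intro s hs
    have h1 := congrArg (fun u => (inner ℝ (N (c s)) u : ℝ)) (htra s (hsub s hs)).1
    simp only [inner_add_right, inner_sum, inner_smul_right, hNN s hs] at h1
    have h2 := (hC.bet1 (c s) (hinU s hs)).2.2
    rw [h2, ← hα] at h1
    linarith
  have hggN : ∀ s ∈ Set.Ioo (-ε) ε,
      (inner ℝ (PBH48.gg cc (fun i => r i s)) (N (c s)) : ℝ) = -((m + α) * f (c s)) := by
    intro s hs
    rw [hgg s hs, sum_inner, ← hNB s hs, ← Finset.sum_neg_distrib]
    exact Finset.sum_congr rfl fun i _ => (hdm s (hsub s hs) i i).2.2.1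
  have hka : ∀ s ∈ Set.Ioo (-ε) ε, PBH48.ka μ cc (N (c s)) (fun i => r i s) =
      -(α * f (c s)) := by
    intro s hs
    rw [PBH48.ka, hggN s hs, hμ]
    field_simp
  have hbb : ∀ s ∈ Set.Ioo (-ε) ε, PBH48.bb cc (tf φ e (c s)) (fun i => r i s) =
      ∑ i, mS φ P e c w s i i := by
    intro s hs
    rw [PBH48.bb, hggT s hs]
  have hqq : ∀ s ∈ Set.Ioo (-ε) ε, PBH48.qq cc (N (c s)) (fun i => r i s) =
      ∑ i, ∑ j, (inner ℝ (N (c s)) (mB φ P c w s i j) : ℝ) ^ 2 := by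
    intro s hs
    rw [PBH48.qq, ← (hMM s hs).2 (N (c s))]
    refine Finset.sum_congr rfl fun i _ => Finset.sum_congr rfl fun j _ => ?_
    rw [(hdm s (hsub s hs) i j).2.2.1]
    ring
  have hdN : ∀ s ∈ Set.Ioo (-ε) ε, HasDerivAt (fun s => N (c s))
      ((-(PBH48.ka μ cc (N (c s)) (fun i => r i s))) • tf φ e (c s)) s := by
    intro s hs
    have h1 := (hprp s (hsub s hs)).2.1
    rw [hkc] at h1
    rw [hka s hs]
    exact h1
  have hka' : ∀ s ∈ Set.Ioo (-ε) ε,
      HasDerivAt (fun t => PBH48.ka μ cc (N (c t)) (fun i => r i t))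
        (PBH48.ka1 μ cc (tf φ e (c s)) (N (c s)) (fun i => r i s)) s := fun s hs =>
    Loc.hasDerivAt_ka μ cc r (tf φ e (c s)) (fun s => N (c s)) s (fun i => hr s hs i)
      (hdN s hs)
  have hka1 : ∀ s ∈ Set.Ioo (-ε) ε,
      PBH48.ka1 μ cc (tf φ e (c s)) (N (c s)) (fun i => r i s) = -(α * lam (c s)) := by
    intro s hs
    have h1 : HasDerivAt (fun t => -(α * f (c t))) (-(α * lam (c s))) s :=
      ((hnrm s (hsub s hs)).1.const_mul α).neg
    have h2 : HasDerivAt (fun t => PBH48.ka μ cc (N (c t)) (fun i => r i t))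
        (-(α * lam (c s))) s := by
      refine h1.congr_of_eventuallyEq ?_
      filter_upwards [hnhds s hs] with t ht using hka t ht
    exact (hka' s hs).unique h2
  refine ⟨μ, ν, ε, cc, r, hμpos, hμ1, hν0, ?_⟩
  refine ⟨hε, hr0, ?_, ?_, ?_, ?_, ?_, hr, ?_, ?_, ?_⟩
  · exact hC.frm.one (c 0) (hinU 0 h0)
  · exact hC.hyp.imm.unit (c 0) (hinU 0 h0)
  · rw [real_inner_comm]
    exact hC.hyp.imm.perp (c 0) (hinU 0 h0) (e (c 0))
  · intro s hs
    have h1 := (hprp s (hsub s hs)).1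
    have h2 := (htra s (hsub s hs)).1
    have h3 : be φ e (c s) = PBH48.gg cc (fun i => r i s) -
        (inner ℝ (PBH48.gg cc (fun i => r i s)) (tf φ e (c s)) : ℝ) • tf φ e (c s) -
        ((1 - μ) * inner ℝ (PBH48.gg cc (fun i => r i s)) (N (c s))) • N (c s) := by
      rw [hggT s hs, hggN s hs, hggB s hs]
      have h4 : (1 - μ) * -((m + α) * f (c s)) = -(m * f (c s)) := by
        rw [hμ]
        field_simp
        ring
      rw [h4, neg_smul, sub_neg_eq_add, ← h2]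
      abel
    simp only at h1
    rw [h3] at h1
    exact h1
  · exact hdN
  · show PBH48.ka μ cc (N (c 0)) (fun i => r i 0) < 0
    rw [hka 0 h0]
    have := mul_pos hαpos (hC.hyp.fpos (c 0) (hinU 0 h0))
    linarith
  · show PBH48.ka1 μ cc (tf φ e (c 0)) (N (c 0)) (fun i => r i 0) < 0
    rw [hka1 0 h0]
    have := mul_pos hαpos (hC.frm.lpos (c 0) (hinU 0 h0))
    linarith
  · intro s hs
    show HasDerivAt (fun t => PBH48.ka1 μ cc (tf φ e (c t)) (N (c t)) (fun i => r i t))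
      (PBH48.ka μ cc (N (c s)) (fun i => r i s) *
        ((1 + ν) * PBH48.ka μ cc (N (c s)) (fun i => r i s) ^ 2 +
          PBH48.qq cc (N (c s)) (fun i => r i s)) -
        PBH48.bb cc (tf φ e (c s)) (fun i => r i s) *
          PBH48.ka1 μ cc (tf φ e (c s)) (N (c s)) (fun i => r i s)) s
    have h1 := ((hnrm s (hsub s hs)).2.const_mul α).neg
    have h2 : HasDerivAt
        (fun t => PBH48.ka1 μ cc (tf φ e (c t)) (N (c t)) (fun i => r i t))
        (-(α * (f (c s) * ((kc m p f c s) ^ 2 +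
          (∑ i, ∑ j, (inner ℝ (N (c s)) (mB φ P c w s i j) : ℝ) ^ 2) +
          m * (p - 2) * (f (c s)) ^ 2) - (∑ i, mS φ P e c w s i i) * lam (c s)))) s := by
      refine h1.congr_of_eventuallyEq ?_
      filter_upwards [hnhds s hs] with t ht using hka1 t ht
    have h3 : PBH48.ka μ cc (N (c s)) (fun i => r i s) *
        ((1 + ν) * PBH48.ka μ cc (N (c s)) (fun i => r i s) ^ 2 +
          PBH48.qq cc (N (c s)) (fun i => r i s)) -
        PBH48.bb cc (tf φ e (c s)) (fun i => r i s) *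
          PBH48.ka1 μ cc (tf φ e (c s)) (N (c s)) (fun i => r i s) =
        -(α * (f (c s) * ((kc m p f c s) ^ 2 +
          (∑ i, ∑ j, (inner ℝ (N (c s)) (mB φ P c w s i j) : ℝ) ^ 2) +
          m * (p - 2) * (f (c s)) ^ 2) - (∑ i, mS φ P e c w s i i) * lam (c s))) := by
      rw [hka s hs, hka1 s hs, hqq s hs, hbb s hs, hkc, hν]
      field_simp
      ring
    rw [h3]
    exact h2

end PBN
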