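import Pool.Agent.Lib.MP_8d4425_gt.PN.Iface

/-!
# Row NONV of PN: a nonempty open set where `Df ≠ 0` (helper63; port of PB/Nonv.lean of helper26)
-/

set_option autoImplicit false

namespace PBN

open MP8d4425
open scoped ContDiff

namespace Nonv

/-- Restriction to an open subset. -/
theorem hyp_mono {m n : ℕ} {p : ℝ} {U U' : Set (X m)} {φ N : X m → X n}
    {P : X m → (X n →L[ℝ] X m)} {f : X m → ℝ} (h : Hyp m n p U φ N P f) (hU : U' ⊆ U)
    (ho : IsOpen U') : Hyp m n p U' φ N P f where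
  imm :=
    { imm :=
        { op := ho
          sφ := h.imm.imm.sφ.mono hU
          sP := h.imm.imm.sP.mono hU
          left := fun x hx => h.imm.imm.left x (hU hx)
          orth := fun x hx => h.imm.imm.orth x (hU hx) }
      sN := h.imm.sN.mono hU
      unit := fun x hx => h.imm.unit x (hU hx)
      perp := fun x hx => h.imm.perp x (hU hx)
      par := fun x hx => h.imm.par x (hU hx) }
  sf := h.sf.mono hU
  fpos := fun x hx => h.fpos x (hU hx)
  mean := fun x hx => h.mean x (hU hx)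
  tang := fun x hx => h.tang x (hU hx)
  norm := fun x hx => h.norm x (hU hx)

/-- There is a point with `Df ≠ 0`. -/
theorem exists_pt (hbas : BasStatement) (hofr : OfrStatement) {m n : ℕ} {p : ℝ} {U : Set (X m)}
    {φ N : X m → X n} {P : X m → (X n →L[ℝ] X m)} {f : X m → ℝ} (hp : 2 ≤ p) (hm : 0 < m)
    (h : Hyp m n p U φ N P f) (hne : U.Nonempty) : ∃ x ∈ U, fderiv ℝ f x ≠ 0 := by
  by_contra hno
  push Not at hno
  obtain ⟨x, hx⟩ := hne
  have hfx : 0 < f x := h.fpos x hx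
  obtain ⟨⟨ε, hε⟩, -⟩ := hofr m n U φ P h.imm.imm x hx
  have h1 : ∀ᶠ y in nhds x, fderiv ℝ f y = 0 := by
    have h3 : ∀ᶠ y in nhds x, y ∈ U := h.imm.imm.op.mem_nhds hx
    filter_upwards [h3] with y hy
    exact hno y hy
  have h2 : fderiv ℝ (fderiv ℝ f) x = 0 := by
    have h3 : fderiv ℝ f =ᶠ[nhds x] fun _ => (0 : X m →L[ℝ] ℝ) := h1
    rw [h3.fderiv_eq]
    exact fderiv_const_apply _
  have h3 : fderiv ℝ f x = 0 := hno x hx
  have h4 : lap φ P f x ε = 0 := by
    unfold lap D2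
    rw [h2, h3]
    simp
  have h5 := h.norm x hx ε hε
  rw [h4] at h5
  have h6 : (∑ i, ‖fderiv ℝ N x (ε i)‖ ^ 2) + m * (p - 2) * (f x) ^ 2 = 0 := by
    rcases mul_eq_zero.1 h5.symm with h7 | h7
    · exact absurd h7 hfx.ne'
    · exact h7
  have h7 : 0 ≤ ∑ i, ‖fderiv ℝ N x (ε i)‖ ^ 2 := Finset.sum_nonneg fun i _ => by positivity
  have h8 : 0 ≤ (m : ℝ) * (p - 2) * (f x) ^ 2 :=
    mul_nonneg (mul_nonneg (Nat.cast_nonneg m) (by linarith)) (sq_nonneg _)
  have h9 : ∑ i, ‖fderiv ℝ N x (ε i)‖ ^ 2 = 0 := by linarith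
  rw [Finset.sum_eq_zero_iff_of_nonneg fun i _ => by positivity] at h9
  have h10 : ∀ i, fderiv ℝ N x (ε i) = 0 := fun i => by
    have := h9 i (Finset.mem_univ i)
    rw [sq_eq_zero_iff, norm_eq_zero] at this
    exact this
  obtain ⟨-, -, b3, -⟩ := hbas m n U φ N P h.imm x hx
  have h11 := congrArg (fun w => (inner ℝ (N x) w : ℝ)) (h.mean x hx ε hε)
  have h12 : (inner ℝ (N x) (∑ a, bf φ P x (ε a) (ε a)) : ℝ) = 0 := by
    rw [inner_sum]
    refine Finset.sum_eq_zero fun a _ => ?_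
    have h13 := b3 (ε a) (ε a)
    rw [h10 a, inner_zero_left] at h13
    linarith
  have h14 : (inner ℝ (N x) (((m : ℝ) * f x) • N x) : ℝ) = (m : ℝ) * f x := by
    rw [inner_smul_right, real_inner_self_eq_norm_sq, h.imm.unit x hx]
    ring
  rw [h12, h14] at h11
  have h15 : 0 < (m : ℝ) * f x := mul_pos (Nat.cast_pos.2 hm) hfx
  linarith

end Nonv

/-- Row NONV. -/
theorem nonv_proof (hbas : BasStatement) (hofr : OfrStatement) : NonvStatement := by
  intro m n p U φ N P f hp hm h hne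
  obtain ⟨x, hx, hdx⟩ := Nonv.exists_pt hbas hofr hp hm h hne
  have hd' : ContinuousOn (fderiv ℝ f) U :=
    h.sf.continuousOn_fderiv_of_isOpen h.imm.imm.op (by norm_num)
  have h2 : IsOpen (U ∩ (fderiv ℝ f) ⁻¹' {0}ᶜ) :=
    hd'.isOpen_inter_preimage h.imm.imm.op isOpen_compl_singleton
  exact ⟨U ∩ (fderiv ℝ f) ⁻¹' {0}ᶜ, Set.inter_subset_left, ⟨x, hx, hdx⟩,
    Nonv.hyp_mono h Set.inter_subset_left h2, fun y hy => hy.2⟩

end PBN
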