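import Pool.Agent.Lib.MP_8d4425_gt.PN.Iface
import Pool.Agent.Lib.MP_8d4425_gt.PB.Cod

set_option autoImplicit false

/-!
# PNMC board, row NRM (helper34): derivatives of `f` and `lam` along the curve (port of PB/Nrm.lean)
-/

namespace PBN

open MP8d4425
open scoped ContDiff

namespace Nrm

variable {m n : ℕ}

/-- The field `T` is smooth. -/
theorem smooth_tf {p : ℝ} {U : Set (X m)} {φ N : X m → X n}
    {P : X m → (X n →L[ℝ] X m)} {f lam : X m → ℝ} {e : X m → X m}
    (h : Hyp m n p U φ N P f) (hf : Frm m n p U φ N f e lam) : ContDiffOn ℝ ∞ (tf φ e) U :=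
  (h.imm.imm.sφ.fderiv_of_isOpen h.imm.imm.op (by simp)).clm_apply hf.se

/-- The Hessian of `f` in coordinates. -/
theorem hess {p : ℝ} {U : Set (X m)} {φ N : X m → X n}
    {P : X m → (X n →L[ℝ] X m)} {f lam : X m → ℝ} {e : X m → X m}
    (h : Hyp m n p U φ N P f) (hf : Frm m n p U φ N f e lam) {x : X m} (hx : x ∈ U) (u v : X m) :
    D2 f x u v = fderiv ℝ lam x u * inner ℝ (tf φ e x) (fderiv ℝ φ x v) +
      lam x * inner ℝ (fderiv ℝ (tf φ e) x u) (fderiv ℝ φ x v) +
      lam x * inner ℝ (tf φ e x) (D2 φ x u v) := by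
  have hU := h.imm.imm.op
  have h1 := Cod.hasFv hU h.sf hx v
  have h2 := (Cod.hasF hU hf.sl hx).fun_mul
    ((Cod.hasF hU (smooth_tf h hf) hx).inner ℝ (Cod.hasFv hU h.imm.imm.sφ hx v))
  have h3 := Cod.eq_of_eqOn hU hx (fun y hy => hf.df y hy v) h1 h2
  have h4 := congrArg (fun L : X m →L[ℝ] ℝ => L u) h3
  simp only [ContinuousLinearMap.comp_apply, ContinuousLinearMap.prod_apply,
    fderivInnerCLM_apply, ContinuousLinearMap.apply_apply, add_apply,
    smul_apply, smul_eq_mul] at h4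
  unfold D2
  rw [h4]
  ring

end Nrm

/-- Row NRM. -/
theorem nrm_proof (hP : PrpStatement) (hT : TraStatement) : NrmStatement := by
  intro m n p U φ N P f e lam k δ c w h s hs
  obtain ⟨hx, hc⟩ := h.cur s hs
  obtain ⟨-, -, pφ, pT, -, -, -, -, pTT, ε, hε, hg⟩ := hP m n p U φ N P f e lam k δ c w h s hs
  have hU := h.hyp.imm.imm.op
  have hone : (inner ℝ (tf φ e (c s)) (fderiv ℝ φ (c s) (e (c s))) : ℝ) = 1 := by
    have h1 := h.frm.one (c s) hx
    have h2 : (inner ℝ (fderiv ℝ φ (c s) (e (c s))) (fderiv ℝ φ (c s) (e (c s))) : ℝ) = 1 := by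
      rw [real_inner_self_eq_norm_sq, h1]
      norm_num
    exact h2
  constructor
  · refine ((Cod.hasF hU h.hyp.sf hx).comp_hasDerivAt s hc).congr_deriv ?_
    rw [h.frm.df (c s) hx]
    have h1 : (inner ℝ (fderiv ℝ φ (c s) (e (c s))) (fderiv ℝ φ (c s) (e (c s))) : ℝ) = 1 := hone
    rw [h1, mul_one]
  · refine ((Cod.hasF hU h.frm.sl hx).comp_hasDerivAt s hc).congr_deriv ?_
    have hN := h.hyp.norm (c s) hx ε hε
    rw [(hT m n p U φ N P f e lam k δ c w h s hs).2 ε hε (hg ℝ)] at hN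
    obtain ⟨G, hG⟩ : ∃ G : X m → ℝ, ∀ v, G v = fderiv ℝ lam (c s) v *
        inner ℝ (tf φ e (c s)) (fderiv ℝ φ (c s) v) +
        lam (c s) * inner ℝ (fderiv ℝ (tf φ e) (c s) v) (fderiv ℝ φ (c s) v) := ⟨_, fun _ => rfl⟩
    -- the Laplacian with the frame
    have hlap : lap φ P f (c s) ε = ∑ a, G (ε a) := by
      unfold lap
      refine Finset.sum_congr rfl fun a _ => ?_
      have h1 := Nrm.hess h.hyp h.frm hx (ε a) (ε a)
      have h2 : fderiv ℝ f (c s) (P (c s) (D2 φ (c s) (ε a) (ε a))) =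
          lam (c s) * inner ℝ (tf φ e (c s)) (D2 φ (c s) (ε a) (ε a)) := by
        rw [h.frm.df (c s) hx]
        have h3 := h.hyp.imm.imm.orth (c s) hx (D2 φ (c s) (ε a) (ε a)) (e (c s))
        rw [inner_sub_left, sub_eq_zero, real_inner_comm, real_inner_comm
          (fderiv ℝ φ (c s) (e (c s)))] at h3
        rw [← h3]
        rfl
      rw [h1, h2, hG]
      ring
    have hee : (inner ℝ (fderiv ℝ (tf φ e) (c s) (e (c s)))
        (fderiv ℝ φ (c s) (e (c s))) : ℝ) = 0 := by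
      have h1 := pTT (e (c s))
      rw [real_inner_comm] at h1
      exact h1
    have hsum : ∑ i, G (P (c s) (w i)) = lam (c s) * (∑ i, mS φ P e c w s i i) := by
      rw [Finset.mul_sum]
      refine Finset.sum_congr rfl fun i _ => ?_
      simp only [mS, Matrix.of_apply]
      rw [hG, pφ i, pT i, mul_zero, zero_add]
    rw [hlap, hg ℝ G, hsum, hG, hone, hee] at hN
    linarith

end PBN
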