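import Pool.Agent.Lib.MP_8d4425_gt.PN.Iface

set_option autoImplicit false

namespace PBN

open MP8d4425
open scoped ContDiff

/-- Expansion in an orthonormal family of the image of an injective linear map. -/
theorem ofr_expand {m n : ℕ} (L : X m →ₗ[ℝ] X n) (hinj : Function.Injective L)
    (ε : Fin m → X m)
    (hε : ∀ i j, inner ℝ (L (ε i)) (L (ε j)) = if i = j then (1 : ℝ) else 0) (v : X m) :
    L v = ∑ a, (inner ℝ (L (ε a)) (L v) : ℝ) • L (ε a) := by
  classical
  rcases Nat.eq_zero_or_pos m with hm | hm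
  · subst hm
    have hv : v = 0 := Subsingleton.elim _ _
    simp [hv]
  have : Nonempty (Fin m) := ⟨⟨0, hm⟩⟩
  let g : Fin m → LinearMap.range L := fun i => ⟨L (ε i), LinearMap.mem_range_self L (ε i)⟩
  have hg : Orthonormal ℝ g := by
    rw [orthonormal_iff_ite]
    intro i j
    exact hε i j
  have hcard : Fintype.card (Fin m) = Module.finrank ℝ (LinearMap.range L) := by
    rw [LinearMap.finrank_range_of_inj hinj]
    simp [X]
  let b := basisOfOrthonormalOfCardEqFinrank hg hcard
  have hb : ⇑b = g := coe_basisOfOrthonormalOfCardEqFinrank hg hcard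
  let B : OrthonormalBasis (Fin m) ℝ (LinearMap.range L) :=
    b.toOrthonormalBasis (by rw [hb]; exact hg)
  have hB : ⇑B = g := by
    rw [Module.Basis.coe_toOrthonormalBasis, hb]
  have hs := B.sum_repr' (⟨L v, LinearMap.mem_range_self L v⟩ : LinearMap.range L)
  rw [hB] at hs
  have h2 := congrArg (fun w : LinearMap.range L => (w : X n)) hs
  simp only [AddSubmonoidClass.coe_finsetSum, SetLike.val_smul] at h2
  exact h2.symm

/-- Row OFR. -/
theorem ofr_proof : OfrStatement := by
  intro m n U φ P h x hx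
  have hinj : Function.Injective (fderiv ℝ φ x) := by
    intro v w hvw
    have := congrArg (P x) hvw
    rwa [h.left x hx, h.left x hx] at this
  refine ⟨?_, ?_⟩
  · -- orthonormal basis of the range
    let L : X m →ₗ[ℝ] X n := (fderiv ℝ φ x : X m →ₗ[ℝ] X n)
    have hfin : Module.finrank ℝ (LinearMap.range L) = m := by
      rw [LinearMap.finrank_range_of_inj (show Function.Injective L from hinj)]
      simp [X]
    let B := (stdOrthonormalBasis ℝ (LinearMap.range L)).reindex (finCongr hfin)
    have hB : ∀ i, ∃ v, fderiv ℝ φ x v = (B i : X n) := fun i => by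
      obtain ⟨v, hv⟩ := (B i).2
      exact ⟨v, hv⟩
    choose ε hε using hB
    refine ⟨ε, ?_⟩
    intro i j
    rw [hε, hε]
    have h1 := (orthonormal_iff_ite.mp B.orthonormal) i j
    rw [← h1]
    rfl
  · intro ε hε
    have h1 : ∀ v, fderiv ℝ φ x v =
        ∑ a, (inner ℝ (fderiv ℝ φ x (ε a)) (fderiv ℝ φ x v) : ℝ) • fderiv ℝ φ x (ε a) :=
      fun v => ofr_expand (fderiv ℝ φ x : X m →ₗ[ℝ] X n) hinj ε hε v
    refine ⟨?_, ?_⟩
    · intro v
      apply hinj
      rw [map_sum]
      conv_lhs => rw [h1 v]
      refine Finset.sum_congr rfl fun a _ => ?_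
      rw [map_smul]
    · intro w
      conv_lhs => rw [h1 (P x w)]
      refine Finset.sum_congr rfl fun a _ => ?_
      have h2 := h.orth x hx w (ε a)
      rw [inner_sub_left, sub_eq_zero] at h2
      rw [real_inner_comm, ← h2, real_inner_comm]

end PBN
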