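import Pool.Agent.Lib.MP_8d4425_gt.PN.Iface
import Pool.Agent.Lib.MP_8d4425_gt.PB.Pinv

set_option autoImplicit false

/-!
# Row PINV: every immersion has the orthogonal left inverse of its derivative
-/

namespace PBN

open MP8d4425
open scoped ContDiff

/-- Row PINV. -/
theorem pinv_proof : MP8d4425.PinvStatement := MP8d4425.pinv_proof

/-- The consumer form. -/
theorem pinv_imm0 (m n : ℕ) (U : Set (X m)) (φ : X m → X n) (hU : IsOpen U)
    (hφ : ContDiffOn ℝ ∞ φ U) (hi : ∀ x ∈ U, Function.Injective (fderiv ℝ φ x)) :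
    ∃ P : X m → (X n →L[ℝ] X m), Imm0 m n U φ P := by
  obtain ⟨P, hP, h⟩ := MP8d4425.pinv_proof m n U φ hU hφ hi
  exact ⟨P, hU, hφ, hP, fun x hx => (h x hx).1, fun x hx => (h x hx).2⟩

end PBN
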