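import Pool.Agent.Lib.MP_8d4425_gt.PN.Iface
import Pool.Agent.Lib.MP_8d4425_gt.PB.Tnk

set_option autoImplicit false

/-!
# Row PRJ: the derivative of the tangential projection along `e`
-/

namespace PBN
open MP8d4425 MP8d4425.Tnk
open scoped ContDiff

theorem prj_proof (h0 : Bas0Statement) (h1 : Bet1Statement) (h2 : Bet2Statement) :
    PrjStatement := by
  intro m n p U φ N P f e lam hp hm hH hF x hx w
  have hI := hH.imm.imm
  have hU := hI.op
  obtain ⟨a1, a2, a3, a4, a5, a6, a7, a8⟩ := h0 m n U φ P hI x hx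
  obtain ⟨c1, c2, -⟩ := h1 m n p U φ N P f e lam hp hm hH hF x hx
  have c3 := h2 m n p U φ N P f e lam hp hm hH hF x hx
  have sDφ := cd_fderiv hU hI.sφ
  have sPw : ∀ u : X n, ContDiffOn ℝ ∞ (fun y => P y u) U := fun u =>
    hI.sP.clm_apply contDiffOn_const
  have sQ : ∀ u : X n, ContDiffOn ℝ ∞ (fun y => fderiv ℝ φ y (P y u)) U := fun u =>
    sDφ.clm_apply (sPw u)
  -- the derivative of the projection
  set L : X n → X n := fun u => fderiv ℝ (fun y => fderiv ℝ φ y (P y u)) x (e x) with hL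
  have L1 : ∀ u, L u = fderiv ℝ (fderiv ℝ φ) x (e x) (P x u) +
      fderiv ℝ φ x (fderiv ℝ (fun y => P y u) x (e x)) :=
    fun u => fderiv_app hU sDφ (sPw u) hx (e x)
  have L2 : ∀ z, L (fderiv ℝ φ x z) = bf φ P x (e x) z := fun z => a8 (e x) z
  have dP : ∀ u, fderiv ℝ (fun y => P y u) x (e x) = fderiv ℝ P x (e x) u := by
    intro u
    have := fderiv_app hU hI.sP (contDiffOn_const (c := u)) hx (e x)
    rw [this]
    simp
  have Ladd : ∀ u v, L (u + v) = L u + L v := by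
    intro u v
    rw [L1, L1, L1, dP, dP, dP]
    simp only [map_add]
    abel
  -- symmetry
  have sym : ∀ y ∈ U, ∀ u v : X n, (inner ℝ (fderiv ℝ φ y (P y u)) v : ℝ) =
      inner ℝ u (fderiv ℝ φ y (P y v)) := by
    intro y hy u v
    obtain ⟨-, -, -, -, -, -, b7, -⟩ := h0 m n U φ P hI y hy
    have e1 : (inner ℝ (fderiv ℝ φ y (P y v)) (fderiv ℝ φ y (P y u)) : ℝ) =
        inner ℝ v (fderiv ℝ φ y (P y u)) := b7 v (P y u)
    have e2 : (inner ℝ (fderiv ℝ φ y (P y u)) (fderiv ℝ φ y (P y v)) : ℝ) =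
        inner ℝ u (fderiv ℝ φ y (P y v)) := b7 u (P y v)
    rw [← e2, real_inner_comm, ← e1, real_inner_comm]
  have Lsym : ∀ u v : X n, (inner ℝ (L u) v : ℝ) = inner ℝ u (L v) := by
    intro u v
    have g1 := fderiv_inn hU (sQ u) (contDiffOn_const (c := v)) hx (e x)
    have g2 := fderiv_inn hU (contDiffOn_const (c := u)) (sQ v) hx (e x)
    rw [fderiv_congr hU (fun y hy => sym y hy u v) hx, g2] at g1
    simp only [fderiv_fun_const, Pi.zero_apply, _root_.zero_apply, inner_zero_left,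
      inner_zero_right, zero_add, add_zero] at g1
    exact g1.symm
  -- the normal part
  set ξ : X n := nor φ P x w with hξ
  have Pξ : P x ξ = 0 := a6 w
  have L3 : L ξ = fderiv ℝ φ x (fderiv ℝ (fun y => P y ξ) x (e x)) := by
    rw [L1, Pξ, map_zero, zero_add]
  have βn : ∀ v, (inner ℝ (be φ e x) (fderiv ℝ φ x v) : ℝ) = 0 := by
    intro v
    rw [c2]
    exact a3 _ v
  have L4 : ∀ z, (inner ℝ (L ξ) (fderiv ℝ φ x z) : ℝ) =
      inner ℝ (tf φ e x) (fderiv ℝ φ x z) * inner ℝ ξ (be φ e x) := by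
    intro z
    rw [Lsym, L2, c3 z, ← c2, inner_smul_right]
  have L5 : L ξ = (inner ℝ ξ (be φ e x) : ℝ) • tf φ e x := by
    have k1 : L ξ - (inner ℝ ξ (be φ e x) : ℝ) • tf φ e x = fderiv ℝ φ x
        (fderiv ℝ (fun y => P y ξ) x (e x) - (inner ℝ ξ (be φ e x) : ℝ) • e x) := by
      rw [map_sub, map_smul, L3]
      rfl
    have k2 : ∀ z, (inner ℝ (L ξ - (inner ℝ ξ (be φ e x) : ℝ) • tf φ e x)
        (fderiv ℝ φ x z) : ℝ) = 0 := by
      intro z
      rw [inner_sub_left, L4, inner_smul_left]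
      simp only [conj_trivial]
      ring
    have k3 := k2 (fderiv ℝ (fun y => P y ξ) x (e x) - (inner ℝ ξ (be φ e x) : ℝ) • e x)
    rw [← k1] at k3
    exact sub_eq_zero.mp (inner_self_eq_zero.mp k3)
  have wdec : w = fderiv ℝ φ x (P x w) + ξ := by
    rw [hξ, nor]
    abel
  have L6 : L w = bf φ P x (e x) (P x w) + (inner ℝ ξ (be φ e x) : ℝ) • tf φ e x := by
    conv_lhs => rw [wdec]
    rw [Ladd, L2, L5]
  have e7 : (inner ℝ (tf φ e x) (fderiv ℝ φ x (P x w)) : ℝ) = inner ℝ (tf φ e x) w := by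
    have := a7 w (e x)
    rw [real_inner_comm]
    change (inner ℝ (fderiv ℝ φ x (P x w)) (fderiv ℝ φ x (e x)) : ℝ) = _
    rw [this, real_inner_comm]
    rfl
  have e8 : (inner ℝ ξ (be φ e x) : ℝ) = inner ℝ (be φ e x) w := by
    have : (inner ℝ (be φ e x) w : ℝ) = inner ℝ (be φ e x) (fderiv ℝ φ x (P x w)) +
        inner ℝ (be φ e x) ξ := by
      rw [← inner_add_right, ← wdec]
    rw [this, βn, zero_add, real_inner_comm]
  change L w = _
  rw [L6, c3, ← c2, e7, e8]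

end PBN
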