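import Mathlib
import Pool.Agent.Lib.MP_8d4425_gt.PN.Iface
import Pool.Agent.Lib.MP_8d4425_gt.PB.Prp

set_option autoImplicit false

/-!
# Row PRP of the board pbn_modules (MP_8d4425_gt)

The vectors `w i` stay tangential and orthogonal to `T` along the integral curve.
-/

namespace PBN

open MP8d4425
open scoped ContDiff

theorem prp_hdT {m n : ℕ} {U : Set (X m)} {φ : X m → X n} {e : X m → X m} (hU : IsOpen U)
    (hφ : ContDiffOn ℝ ∞ φ U) (he : ContDiffOn ℝ ∞ e U) {x : X m} (hx : x ∈ U) :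
    HasFDerivAt (tf φ e) (fderiv ℝ (tf φ e) x) x := by
  have h := (MP8d4425.prp_hd2 hU hφ hx).clm_apply (MP8d4425.prp_hd hU he hx)
  exact h.differentiableAt.hasFDerivAt

theorem prp_TDT {m n : ℕ} {U : Set (X m)} {φ : X m → X n} {e : X m → X m} (hU : IsOpen U)
    (hφ : ContDiffOn ℝ ∞ φ U) (he : ContDiffOn ℝ ∞ e U)
    (h1 : ∀ x ∈ U, ‖fderiv ℝ φ x (e x)‖ = 1) {x : X m} (hx : x ∈ U) (v : X m) :
    inner ℝ (tf φ e x) (fderiv ℝ (tf φ e) x v) = (0 : ℝ) := by
  have hT := prp_hdT hU hφ he hx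
  have h2 := hT.inner ℝ hT
  have h3 : (fun y => (inner ℝ (tf φ e y) (tf φ e y) : ℝ)) =ᶠ[nhds x] fun _ => (1 : ℝ) := by
    filter_upwards [hU.mem_nhds hx] with y hy
    rw [real_inner_self_eq_norm_sq]
    have := h1 y hy
    unfold tf
    rw [this]; norm_num
  have h4 : HasFDerivAt (fun y => (inner ℝ (tf φ e y) (tf φ e y) : ℝ)) (0 : X m →L[ℝ] ℝ) x :=
    (hasFDerivAt_const (1 : ℝ) x).congr_of_eventuallyEq h3
  have h5 := h2.unique h4
  have h6 := congrArg (fun L : X m →L[ℝ] ℝ => L v) h5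
  simp only [ContinuousLinearMap.comp_apply, ContinuousLinearMap.prod_apply,
    fderivInnerCLM_apply, _root_.zero_apply] at h6
  rw [real_inner_comm (tf φ e x) (fderiv ℝ (tf φ e) x v)] at h6
  linarith

/-- A function with derivative `0` on an interval is constant. -/
theorem prp_const {E : Type} [NormedAddCommGroup E] [NormedSpace ℝ E] {δ : ℝ} (u : ℝ → E)
    (hδ : 0 < δ) (hd : ∀ s ∈ Set.Ioo (-δ) δ, HasDerivAt u 0 s) :
    ∀ s ∈ Set.Ioo (-δ) δ, u s = u 0 := by
  intro s hs
  have h0 : (0 : ℝ) ∈ Set.Ioo (-δ) δ := ⟨by linarith, hδ⟩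
  have hconv : Convex ℝ (Set.Ioo (-δ) δ) := convex_Ioo _ _
  have hdw : ∀ x ∈ Set.Ioo (-δ) δ, HasDerivWithinAt u ((fun _ => (0 : E)) x)
      (Set.Ioo (-δ) δ) x := fun x hx => (hd x hx).hasDerivWithinAt
  have hb : ∀ x ∈ Set.Ioo (-δ) δ, ‖((fun _ => (0 : E)) x)‖ ≤ 0 := by
    intro x _; simp
  have := hconv.norm_image_sub_le_of_norm_hasDerivWithin_le hdw hb h0 hs
  simp only [zero_mul] at this
  exact sub_eq_zero.1 (norm_le_zero_iff.mp this)

/-- Expansion in the tangent space. -/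
theorem prp_expand {k n : ℕ} (L : X (k + 1) →L[ℝ] X n) (e : X (k + 1)) (T : X n)
    (g : Fin k → X (k + 1)) (w : Fin k → X n) (hT : ‖T‖ = 1) (he : L e = T)
    (hw : Orthonormal ℝ w) (hTw : ∀ i, inner ℝ T (w i) = (0 : ℝ)) (hg : ∀ i, L (g i) = w i)
    (v : X (k + 1)) (h2 : inner ℝ T (L v) = (0 : ℝ)) :
    L v = ∑ j, (inner ℝ (L v) (w j) : ℝ) • w j := by
  classical
  let G : Option (Fin k) → X (k + 1) := fun o => Option.elim o e g
  let W : Option (Fin k) → X n := fun o => Option.elim o T w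
  have hW : Orthonormal ℝ W := by
    rw [orthonormal_iff_ite]
    rintro (_ | i) (_ | j)
    · simp [W, hT]
    · simpa [W] using hTw j
    · simp only [W, Option.elim]
      rw [real_inner_comm]; simpa using hTw i
    · have := (orthonormal_iff_ite.mp hw) i j
      simpa [W] using this
  have hGW : ∀ o, L (G o) = W o := by
    rintro (_ | i)
    · exact he
    · exact hg i
  have hli : LinearIndependent ℝ G := by
    have h1 : LinearIndependent ℝ (fun o => (L : X (k + 1) →ₗ[ℝ] X n) (G o)) := by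
      have e1 : (fun o => (L : X (k + 1) →ₗ[ℝ] X n) (G o)) = W := funext hGW
      rw [e1]
      exact hW.linearIndependent
    exact LinearIndependent.of_comp _ h1
  have hcard : Fintype.card (Option (Fin k)) = Module.finrank ℝ (X (k + 1)) := by
    simp [X]
  let b := basisOfLinearIndependentOfCardEqFinrank hli hcard
  have hb : ⇑b = G := coe_basisOfLinearIndependentOfCardEqFinrank hli hcard
  have hs := b.sum_repr v
  rw [hb] at hs
  have hs2 : L v = ∑ o, b.repr v o • W o := by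
    conv_lhs => rw [← hs]
    rw [map_sum]
    refine Finset.sum_congr rfl fun o _ => ?_
    rw [map_smul, hGW]
  have hin : ∀ o, inner ℝ (W o) (L v) = b.repr v o := by
    intro o
    rw [hs2, hW.inner_right_fintype]
  have hrhs : ∑ o, (inner ℝ (W o) (L v) : ℝ) • W o = L v := by
    conv_rhs => rw [hs2]
    exact Finset.sum_congr rfl fun o _ => by rw [hin]
  rw [Fintype.sum_option] at hrhs
  simp only [W, Option.elim] at hrhs
  rw [h2, zero_smul, zero_add] at hrhs
  rw [← hrhs]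
  conv_rhs => rw [hrhs]
  exact Finset.sum_congr rfl fun j _ => by rw [real_inner_comm]

theorem prp_proof (_h0 : Bas0Statement) (_hB : BasStatement) : PrpStatement := by
  intro m n p U φ N P f e lam k δ c w hC
  have hI := hC.hyp.imm
  have hI0 := hI.imm
  have hU := hI0.op
  have hF := hC.frm
  -- the derivative of `T`
  have hTd : ∀ s ∈ Set.Ioo (-δ) δ,
      HasDerivAt (fun s => tf φ e (c s)) (be φ e (c s)) s := by
    intro s hs
    obtain ⟨hcU, hcd⟩ := hC.cur s hs
    exact (prp_hdT hU hI0.sφ hF.se hcU).comp_hasDerivAt s hcd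
  have hQd : ∀ a : X n, ∀ s ∈ Set.Ioo (-δ) δ,
      HasDerivAt (fun s => fderiv ℝ φ (c s) (P (c s) a))
        ((inner ℝ (tf φ e (c s)) a : ℝ) • be φ e (c s) +
          (inner ℝ (be φ e (c s)) a : ℝ) • tf φ e (c s)) s := by
    intro a s hs
    obtain ⟨hcU, hcd⟩ := hC.cur s hs
    have h1 : HasFDerivAt (fun y => P y a) _ (c s) :=
      (MP8d4425.prp_hd hU hI0.sP hcU).clm_apply (hasFDerivAt_const a (c s))
    have h2 := (MP8d4425.prp_hd2 hU hI0.sφ hcU).clm_apply h1
    have h3 := h2.differentiableAt.hasFDerivAt.comp_hasDerivAt s hcd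
    refine h3.congr_deriv ?_
    exact hC.prj (c s) hcU a
  have hR : ∀ a : X n, ∀ s ∈ Set.Ioo (-δ) δ,
      fderiv ℝ φ (c s) (P (c s) a) - (inner ℝ (tf φ e (c s)) a : ℝ) • tf φ e (c s) =
      fderiv ℝ φ (c 0) (P (c 0) a) - (inner ℝ (tf φ e (c 0)) a : ℝ) • tf φ e (c 0) := by
    intro a
    refine prp_const (fun s => fderiv ℝ φ (c s) (P (c s) a) -
      (inner ℝ (tf φ e (c s)) a : ℝ) • tf φ e (c s)) hC.δpos ?_
    intro s hs
    have h1 : HasDerivAt (fun s => (inner ℝ (tf φ e (c s)) a : ℝ))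
        (inner ℝ (be φ e (c s)) a : ℝ) s := by
      have := (hTd s hs).inner ℝ (hasDerivAt_const s a)
      refine this.congr_deriv ?_
      simp
    have h2 := (hQd a s hs).sub (h1.smul (hTd s hs))
    refine h2.congr_deriv ?_
    abel
  have hTsm : ∀ s ∈ Set.Ioo (-δ) δ, inner ℝ (tf φ e (c s)) (tf φ e (c s)) = (1 : ℝ) := by
    intro s hs
    rw [real_inner_self_eq_norm_sq]
    have := hF.one (c s) (hC.cur s hs).1
    unfold tf
    rw [this]; norm_num
  have hTQ : ∀ a : X n, ∀ s ∈ Set.Ioo (-δ) δ,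
      inner ℝ (tf φ e (c s)) (fderiv ℝ φ (c s) (P (c s) a)) =
        (inner ℝ (tf φ e (c s)) a : ℝ) := by
    intro a s hs
    have h1 := hI0.orth (c s) (hC.cur s hs).1 a (e (c s))
    rw [inner_sub_left, sub_eq_zero] at h1
    rw [real_inner_comm, real_inner_comm a (tf φ e (c s))]
    exact h1.symm
  have hwi : ∀ s ∈ Set.Ioo (-δ) δ, ∀ i, inner ℝ (tf φ e (c s)) (w i) = (0 : ℝ) ∧
      fderiv ℝ φ (c s) (P (c s) (w i)) = w i := by
    intro s hs i
    have h1 := hR (w i) s hs
    rw [hC.wF i, hC.wT i, zero_smul, sub_zero] at h1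
    have h2 := congrArg (fun z => (inner ℝ (tf φ e (c s)) z : ℝ)) h1
    rw [inner_sub_right, inner_smul_right, hTsm s hs, mul_one, hTQ (w i) s hs, sub_self] at h2
    refine ⟨h2.symm, ?_⟩
    rw [← h2, zero_smul, sub_zero] at h1
    exact h1
  intro s hs
  obtain ⟨hcU, hcd⟩ := hC.cur s hs
  have hbe : ∀ v, inner ℝ (be φ e (c s)) (fderiv ℝ φ (c s) v) = (0 : ℝ) := by
    intro v
    have h1 := hI0.orth (c s) hcU (be φ e (c s)) v
    rw [(hC.bet1 (c s) hcU).1, map_zero, sub_zero] at h1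
    exact h1
  refine ⟨hTd s hs, ?_, fun i => (hwi s hs i).2, fun i => (hwi s hs i).1, ?_, ?_, ?_, ?_, ?_, ?_⟩
  · have h1 := (MP8d4425.prp_hd hU hI.sN hcU).comp_hasDerivAt s hcd
    refine h1.congr_deriv ?_
    rw [hF.dN (c s) hcU]
    simp [kc, tf]
  · intro i
    rw [← (hwi s hs i).2]
    exact hI.perp (c s) hcU _
  · intro i
    rw [← (hwi s hs i).2]
    exact hbe _
  · exact hI.perp (c s) hcU (e (c s))
  · intro v hv
    have hdim := hC.dim
    subst hdim
    exact prp_expand (fderiv ℝ φ (c s)) (e (c s)) (tf φ e (c s)) (fun i => P (c s) (w i)) w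
      (hF.one _ hcU) rfl hC.orth (fun i => (hwi s hs i).1) (fun i => (hwi s hs i).2) v hv
  · intro v
    exact prp_TDT hU hI0.sφ hF.se hF.one hcU v
  · have hdim := hC.dim
    subst hdim
    refine ⟨Fin.cons (e (c s)) (fun i => P (c s) (w i)), ?_, ?_⟩
    · intro i j
      refine Fin.cases ?_ (fun i => ?_) i
      · refine Fin.cases ?_ (fun j => ?_) j
        · simp only [Fin.cons_zero, if_true]
          exact hTsm s hs
        · simp only [Fin.cons_zero, Fin.cons_succ]
          rw [(hwi s hs j).2, if_neg (Fin.succ_ne_zero j).symm]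
          exact (hwi s hs j).1
      · refine Fin.cases ?_ (fun j => ?_) j
        · simp only [Fin.cons_zero, Fin.cons_succ]
          rw [(hwi s hs i).2, if_neg (Fin.succ_ne_zero i), real_inner_comm]
          exact (hwi s hs i).1
        · simp only [Fin.cons_succ]
          rw [(hwi s hs i).2, (hwi s hs j).2]
          have := (orthonormal_iff_ite.mp hC.orth) i j
          rw [this]
          simp [Fin.succ_inj]
    · intro F _ g
      rw [Fin.sum_univ_succ]
      simp

end PBN
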