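import Pool.Agent.Lib.MP_8d4425_gt.PN.Iface

/-!
# Row SPL: `H = f N` near a point with `H ≠ 0`
-/

set_option autoImplicit false

namespace PBN

open MP8d4425
open scoped ContDiff

/-- Row SPL. -/
theorem spl_proof (hPi : MP8d4425.PinvStatement) (h0 : Bas0Statement) (hO : OfrStatement)
    (hT : TenStatement) : SplStatement := by
  intro m n p U φ hm hU hφ hinj hpar x₀ hx₀ ht₀
  obtain ⟨P, hPs, hP⟩ := hPi m n U φ hU hφ hinj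
  have hI : Imm0 m n U φ P := ⟨hU, hφ, hPs, fun x hx => (hP x hx).1, fun x hx => (hP x hx).2⟩
  obtain ⟨hprd, hten⟩ := hT m n U φ P hm hI
  obtain ⟨hsm, hfr⟩ := hten p
  have hmR : (0 : ℝ) < m := by exact_mod_cast hm
  have hC : (0 : ℝ) < (m : ℝ) ^ ((p - 2) / 2) := Real.rpow_pos_of_pos hmR _
  have hCm : (0 : ℝ) < (m : ℝ) ^ ((p - 2) / 2) * m := mul_pos hC hmR
  have hU' : IsOpen (U ∩ tens p φ ⁻¹' {0}ᶜ) :=
    hsm.continuousOn.isOpen_inter_preimage hU isOpen_compl_singleton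
  have hsub : U ∩ tens p φ ⁻¹' {0}ᶜ ⊆ U := Set.inter_subset_left
  have hne : ∀ x ∈ U ∩ tens p φ ⁻¹' {0}ᶜ, tens p φ x ≠ 0 := fun x hx => hx.2
  have hne' : ∀ x ∈ U ∩ tens p φ ⁻¹' {0}ᶜ, ‖tens p φ x‖ ≠ 0 := fun x hx =>
    norm_ne_zero_iff.2 (hne x hx)
  have hsn : ContDiffOn ℝ ∞ (fun x => ‖tens p φ x‖) (U ∩ tens p φ ⁻¹' {0}ᶜ) :=
    (hsm.mono hsub).norm ℝ hne
  have hI' : Imm0 m n (U ∩ tens p φ ⁻¹' {0}ᶜ) φ P := ⟨hU', hφ.mono hsub, hPs.mono hsub,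
    fun x hx => (hP x (hsub hx)).1, fun x hx => (hP x (hsub hx)).2⟩
  have hperp : ∀ x ∈ U, ∀ v, inner ℝ (tens p φ x) (fderiv ℝ φ x v) = (0 : ℝ) := by
    intro x hx v
    obtain ⟨ε, hε⟩ := (hO m n U φ P hI x hx).1
    rw [hfr x hx ε hε, real_inner_smul_left, sum_inner]
    have hz : ∀ a, inner ℝ (bf φ P x (ε a) (ε a)) (fderiv ℝ φ x v) = (0 : ℝ) := fun a =>
      (h0 m n U φ P hI x hx).2.2.1 _ _
    rw [Finset.sum_eq_zero fun a _ => hz a, mul_zero]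
  refine ⟨U ∩ tens p φ ⁻¹' {0}ᶜ, fun y => ‖tens p φ y‖⁻¹ • tens p φ y, P,
    fun y => ‖tens p φ y‖ / ((m : ℝ) ^ ((p - 2) / 2) * m), hsub, ⟨hx₀, ht₀⟩,
    ⟨hI', ?_, ?_, ?_, ?_⟩, ?_, ?_, ?_, ?_, ?_⟩
  · exact (hsn.inv hne').smul (hsm.mono hsub)
  · intro x hx
    rw [norm_smul, norm_inv, norm_norm, inv_mul_cancel₀ (hne' x hx)]
  · intro x hx v
    rw [real_inner_smul_left, hperp x (hsub hx) v, mul_zero]
  · intro x hx v
    obtain ⟨u, hu⟩ := hpar x (hsub hx) (hne x hx) v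
    rw [hu, (hP x (hsub hx)).1 u]
  · exact hsn.div_const _
  · intro x hx
    exact div_pos (norm_pos_iff.2 (hne x hx)) hCm
  · intro x hx
    exact hprd x (hsub hx)
  · intro x hx
    have e : (m : ℝ) ^ ((p - 2) / 2) * (m * (‖tens p φ x‖ / ((m : ℝ) ^ ((p - 2) / 2) * m))) =
        ‖tens p φ x‖ := by
      field_simp
    show tens p φ x = ((m : ℝ) ^ ((p - 2) / 2) *
      (m * (‖tens p φ x‖ / ((m : ℝ) ^ ((p - 2) / 2) * m)))) • (‖tens p φ x‖⁻¹ • tens p φ x)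
    rw [e, smul_smul, mul_inv_cancel₀ (hne' x hx), one_smul]
  · intro x hx ε hε
    have h1 := hfr x (hsub hx) ε hε
    have h2 : ∑ a, bf φ P x (ε a) (ε a) = ((m : ℝ) ^ ((p - 2) / 2))⁻¹ • tens p φ x := by
      rw [h1, smul_smul, inv_mul_cancel₀ hC.ne', one_smul]
    have e : (m : ℝ) * (‖tens p φ x‖ / ((m : ℝ) ^ ((p - 2) / 2) * m)) * ‖tens p φ x‖⁻¹ =
        ((m : ℝ) ^ ((p - 2) / 2))⁻¹ := by
      have h3 := hne' x hx
      field_simp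
    show _ = ((m : ℝ) * (‖tens p φ x‖ / ((m : ℝ) ^ ((p - 2) / 2) * m))) •
      (‖tens p φ x‖⁻¹ • tens p φ x)
    rw [smul_smul, e, h2]

end PBN
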