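import Mathlib
import Pool.Agent.Lib.MP_8d4425_gt.PN.Iface

set_option autoImplicit false

/-!
# Row TEN: the p-tension field
-/

namespace PBN

open MP8d4425
open scoped ContDiff

/-- `dvg` depends only on the germ of the 1-form. -/
theorem ten_congr {m n : ℕ} (φ : X m → X n) {F : Type} [NormedAddCommGroup F]
    [NormedSpace ℝ F] (θ θ' : X m → Fin m → F) (x : X m) (h : θ =ᶠ[nhds x] θ') :
    dvg φ θ x = dvg φ θ' x := by
  unfold dvg
  congr 1
  refine Finset.sum_congr rfl fun i _ => ?_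
  have : (fun y => Real.sqrt (gram φ y).det • ∑ j, (gram φ y)⁻¹ i j • θ y j) =ᶠ[nhds x]
      (fun y => Real.sqrt (gram φ y).det • ∑ j, (gram φ y)⁻¹ i j • θ' y j) := by
    filter_upwards [h] with y hy
    rw [hy]
  rw [this.fderiv_eq]

theorem ten_det {m : ℕ} {U : Set (X m)} {G : X m → Matrix (Fin m) (Fin m) ℝ}
    (h : ∀ i j, ContDiffOn ℝ ∞ (fun x => G x i j) U) : ContDiffOn ℝ ∞ (fun x => (G x).det) U := by
  have e : (fun x => (G x).det) = fun x => ∑ σ : Equiv.Perm (Fin m),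
      ((Equiv.Perm.sign σ : ℤ) : ℝ) * ∏ i, G x (σ i) i := by
    funext x
    rw [Matrix.det_apply']
  rw [e]
  refine ContDiffOn.sum fun σ _ => contDiffOn_const.mul ?_
  exact contDiffOn_prod fun i _ => h (σ i) i

theorem ten_inv {m : ℕ} {U : Set (X m)} {G : X m → Matrix (Fin m) (Fin m) ℝ}
    (h : ∀ i j, ContDiffOn ℝ ∞ (fun x => G x i j) U) (hd : ∀ x ∈ U, (G x).det ≠ 0)
    (i j : Fin m) : ContDiffOn ℝ ∞ (fun x => (G x)⁻¹ i j) U := by
  have e : (fun x => (G x)⁻¹ i j) = fun x => ((G x).det)⁻¹ *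
      ((G x).updateRow j (Pi.single i 1)).det := by
    funext x
    rw [Matrix.inv_def, Ring.inverse_eq_inv', Matrix.smul_apply, smul_eq_mul,
      Matrix.adjugate_apply]
  rw [e]
  have h1 : ContDiffOn ℝ ∞ (fun x => ((G x).det)⁻¹) U := (ten_det h).fun_inv hd
  refine h1.mul (ten_det fun a b => ?_)
  by_cases hab : a = j
  · subst hab
    simp only [Matrix.updateRow_self]
    exact contDiffOn_const
  · simp only [Matrix.updateRow_ne hab]
    exact h a b

/-- Smoothness of the divergence. -/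
theorem ten_dvg {m n : ℕ} {U : Set (X m)} {φ : X m → X n} (hU : IsOpen U)
    (hφ : ContDiffOn ℝ ∞ φ U) (hd : ∀ x ∈ U, 0 < (gram φ x).det) {F : Type}
    [NormedAddCommGroup F] [NormedSpace ℝ F] {θ : X m → Fin m → F}
    (hθ : ∀ j, ContDiffOn ℝ ∞ (fun x => θ x j) U) : ContDiffOn ℝ ∞ (dvg φ θ) U := by
  have hsφ : ContDiffOn ℝ ∞ (fderiv ℝ φ) U := hφ.fderiv_of_isOpen hU (by simp)
  have hc : ∀ j, ContDiffOn ℝ ∞ (fun x => fderiv ℝ φ x (cv j)) U := fun j =>
    hsφ.clm_apply contDiffOn_const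
  have hg : ∀ i j, ContDiffOn ℝ ∞ (fun x => gram φ x i j) U := by
    intro i j
    simp only [gram, Matrix.of_apply]
    exact (hc i).inner ℝ (hc j)
  have hdet := ten_det hg
  have hinv := ten_inv hg fun x hx => (hd x hx).ne'
  have hsq : ContDiffOn ℝ ∞ (fun x => Real.sqrt (gram φ x).det) U :=
    hdet.sqrt fun x hx => (hd x hx).ne'
  have hsq' : ContDiffOn ℝ ∞ (fun x => (Real.sqrt (gram φ x).det)⁻¹) U :=
    hsq.fun_inv fun x hx => (Real.sqrt_pos.2 (hd x hx)).ne'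
  unfold dvg
  refine hsq'.fun_smul (ContDiffOn.sum fun i _ => ?_)
  have h1 : ContDiffOn ℝ ∞ (fun y => Real.sqrt (gram φ y).det •
      ∑ j, (gram φ y)⁻¹ i j • θ y j) U :=
    hsq.fun_smul (ContDiffOn.sum fun j _ => (hinv i j).fun_smul (hθ j))
  exact (h1.fderiv_of_isOpen hU (by simp)).clm_apply contDiffOn_const

theorem ten_proof (ho : OfrStatement) (ht : TrcStatement)
    (hd : DvgStatement) : TenStatement := by
  intro m n U φ P hm I
  have hU := I.op
  have hprd : ∀ x ∈ U, prd φ φ x = m := by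
    intro x hx
    obtain ⟨⟨ε, hε⟩, -⟩ := ho m n U φ P I x hx
    obtain ⟨-, h2⟩ := ht m n U φ P I x hx
    have h3 := h2 ε hε ℝ (((innerSL ℝ).bilinearComp (fderiv ℝ φ x) (fderiv ℝ φ x)))
    simp only [ContinuousLinearMap.bilinearComp_apply, smul_eq_mul] at h3
    have h4 : ∀ v w, (innerSL ℝ (fderiv ℝ φ x v)) (fderiv ℝ φ x w) =
        (inner ℝ (fderiv ℝ φ x v) (fderiv ℝ φ x w) : ℝ) := fun v w => rfl
    simp only [h4] at h3
    unfold prd
    rw [h3, Finset.sum_congr rfl fun a _ => hε a a]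
    simp
  have hdet : ∀ x ∈ U, 0 < (gram φ x).det := fun x hx => (ht m n U φ P I x hx).1
  have hsφ : ContDiffOn ℝ ∞ (fderiv ℝ φ) U := I.sφ.fderiv_of_isOpen hU (by simp)
  have key : ∀ (p : ℝ), ∀ x ∈ U, tens p φ x = dvg φ (fun y j =>
      ((((m : ℝ) ^ ((p - 2) / 2)) • fderiv ℝ φ y) (cv j))) x := by
    intro p x hx
    unfold tens
    refine ten_congr φ _ _ x ?_
    filter_upwards [hU.mem_nhds hx] with y hy
    funext j
    rw [hprd y hy]
    rfl
  refine ⟨hprd, fun p => ⟨?_, ?_⟩⟩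
  · refine ContDiffOn.congr ?_ (key p)
    refine ten_dvg hU I.sφ hdet fun j => ?_
    exact (hsφ.const_smul _).clm_apply contDiffOn_const
  · intro x hx ε hε
    set C : ℝ := (m : ℝ) ^ ((p - 2) / 2) with hC
    have hdφ : DifferentiableAt ℝ (fderiv ℝ φ) x :=
      (hsφ.contDiffAt (hU.mem_nhds hx)).differentiableAt (by simp)
    rw [key p x hx, hd m n U φ P I (X n) (fun y => C • fderiv ℝ φ y) x hx
      (hdφ.const_smul C) ε hε]
    have h2 : fderiv ℝ (fun y => C • fderiv ℝ φ y) x = C • fderiv ℝ (fderiv ℝ φ) x :=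
      fderiv_const_smul hdφ C
    rw [Finset.smul_sum]
    refine Finset.sum_congr rfl fun a _ => ?_
    rw [h2]
    simp only [_root_.smul_apply]
    unfold bf nor D2
    rw [smul_sub]

end PBN
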