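import Pool.Agent.Lib.MP_8d4425_gt.PN.Iface

set_option autoImplicit false

/-! # MP_8d4425_gt, PNMC board, row TRA (helper34): traces along the curve -/

namespace PBN

open MP8d4425
open scoped ContDiff

/-- Row TRA. -/
theorem tra_proof (hP : PrpStatement) (hV : VdtStatement) : TraStatement := by
  intro m n p U φ N P f e lam k δ c w h s hs
  obtain ⟨-, -, -, -, -, -, -, -, -, ε₀, hε₀, hg₀⟩ := hP m n p U φ N P f e lam k δ c w h s hs
  have hU := (h.cur s hs).1
  have hv := hV m n p U φ N P f e lam k δ c w h s hs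
  have hdN := h.frm.dN (c s) hU
  have hone := h.frm.one (c s) hU
  refine ⟨?_, ?_⟩
  · have h1 := h.hyp.mean (c s) hU ε₀ hε₀
    have h2 := hg₀ (X n) (fun v => bf φ P (c s) v v)
    rw [h2] at h1
    rw [(h.bet1 (c s) hU).2.1]
    exact h1
  · intro ε _ hg
    have h2 := hg (fun v => ‖fderiv ℝ N (c s) v‖ ^ 2)
    rw [h2, hdN, norm_smul, hone, mul_one, Real.norm_eq_abs, sq_abs]
    have h5 : ∀ i, ‖fderiv ℝ N (c s) (P (c s) (w i))‖ ^ 2 =
        ∑ j, (inner ℝ (N (c s)) (mB φ P c w s i j) : ℝ) ^ 2 := by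
      intro i
      rw [(hv i).2.1, norm_neg, ← real_inner_self_eq_norm_sq, h.orth.inner_sum]
      refine Finset.sum_congr rfl fun j _ => ?_
      rw [sq]
      simp
    rw [Finset.sum_congr rfl fun i _ => h5 i]
    unfold kc
    ring

end PBN
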