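import Pool.Agent.Lib.MP_8d4425_gt.PN.Iface
import Pool.Agent.Lib.MP_8d4425_gt.PB.Trc

set_option autoImplicit false

/-!
# Row TRC: the trace with the inverse Gram matrix is the frame trace
-/

namespace PBN

open MP8d4425

theorem trc_proof (h : OfrStatement) : TrcStatement := by
  intro m n U φ P hI x hx
  obtain ⟨⟨ε, hε⟩, -⟩ := h m n U φ P hI x hx
  refine ⟨gram_det_pos φ x ε hε, ?_⟩
  intro ε' hε' F _ _ b
  exact trc_sum φ x ε' hε' b

end PBN
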