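import Mathlib
import Pool.Agent.Lib.MP_8d4425_gt.PN.Iface

set_option autoImplicit false

/-!
# Row VDT: the derivatives of `T`, `N` along `P w`, and of `P w` along the curve
-/

namespace PBN

open MP8d4425
open scoped ContDiff

theorem vdt_cda {m : ℕ} {F : Type} [NormedAddCommGroup F] [NormedSpace ℝ F] {U : Set (X m)}
    {u : X m → F} (hU : IsOpen U) (hu : ContDiffOn ℝ ∞ u U) {x : X m} (hx : x ∈ U) :
    ContDiffAt ℝ ∞ u x := hu.contDiffAt (hU.mem_nhds hx)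

theorem vdt_fderiv_cda {m : ℕ} {F : Type} [NormedAddCommGroup F] [NormedSpace ℝ F]
    {U : Set (X m)}
    {u : X m → F} (hU : IsOpen U) (hu : ContDiffOn ℝ ∞ u U) {x : X m} (hx : x ∈ U) :
    ContDiffAt ℝ ∞ (fderiv ℝ u) x := (vdt_cda hU hu hx).fderiv_right (by norm_num)

theorem vdt_hd {m : ℕ} {F : Type} [NormedAddCommGroup F] [NormedSpace ℝ F] {U : Set (X m)}
    {u : X m → F} (hU : IsOpen U) (hu : ContDiffOn ℝ ∞ u U) {x : X m} (hx : x ∈ U) :
    HasFDerivAt u (fderiv ℝ u x) x :=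
  ((vdt_cda hU hu hx).differentiableAt (by simp)).hasFDerivAt

theorem vdt_hd2 {m : ℕ} {F : Type} [NormedAddCommGroup F] [NormedSpace ℝ F] {U : Set (X m)}
    {u : X m → F} (hU : IsOpen U) (hu : ContDiffOn ℝ ∞ u U) {x : X m} (hx : x ∈ U) :
    HasFDerivAt (fderiv ℝ u) (fderiv ℝ (fderiv ℝ u) x) x :=
  ((vdt_fderiv_cda hU hu hx).differentiableAt (by simp)).hasFDerivAt

theorem vdt_DT {m n : ℕ} {U : Set (X m)} {φ : X m → X n} {e : X m → X m} (hU : IsOpen U)
    (hφ : ContDiffOn ℝ ∞ φ U) (he : ContDiffOn ℝ ∞ e U) {x : X m} (hx : x ∈ U) (v : X m) :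
    fderiv ℝ (tf φ e) x v = fderiv ℝ φ x (fderiv ℝ e x v) + D2 φ x v (e x) := by
  have h := (vdt_hd2 hU hφ hx).clm_apply (vdt_hd hU he hx)
  have h2 : fderiv ℝ (tf φ e) x = _ := h.fderiv
  rw [h2]
  simp [D2]

theorem vdt_proof (h0 : Bas0Statement) (hB : BasStatement) (hP : PrpStatement) :
    VdtStatement := by
  intro m n p U φ N P f e lam k δ c w hC s hs i
  have hI := hC.hyp.imm
  have hI0 := hI.imm
  have hU := hI0.op
  have hF := hC.frm
  obtain ⟨hcU, hcd⟩ := hC.cur s hs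
  obtain ⟨-, -, hPw, hTw, hNw, -, hNT, hexp, hTDT, -⟩ :=
    hP m n p U φ N P f e lam k δ c w hC s hs
  obtain ⟨d1, d2, d3, -, d5, -, -, -⟩ := h0 m n U φ P hI0 (c s) hcU
  obtain ⟨-, -, b3, -, b5, -, -, -, -⟩ := hB m n U φ N P hI (c s) hcU
  -- `DT (v_i)` is tangential
  have t1 : nor φ P (c s) (fderiv ℝ (tf φ e) (c s) (P (c s) (w i))) = 0 := by
    have h1 : nor φ P (c s) (fderiv ℝ (tf φ e) (c s) (P (c s) (w i))) =
        bf φ P (c s) (P (c s) (w i)) (e (c s)) := by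
      rw [vdt_DT hU hI0.sφ hF.se hcU, bf]
      unfold nor
      rw [map_add, map_add, hI0.left (c s) hcU]
      abel
    rw [h1, d2, hC.bet2 (c s) hcU, hPw i, hTw i, zero_smul]
  have t2 : fderiv ℝ φ (c s) (P (c s) (fderiv ℝ (tf φ e) (c s) (P (c s) (w i)))) =
      fderiv ℝ (tf φ e) (c s) (P (c s) (w i)) := by
    rw [nor, sub_eq_zero] at t1
    exact t1.symm
  have e2 : fderiv ℝ (tf φ e) (c s) (P (c s) (w i)) = ∑ j, mS φ P e c w s i j • w j := by
    have h1 := hexp (P (c s) (fderiv ℝ (tf φ e) (c s) (P (c s) (w i))))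
      (by rw [t2]; exact hTDT _)
    rw [t2] at h1
    refine h1.trans (Finset.sum_congr rfl fun j _ => ?_)
    rfl
  -- `DN (v_i)`
  have n2 : fderiv ℝ φ (c s) (P (c s) (fderiv ℝ N (c s) (P (c s) (w i)))) =
      fderiv ℝ N (c s) (P (c s) (w i)) := hI.par (c s) hcU _
  have n3 : inner ℝ (tf φ e (c s)) (fderiv ℝ N (c s) (P (c s) (w i))) = (0 : ℝ) := by
    rw [real_inner_comm]
    have h1 := b5 (P (c s) (w i)) (e (c s))
    have h2 : fderiv ℝ φ (c s) (e (c s)) = tf φ e (c s) := rfl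
    rw [h2] at h1
    rw [h1, hF.dN (c s) hcU, h2, inner_smul_left, hPw i, hTw i]
    simp
  have e1 : fderiv ℝ N (c s) (P (c s) (w i)) =
      -∑ j, (inner ℝ (N (c s)) (mB φ P c w s i j) : ℝ) • w j := by
    have h1 := hexp (P (c s) (fderiv ℝ N (c s) (P (c s) (w i)))) (by rw [n2]; exact n3)
    rw [n2] at h1
    refine h1.trans ?_
    rw [← Finset.sum_neg_distrib]
    refine Finset.sum_congr rfl fun j _ => ?_
    have h2 := b3 (P (c s) (w i)) (P (c s) (w j))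
    rw [hPw j] at h2
    rw [h2, mB, neg_smul]
  refine ⟨e2, e1, ?_⟩
  have hPd : HasFDerivAt P (fderiv ℝ P (c s)) (c s) := vdt_hd hU hI0.sP hcU
  have h1 : HasDerivAt (fun t => P (c t)) (fderiv ℝ P (c s) (e (c s))) s :=
    hPd.comp_hasDerivAt s hcd
  have h2 : HasDerivAt (fun t => P (c t) (w i)) (fderiv ℝ P (c s) (e (c s)) (w i)) s := by
    have := h1.clm_apply (hasDerivAt_const s (w i))
    refine this.congr_deriv ?_
    simp
  have h3 : HasDerivAt (fun t => fderiv ℝ φ (c t))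
      (fderiv ℝ (fderiv ℝ φ) (c s) (e (c s))) s := (vdt_hd2 hU hI0.sφ hcU).comp_hasDerivAt s hcd
  have h4 := h3.clm_apply h2
  have h5 : HasDerivAt (fun t => fderiv ℝ φ (c t) (P (c t) (w i))) (0 : X n) s := by
    refine (hasDerivAt_const s (w i)).congr_of_eventuallyEq ?_
    filter_upwards [isOpen_Ioo.mem_nhds hs] with t ht
    exact (hP m n p U φ N P f e lam k δ c w hC t ht).2.2.1 i
  have h6 := h4.unique h5
  have h7 : fderiv ℝ φ (c s) (fderiv ℝ P (c s) (e (c s)) (w i)) =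
      fderiv ℝ φ (c s) (fderiv ℝ e (c s) (P (c s) (w i))) -
        fderiv ℝ (tf φ e) (c s) (P (c s) (w i)) := by
    rw [vdt_DT hU hI0.sφ hF.se hcU, d1]
    have h8 : D2 φ (c s) (e (c s)) (P (c s) (w i)) +
        fderiv ℝ φ (c s) (fderiv ℝ P (c s) (e (c s)) (w i)) = 0 := h6
    rw [eq_neg_of_add_eq_zero_right h8]
    abel
  have h9 := congrArg (P (c s)) h7
  rw [map_sub, hI0.left (c s) hcU, hI0.left (c s) hcU, e2, map_sum] at h9
  rw [h9] at h2
  refine h2.congr_deriv ?_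
  simp

end PBN
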