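import Mathlib
import Pool.Agent.Lib.MP_8d4425_gt.PN.Iface

set_option autoImplicit false

/-!
# Row WEX: an orthonormal basis of the orthogonal complement of `T` in the tangent space
-/

namespace PBN

open MP8d4425
open scoped ContDiff

theorem wex_proof : WexStatement := by
  intro m n k U φ P hI hkm x hx v hv
  have hleft := hI.left x hx
  have hinj : Function.Injective (fderiv ℝ φ x) := fun a b hab => by
    have := congrArg (P x) hab
    rwa [hleft, hleft] at this
  set L : X m →ₗ[ℝ] X n := (fderiv ℝ φ x : X m →L[ℝ] X n).toLinearMap with hL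
  have hLinj : Function.Injective L := hinj
  have hLapp : ∀ u, L u = fderiv ℝ φ x u := fun u => rfl
  set R : Submodule ℝ (X n) := LinearMap.range L with hR
  have hRfin : Module.finrank ℝ R = m := by
    rw [hR, LinearMap.finrank_range_of_inj hLinj]
    simp
  set T : R := ⟨L v, LinearMap.mem_range_self L v⟩ with hT
  have hT0 : T ≠ 0 := by
    intro h
    have h2 : (T : X n) = 0 := by rw [h]; rfl
    have h3 : ‖fderiv ℝ φ x v‖ = 0 := by
      rw [← hLapp v]
      have : (T : X n) = L v := rfl
      rw [← this, h2, norm_zero]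
    rw [hv] at h3
    exact one_ne_zero h3
  set K : Submodule ℝ R := Submodule.span ℝ {T} with hK
  have hK1 : Module.finrank ℝ K = 1 := finrank_span_singleton hT0
  have hKo : Module.finrank ℝ Kᗮ = k := by
    have h1 := Submodule.finrank_add_finrank_orthogonal K
    rw [hK1, hRfin] at h1
    omega
  have hTK : T ∈ K := Submodule.mem_span_singleton_self T
  let b : OrthonormalBasis (Fin k) ℝ Kᗮ :=
    (stdOrthonormalBasis ℝ Kᗮ).reindex (finCongr hKo)
  refine ⟨fun i => ((b i : R) : X n), ?_, fun i => ?_, fun i => ?_⟩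
  · have h := b.orthonormal
    have h1 := h.comp_linearIsometry Kᗮ.subtypeₗᵢ
    exact h1.comp_linearIsometry R.subtypeₗᵢ
  · obtain ⟨u, hu⟩ := (b i : R).2
    have hu' : fderiv ℝ φ x u = ((b i : R) : X n) := hu
    show fderiv ℝ φ x (P x ((b i : R) : X n)) = ((b i : R) : X n)
    rw [← hu', hleft]
  · have h := (Submodule.mem_orthogonal K _).1 (b i).2 T hTK
    exact h

end PBN
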