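import Mathlib
import Pool.Agent.Lib.MP_8d4425_gt.E54.PMain
import Pool.Agent.Lib.MP_8d4425_gt.PN.Bas0
import Pool.Agent.Lib.MP_8d4425_gt.PN.Bas
import Pool.Agent.Lib.MP_8d4425_gt.PN.Ofr
import Pool.Agent.Lib.MP_8d4425_gt.PN.Trc
import Pool.Agent.Lib.MP_8d4425_gt.PN.Jac
import Pool.Agent.Lib.MP_8d4425_gt.PN.Dvg
import Pool.Agent.Lib.MP_8d4425_gt.PN.Ten
import Pool.Agent.Lib.MP_8d4425_gt.PN.Spl
import Pool.Agent.Lib.MP_8d4425_gt.PN.Eqv
import Pool.Agent.Lib.MP_8d4425_gt.PN.Cod
import Pool.Agent.Lib.MP_8d4425_gt.PN.Hyp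
import Pool.Agent.Lib.MP_8d4425_gt.PN.Nonv
import Pool.Agent.Lib.MP_8d4425_gt.PN.Frm
import Pool.Agent.Lib.MP_8d4425_gt.PN.Ker
import Pool.Agent.Lib.MP_8d4425_gt.PN.Bet1
import Pool.Agent.Lib.MP_8d4425_gt.PN.Bet2
import Pool.Agent.Lib.MP_8d4425_gt.PN.Prj
import Pool.Agent.Lib.MP_8d4425_gt.PN.Cur
import Pool.Agent.Lib.MP_8d4425_gt.PN.Pinv
import Pool.Agent.Lib.MP_8d4425_gt.PN.Wex
import Pool.Agent.Lib.MP_8d4425_gt.PN.Prp
import Pool.Agent.Lib.MP_8d4425_gt.PN.Vdt
import Pool.Agent.Lib.MP_8d4425_gt.PN.Sya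
import Pool.Agent.Lib.MP_8d4425_gt.PN.Db
import Pool.Agent.Lib.MP_8d4425_gt.PN.Ds
import Pool.Agent.Lib.MP_8d4425_gt.PN.Dm
import Pool.Agent.Lib.MP_8d4425_gt.PN.Tra
import Pool.Agent.Lib.MP_8d4425_gt.PN.Nrm
import Pool.Agent.Lib.MP_8d4425_gt.PN.Diag
import Pool.Agent.Lib.MP_8d4425_gt.PN.Loc
import Pool.Agent.Lib.MP_8d4425_gt.PN.Fin
import Pool.Agent.Lib.MP_8d4425_gt.PB.Vgd
import Pool.Agent.Lib.MP_8d4425_gt.PB.Vds
import Pool.Agent.Lib.MP_8d4425_gt.PB.Vcm
import Pool.Agent.Lib.MP_8d4425_gt.PB.Vtn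
import Pool.Agent.Lib.MP_8d4425_gt.PB.Vin
import Pool.Agent.Lib.MP_8d4425_gt.PB.Vib
import Pool.Agent.Lib.MP_8d4425_gt.PB.Vsy
import Pool.Agent.Lib.MP_8d4425_gt.PB.Vfl
import Pool.Agent.Lib.MP_8d4425_gt.PB.Vel

set_option autoImplicit false

/-!
# p-biharmonic hypersurfaces, and PNMC immersions of any codimension, are minimal
-/

namespace PBN

open MP8d4425

/-- Biharmonic equation plus parallel normalised mean curvature vector implies minimal. -/
theorem main_statement : MainStatement := by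
  have h0 : Bas0Statement := bas0_proof
  have hB : BasStatement := bas_proof h0
  have hO : OfrStatement := ofr_proof
  have hTrc : TrcStatement := trc_proof hO
  have hJac : JacStatement := jac_proof
  have hDvg : DvgStatement := dvg_proof hO hTrc hJac
  have hTen : TenStatement := ten_proof hO hTrc hDvg
  have hSpl : SplStatement := spl_proof pinv_proof h0 hO hTen
  have hEqv : EqvStatement := eqv_proof hB hO hTrc hDvg
  have hCod : CodStatement := cod_proof h0 hB hO
  have hHyp : HypStatement := hyp_proof hB hO hCod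
  have hNonv : NonvStatement := nonv_proof hB hO
  have hFrm : FrmStatement := frm_proof h0
  have hKer : KerStatement := ker_proof h0 hB
  have hBet1 : Bet1Statement := bet1_proof h0 hB hKer
  have hBet2 : Bet2Statement := bet2_proof h0 hB hKer
  have hPrj : PrjStatement := prj_proof h0 hBet1 hBet2
  have hPrp : PrpStatement := prp_proof h0 hB
  have hVdt : VdtStatement := vdt_proof h0 hB hPrp
  have hSya : SyaStatement := sya_proof h0 hPrp
  have hDb : DbStatement := db_proof h0 hPrp hVdt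
  have hDs : DsStatement := ds_proof h0 hPrp hVdt
  have hDm : DmStatement := dm_proof h0 hPrp hSya hDb hDs
  have hTra : TraStatement := tra_proof hPrp hVdt
  have hNrm : NrmStatement := nrm_proof hPrp hTra
  have hLoc : LocStatement := loc_proof hPrp hDm hTra hNrm diag_proof
  exact fin_proof hSpl hEqv hHyp hNonv hFrm hBet1 hBet2 hPrj cur_proof wex_proof hLoc
    PBH54P.ode2_main

/-- In codimension one the normalised mean curvature vector is parallel. -/
theorem codim_statement : CodimStatement :=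
  codim_proof pinv_proof bas0_proof ofr_proof
    (ten_proof ofr_proof (trc_proof ofr_proof)
      (dvg_proof ofr_proof (trc_proof ofr_proof) jac_proof))

/-- The Euler-Lagrange equation. -/
theorem vel_statement : VelStatement := by
  have h1 : VgdStatement := vgd_proof
  have h2 : VdsStatement := vds_proof h1
  have h3 : VtnStatement := vtn_proof h1 h2 vcm_proof
  have h4 : VibStatement := vib_proof h1
  have h5 : VsyStatement := vsy_proof h1 h2 h4
  exact vel_proof h1 h2 h3 vin_proof h5 vfl_proof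

/-- The theorem with the definition of the problem file. -/
theorem final_statement : FinalStatement :=
  final_of main_statement vel_statement codim_statement

end PBN
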