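import Mathlib
import Pool.Agent.Lib.MP_8d4425_gt.PN.Iface

set_option autoImplicit false

/-!
# Row SYA: the two matrices are symmetric
-/

namespace PBN

open MP8d4425
open scoped ContDiff

namespace Sya

variable {m n : ℕ}

theorem hasF {F : Type} [NormedAddCommGroup F] [NormedSpace ℝ F] {U : Set (X m)} {g : X m → F}
    (hU : IsOpen U) (hg : ContDiffOn ℝ ∞ g U) {x : X m} (hx : x ∈ U) :
    HasFDerivAt g (fderiv ℝ g x) x :=
  ((hg.contDiffAt (hU.mem_nhds hx)).differentiableAt (by simp)).hasFDerivAt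

theorem hasF2 {F : Type} [NormedAddCommGroup F] [NormedSpace ℝ F] {U : Set (X m)} {g : X m → F}
    (hU : IsOpen U) (hg : ContDiffOn ℝ ∞ g U) {x : X m} (hx : x ∈ U) :
    HasFDerivAt (fderiv ℝ g) (fderiv ℝ (fderiv ℝ g) x) x :=
  hasF hU (hg.fderiv_of_isOpen hU (by simp)) hx

/-- the derivative of `y ↦ Dg_y v` -/
theorem hasFv {F : Type} [NormedAddCommGroup F] [NormedSpace ℝ F] {U : Set (X m)} {g : X m → F}
    (hU : IsOpen U) (hg : ContDiffOn ℝ ∞ g U) {x : X m} (hx : x ∈ U) (v : X m) :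
    HasFDerivAt (fun y => fderiv ℝ g y v)
      ((ContinuousLinearMap.apply ℝ F v).comp (fderiv ℝ (fderiv ℝ g) x)) x :=
  (ContinuousLinearMap.apply ℝ F v).hasFDerivAt.comp x (hasF2 hU hg hx)

/-- Two functions which agree on an open set have the same derivative. -/
theorem eq_of_eqOn {F : Type} [NormedAddCommGroup F] [NormedSpace ℝ F] {U : Set (X m)}
    {g g' : X m → F} (hU : IsOpen U) {x : X m} (hx : x ∈ U) (h : ∀ y ∈ U, g y = g' y)
    {A A' : X m →L[ℝ] F} (hA : HasFDerivAt g A x) (hA' : HasFDerivAt g' A' x) : A = A' := by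
  have h1 : g =ᶠ[nhds x] g' := by
    filter_upwards [hU.mem_nhds hx] with y hy using h y hy
  exact (hA.congr_of_eventuallyEq h1.symm).unique hA'

/-- The field `T` is smooth. -/
theorem smooth_tf {p : ℝ} {U : Set (X m)} {φ N : X m → X n}
    {P : X m → (X n →L[ℝ] X m)} {f lam : X m → ℝ} {e : X m → X m}
    (h : Hyp m n p U φ N P f) (hf : Frm m n p U φ N f e lam) : ContDiffOn ℝ ∞ (tf φ e) U :=
  (h.imm.imm.sφ.fderiv_of_isOpen h.imm.imm.op (by simp)).clm_apply hf.se

/-- The Hessian of `f` in coordinates. -/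
theorem hess {p : ℝ} {U : Set (X m)} {φ N : X m → X n}
    {P : X m → (X n →L[ℝ] X m)} {f lam : X m → ℝ} {e : X m → X m}
    (h : Hyp m n p U φ N P f) (hf : Frm m n p U φ N f e lam) {x : X m} (hx : x ∈ U)
    (u v : X m) :
    D2 f x u v = fderiv ℝ lam x u * inner ℝ (tf φ e x) (fderiv ℝ φ x v) +
      lam x * inner ℝ (fderiv ℝ (tf φ e) x u) (fderiv ℝ φ x v) +
      lam x * inner ℝ (tf φ e x) (D2 φ x u v) := by
  have hU := h.imm.imm.op
  have h1 := hasFv hU h.sf hx v
  have h2 := (hasF hU hf.sl hx).fun_mul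
    ((hasF hU (smooth_tf h hf) hx).inner ℝ (hasFv hU h.imm.imm.sφ hx v))
  have h3 := eq_of_eqOn hU hx (fun y hy => hf.df y hy v) h1 h2
  have h4 := congrArg (fun L : X m →L[ℝ] ℝ => L u) h3
  simp only [ContinuousLinearMap.comp_apply, ContinuousLinearMap.prod_apply,
    fderivInnerCLM_apply, ContinuousLinearMap.apply_apply, add_apply,
    smul_apply, smul_eq_mul] at h4
  unfold D2
  rw [h4]
  ring

/-- The Hessian of a smooth function is symmetric. -/
theorem symm_D2 {F : Type} [NormedAddCommGroup F] [NormedSpace ℝ F] {U : Set (X m)}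
    {g : X m → F} (hU : IsOpen U) (hg : ContDiffOn ℝ ∞ g U) {x : X m} (hx : x ∈ U)
    (u v : X m) : D2 g x u v = D2 g x v u :=
  ((hg.contDiffAt (hU.mem_nhds hx)).isSymmSndFDerivAt (by
      rw [minSmoothness_of_isRCLikeNormedField]
      exact (show ((2 : ℕ∞) : WithTop ℕ∞) ≤ ((⊤ : ℕ∞) : WithTop ℕ∞) from
        WithTop.coe_le_coe.2 le_top))).eq u v

end Sya

/-- Row SYA. -/
theorem sya_proof (h0 : Bas0Statement) (hP : PrpStatement) : SyaStatement := by
  intro m n p U φ N P f e lam k δ c w h s hs i j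
  obtain ⟨hx, -⟩ := h.cur s hs
  obtain ⟨-, -, pφ, pT, -⟩ := hP m n p U φ N P f e lam k δ c w h s hs
  obtain ⟨hb1, hb2, -⟩ := h0 m n U φ P h.hyp.imm.imm (c s) hx
  constructor
  · have h1 := Sya.hess h.hyp h.frm hx (P (c s) (w i)) (P (c s) (w j))
    have h2 := Sya.hess h.hyp h.frm hx (P (c s) (w j)) (P (c s) (w i))
    rw [pφ j, pT j, mul_zero, zero_add] at h1
    rw [pφ i, pT i, mul_zero, zero_add, hb1 (P (c s) (w j)) (P (c s) (w i)),
      Sya.symm_D2 h.hyp.imm.imm.op h.hyp.sf hx (P (c s) (w j)) (P (c s) (w i)), h1] at h2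
    have h3 := (h.frm.lpos (c s) hx).ne'
    simp only [mS, Matrix.of_apply]
    exact mul_left_cancel₀ h3 (add_right_cancel h2)
  · simp only [mB]
    exact hb2 _ _

end PBN
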